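import Mathlib
import Pool.Agent.H432.AC.Stm
import Pool.Agent.H432.RC.Ext

/-!
# Project G1 (helper432): Vojta's inequality on the curves of genus one of bounded degree

`E` is the elliptic curve `y ^ 2 = x ^ 3 + a x + b` over a number field `L`, `φ : E → X` a map given by
polynomials in `x`, `y` of degree at most `N`, `X` a smooth projective variety over `k ⊆ L` with normal
crossings divisor `D`. Outside of a proper closed subset `Z` of `X`, which depends only on `X` and `N`:
`m_{S,D}(φ(P)) + h_K(φ(P)) ≤ ε h(φ(P)) + C` for all `P ∈ E(L)`.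

Arithmetic part: Siegel's inequality `m_{S,A}(x(P)) ≤ ε h(x(P)) + C` for every finite set `A` of points
of the line (Roth's theorem, division by two). Geometric part: `h_K(φ(P)) ≤ C` outside of `Z`
(certificate `CertE`: the derivation `y d/dx` of the function field is regular at all places).
-/

set_option autoImplicit false
set_option linter.unusedVariables false

namespace Pool.Agent.H432.G1

open MvPolynomial NumberField IsDedekindDomain Module Height
open Pool.Agent.N750 (Sm IsTB mv)
open Pool.Agent.W180.OP (Pl av wt nrm)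
open Pool.Agent.H432.AC (Rel)

/-! ## Definitions -/

/-- the polynomial `Y ^ 2 - (X ^ 3 + a X + b)` -/
noncomputable def wei {R : Type} [CommRing R] (a b : R) : MvPolynomial (Fin 2) R :=
  X 1 ^ 2 - (X 0 ^ 3 + C a * X 0 + C b)

/-- the certificate for the map `φ` on the curve `P = 0` (used for `P = wei a b`) -/
def CertE {k R : Type} [Field k] [CommRing R] [Algebra k R] {M g : ℕ} (n' : ℕ)
    (G : Fin g → MvPolynomial (Fin M) k) (P : MvPolynomial (Fin 2) R)
    (φ : Fin M → MvPolynomial (Fin 2) R) : Prop :=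
  ∃ (Q : MvPolynomial (Fin 2) R) (Γ : (Fin (n' + 2) → Fin M) → MvPolynomial (Fin 2) R),
    ¬ P ∣ Q ∧ (∃ J, ¬ P ∣ Γ J) ∧
    (∀ J (i j : Fin (n' + 2)), i ≠ j → P ∣ Γ (J ∘ Equiv.swap i j) + Γ J) ∧
    (∀ i J, P ∣ ∑ l, aeval φ (pderiv l (G i)) * Γ (Function.update J 0 l)) ∧
    (∀ J, Rel P (fun l : Fin M => Q * φ l ^ (n' + 2)) (Γ J * X 1))

/-- the local height of `x` at the point at infinity and the points of `A`, for the place `p` -/
noncomputable def lam {L : Type} [Field L] [NumberField L] (p : Pl L) (A : Finset L) (x : L) : ℝ :=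
  Real.log (max 1 (av p x)) + ∑ α ∈ A, Real.log (max 1 (av p (x - α))⁻¹)

/-- the proximity function of `x` for the finite set `T` of places -/
noncomputable def prox {L : Type} [Field L] [NumberField L] (T : Finset (Pl L)) (A : Finset L)
    (x : L) : ℝ := ∑ p ∈ T, wt p * lam p A x

/-- `u ^ 2 = f(t)`, `u ≠ 0` and `x` is the first coordinate of the double of the point `(t, u)` on the
curve `y ^ 2 = f(x) = (x - e 0) (x - e 1) (x - e 2)` -/
def Dup {E : Type} [Field E] (e : Fin 3 → E) (t u x : E) : Prop :=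
  u ≠ 0 ∧ u ^ 2 = (t - e 0) * (t - e 1) * (t - e 2) ∧
    4 * u ^ 2 * (x - e 0) = ((t - e 0) ^ 2 - (e 0 - e 1) * (e 0 - e 2)) ^ 2

/-! ## Arithmetic: Siegel's inequality -/

/-- **ROTH1**. Roth's theorem for several places and points, including the point at infinity. From
`Pool.Agent.N830.VR.Roth`/`roth : S_ROTH` (library N830/VR/P_ROTH.lean, for one point `y (β v)` chosen
at every place) or from Schmidt's theorem `Pool.Agent.R405.schV` (library R_seed8/R405/SchV.lean).
Proof: choose `c ∈ L` outside of `A` and use the coordinate `s = 1 / (x - c)`, so that the points are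
`0` (for `x = ∞`) and `1 / (α - c)`; at each place at most one of the terms is large
(`∑ ≤ max + C`, since the points are distinct), so the sum is at most the term of one point
`y (β v)` plus a constant; there are finitely many functions `β : T → points`. The field `K` of
`S_ROTH` can be any Galois extension of `ℚ` which contains `L` and `i`, `f v` any extension of the
absolute value `av v`. The finitely many excluded `x` are absorbed in the constant. -/
def S_ROTH1 : Prop := ∀ (L : Type) [Field L] [NumberField L] (T : Finset (Pl L)) (A : Finset L)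
  (ε : ℝ), 0 < ε → ∃ C : ℝ, ∀ x : L, prox T A x ≤ (2 + ε) * logHeight₁ x + C

/-- **PEXT**. Proximity functions in an extension. `T'` = the places of `E` above the places of `T`; see
`prx_ext`, `sum_ext`, `ab`, `efn` in Pool/Agent/H432/RC/Ext.lean. -/
def S_PEXT : Prop := ∀ (L E : Type) [Field L] [NumberField L] [Field E] [NumberField E]
  [Algebra L E] (T : Finset (Pl L)), ∃ T' : Finset (Pl E), ∀ (A : Finset L) (A' : Finset E),
  (∀ α ∈ A, algebraMap L E α ∈ A') → ∀ x : L,
    finrank L E * prox T A x ≤ prox T' A' (algebraMap L E x)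

/-- **SEL**. `x - e i` is a square in a fixed extension. Proof: outside of the finitely many primes `v`
with `v(e i) > 1` or `v(e i - e j) ≠ 1` the order of `x - e i` is even: if `v(x) > 1` all `x - e i` have
the same order and three times this order is twice the order of `y`; otherwise at most one of the
`x - e i` has positive order. By the finiteness theorem `H645.ABC.selmer` (library
R_seed8/H645R3/ABC3.lean, `m = 2`, no bad primes; combine it with the parities of the orders at the bad
primes: divide by a representative with the same parities) there are finitely many `c_1, …, c_r` in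
`Lˣ` such that every `x - e i` is `c_j` times a square. `E = L(√c_1, …, √c_r)`. -/
def S_SEL : Prop := ∀ (L : Type) [Field L] [NumberField L] (e : Fin 3 → L), Function.Injective e →
  ∃ (E : Type) (_ : Field E) (_ : NumberField E) (_ : Algebra L E), ∀ x y : L, y ≠ 0 →
    y ^ 2 = (x - e 0) * (x - e 1) * (x - e 2) → ∀ i, IsSquare (algebraMap L E (x - e i))

/-- **HALF**. Division by two. Proof: `x - e i = r_i ^ 2` in the field of SEL,
`t = x + r_0 r_1 + r_0 r_2 + r_1 r_2`, so that `t - e 0 = (r_0 + r_1) (r_0 + r_2)` and so on,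
`u = (r_0 + r_1) (r_0 + r_2) (r_1 + r_2)`, which is not `0` since the `r_i ^ 2` are distinct. -/
def S_HALF : Prop := ∀ (L : Type) [Field L] [NumberField L] (e : Fin 3 → L), Function.Injective e →
  ∃ (E : Type) (_ : Field E) (_ : NumberField E) (_ : Algebra L E), ∀ x y : L, y ≠ 0 →
    y ^ 2 = (x - e 0) * (x - e 1) * (x - e 2) →
    ∃ t u : E, Dup (fun i => algebraMap L E (e i)) t u (algebraMap L E x)

/-- **DUPL**. The local inequality for the duplication. Proof: for `α ∈ A` let `α - e i = s_i ^ 2`; then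
`4 u ^ 2 (x - α) = ∏_{j < 4} (t - t_j)` with `t_j = α ± s_0 s_1 ± s_0 s_2 ± s_1 s_2` (the signs with
product `+`, i.e. the values of `α + s_0 s_1 + s_0 s_2 + s_1 s_2` for the sign changes of the `s_i`;
polynomial identity, use `s_i ^ 2 - s_j ^ 2 = e j - e i`). Every value occurs at most twice among the
`t_j`: `t_0 - t_1 = 2 s_2 (s_0 + s_1)` and so on, at most one `s_i` is `0` and `s_i ± s_j ≠ 0`. `B` = all
these `t_j` (for all `α ∈ A`) and the `e i`; the sets for distinct `α` are disjoint (`x` is determined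
by `t`), and `t_j ≠ e i` (`t_j - e 0 = (s_0 + s_1) (s_0 + s_2)` up to signs). Local estimates for one
absolute value: `|t - t_j| ≥ c min(1, |t - t_j|) max(1, |t|)`, `|u| ^ 2 ≤ C max(1, |t|) ^ 3`, so
`log⁺ (1 / |x - α|) ≤ ∑_j log⁺ (1 / |t - t_j|) + C`; in the same way `|x| ≤ C max(1, |t|) ^ 4 / |u| ^ 2`,
`|u| ^ 2 = ∏ |t - e i|`, so `log⁺ |x| ≤ log⁺ |t| + ∑_i log⁺ (1 / |t - e i|) + C`. -/
def S_DUPL : Prop := ∀ (E : Type) [Field E] [NumberField E] (e : Fin 3 → E),
  Function.Injective e → ∀ A : Finset E, (∀ α ∈ A, ∀ i, IsSquare (α - e i)) →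
  ∃ B : Finset E, ∀ p : Pl E, ∃ C : ℝ, ∀ t u x : E, Dup e t u x → lam p A x ≤ 2 * lam p B t + C

/-- **DUPH**. The height of the double of a point. Proof: `x = p(t) / q(t)` with coprime polynomials of
degree `4` and `3`, `p = (…)^2 + 4 e_0 f`, `q = 4 f`; by Bezout (resultant) `t ^ 7` and `1` are
combinations of `p` and `q` with coefficients of degree `≤ 3`, so at every place
`max(1, |t|) ^ 4 ≤ C_v max(|p(t)|, |q(t)|)` with `C_v = 1` for almost all `v`; sum over all places
(tools: `ht_bd`, `Bd`, `bdc` in Pool/Agent/H432/TC/Bd.lean, or Mathlib's heights). -/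
def S_DUPH : Prop := ∀ (E : Type) [Field E] [NumberField E] (e : Fin 3 → E),
  Function.Injective e → ∃ C : ℝ, ∀ t u x : E, Dup e t u x → 4 * logHeight₁ t ≤ logHeight₁ x + C

/-- **SIEG**. Siegel's inequality. Proof. Claim: for every `n` and all `L`, `e`, `T`, `A` there is `C` with
`prox T A x ≤ (3 / 2 ^ n) logHeight₁ x + C` for all `x`, `y` in `L` with `y ^ 2 = f(x)`. `n = 0`: ROTH1
with `ε = 1`. Induction step: let `E ⊇ L` be the field of HALF, `E' ⊇ E` a number field in which all
`α - e i` (`α ∈ A`) are squares, `B` as in DUPL, `T'` as in PEXT (for `E' / L`). For a point with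
`y ≠ 0` (the other points have `x ∈ {e i}` and are absorbed in `C`) there are `t`, `u` with
`Dup e t u x`. Then `[E' : L] prox T A x ≤ prox T' A x ≤ 2 prox T' B t + C ≤
2 (3 / 2 ^ n) h(t) + C' ≤ (3 / 2 ^ (n + 1)) h(x) + C''` with heights over `E'`
(`logHeight₁_ext : logHeight₁ (algebraMap L K x) = finrank L K * logHeight₁ x`, in
Pool/Agent/H432/TC/LineE.lean). -/
def S_SIEG : Prop := ∀ (L : Type) [Field L] [NumberField L] (e : Fin 3 → L), Function.Injective e →
  ∀ (T : Finset (Pl L)) (A : Finset L) (ε : ℝ), 0 < ε → ∃ C : ℝ, ∀ x y : L,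
    y ^ 2 = (x - e 0) * (x - e 1) * (x - e 2) → prox T A x ≤ ε * logHeight₁ x + C

/-- **SIEGW**. The same for the curve `y ^ 2 = x ^ 3 + a x + b`: pass to a splitting field of the cubic
polynomial (its roots are distinct) with PEXT. -/
def S_SIEGW : Prop := ∀ (L : Type) [Field L] [NumberField L] (a b : L),
  4 * a ^ 3 + 27 * b ^ 2 ≠ 0 → ∀ (T : Finset (Pl L)) (A : Finset L) (ε : ℝ), 0 < ε →
  ∃ C : ℝ, ∀ x y : L, y ^ 2 = x ^ 3 + a * x + b → prox T A x ≤ ε * logHeight₁ x + C

/-! ## Arithmetic: functions on the curve -/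

/-- **LOCW**. The local bound for the zeros of a function. Proof. Modulo `P = wei a b` we have
`H ≡ u(X_0) + v(X_0) X_1` with polynomials `u`, `v` in one variable; the norm
`n = u ^ 2 - (X ^ 3 + a X + b) v ^ 2` is not `0` (`X ^ 3 + a X + b` has odd degree, and `u`, `v` are not
both `0` since `P ∤ H`). `E'` = a splitting field of `n`, `A` = its roots. For a point `z = (x, y)` of the
curve `n(x) = H(z) (u(x) - v(x) y)`, `|y| ^ 2 ≤ C max(1, |x|) ^ 3`, so
`-log |H(z)| ≤ -log |n(x)| + C_1 log⁺ |x| + C`, and `n(x) = c ∏ (x - α)^(m_α)`. The finitely many points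
with `n(x) = 0`, `H(z) ≠ 0` are absorbed in `C`. -/
def S_LOCW : Prop := ∀ (E : Type) [Field E] [NumberField E] (a b : E) (H : MvPolynomial (Fin 2) E),
  ¬ wei a b ∣ H → ∃ (E' : Type) (_ : Field E') (_ : NumberField E') (_ : Algebra E E')
    (A : Finset E') (C1 : ℝ), 0 ≤ C1 ∧ ∀ p : Pl E', ∃ C : ℝ, ∀ z : Fin 2 → E,
      eval z (wei a b) = 0 → eval z H ≠ 0 →
      - Real.log (av p (algebraMap E E' (eval z H))) ≤ C1 * lam p A (algebraMap E E' (z 0)) + C

/-- **PROXE**. The proximity function of `D` on the curve. Proof. Write `P = wei a b`,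
`H_i = aeval φ (F i j_i)` with `P ∤ H_i`. `log |φ_l(z)| ≤ C_1 log⁺ |x| + C` at every place (`|y| ^ 2 ≤ C
max(1, |x|) ^ 3`), so `δ i log |φ(z)| - log max_j |F i j (φ(z))| ≤ δ i C_1 log⁺ |x| - log |H_i(z)| + C`
if `H_i(z) ≠ 0`. Pass to a common extension `E'` for all `i` by LOCW (one after the other, or apply LOCW
to the product `∏ H_i`, which is not divisible by the irreducible `P` (hypothesis `irrw`), and bound the
other factors from above), use PEXT (or `prx_ext`) and SIEGW over `E'` for the set `A`. The finitely many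
points with `H_i(z) = 0` (`Pool.Agent.H432.AC.finz` in AC/P_FINZ.lean) are absorbed in `C`. -/
def S_PROXE : Prop := ∀ (k L : Type) [Field k] [NumberField k] [Field L] [NumberField L]
  [Algebra k L] (M q w : ℕ) (F : Fin q → Fin w → MvPolynomial (Fin M) k) (δ : Fin q → ℕ)
  (_ : ∀ i j, (F i j).IsHomogeneous (δ i)) (a b : L) (_ : 4 * a ^ 3 + 27 * b ^ 2 ≠ 0)
  (φ : Fin M → MvPolynomial (Fin 2) L) (_ : ∀ i, ∃ j, ¬ wei a b ∣ aeval φ (F i j))
  (T : Finset (Pl L)) (ε : ℝ) (_ : 0 < ε),
  ∃ C : ℝ, ∀ z : Fin 2 → L, eval z (wei a b) = 0 → (fun l => eval z (φ l)) ≠ 0 →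
    (∀ i, ∃ j, aeval (fun l => eval z (φ l)) (F i j) ≠ 0) →
    Pool.Agent.H432.RC.prx T F δ (fun l => eval z (φ l)) ≤ ε * logHeight₁ (z 0) + C

/-! ## Geometry -/

/-- **IRRW**. `wei a b` is irreducible (over every field; `X ^ 3 + a X + b` is not a square). -/
def S_IRRW : Prop := ∀ (K : Type) [Field K] (a b : K), Irreducible (wei a b)

/-- **ELLORD**. The derivation `y d/dx` is regular at all places of the function field. Proof: `ι` a place,
`ord` its order function. Every element of `F` is `A + B y` with `A, B ∈ K(x)` (`K(x) + K(x) y` is a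
field). The orders of the elements of `K(x)` are divisible by `n` (they are products of a power of
`x - β` and of an element of order `0`, or for `n < 0` the order of a polynomial is `n` times its degree).
(1) `n < 0`: `2 ord(y) = 3 n`, so `n = - 2 m`, `ord(y) = - 3 m`; `ord(A)` and `ord(B y)` are distinct
modulo `2 m`, so `ord(A + B y) ∈ {ord(A), ord(B y)}` is divisible by `m`, and some element has order
`1`: `m = 1`, `n - 1 = -3 = ord(y)`. (2) `n > 0`, `β` a root of `f`: `n = 2 ord(y)` (`f` has simple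
roots), in the same way `m = ord(y) = 1`. (3) `n > 0`, `f(β) ≠ 0`: all orders are divisible by `n`:
for `A + B y` with (after division by a power of `x - β`) `A`, `B` integral and not both of positive
order: if the order of `A + B y` is positive then the order of `A - B y` is `0` (the residues are
`A_0 + B_0 y_0 = 0`, `A_0 - B_0 y_0 = 2 A_0 ≠ 0`), so `ord(A + B y) = ord(A ^ 2 - B ^ 2 f(x))`. Hence
`n = 1` and `ord(y) = 0`. -/
def S_ELLORD : Prop := ∀ (K F : Type) [Field K] [Field F] [Algebra K F] [IsAlgClosed K] [CharZero K]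
  (a b : K) (x y : F), 4 * a ^ 3 + 27 * b ^ 2 ≠ 0 →
  y ^ 2 = x ^ 3 + algebraMap K F a * x + algebraMap K F b → Transcendental K x →
  (∀ f : F, ∃ u v : MvPolynomial (Fin 2) K, aeval ![x, y] v ≠ 0 ∧
    f = aeval ![x, y] u / aeval ![x, y] v) →
  ∀ ι : F →ₐ[K] LaurentSeries K, (∃ π, (ι π).orderTop = 1) → ∀ (β : K) (n : ℤ), n ≠ 0 →
    (ι (x - algebraMap K F β)).orderTop = (n : WithTop ℤ) →
    ((n - 1 : ℤ) : WithTop ℤ) ≤ (ι y).orderTop

/-- **CERTK**. The certificate over an algebraically closed field for a generic map. Adapt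
`Pool.Agent.H432.AC.geoF` (AC/Geo1.lean) and `certK` (AC/Geo2.lean), which prove the same for the
certificate `AC.Cert`: no divisors (`q = 0`, `w = 0`), `t = x = X 0`, the same minors `Gam φ Dt D`. At a
place `place` (AC/Loc1.lean) gives `(n' + 2) a - (n - 1) ≤ vo ι (Gam φ Dt D J)` where `n` is the order
of `x - β`, and `n - 1 ≤ vo ι y` by ELLORD, so `(n' + 2) a ≤ vo ι (Gam J * y)`: by `dom_of_places`
`Γ J * y` is integral over the `φ l ^ (n' + 2)`. The hypotheses of AC (`val`, `emb1`, …) are the theorems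
of the files AC/P_*.lean (see AC/Main.lean). -/
def S_CERTK : Prop := ∀ (k K : Type) [Field k] [Field K] [CharZero k] [CharZero K] [IsAlgClosed K]
  [Algebra k K] (M g n' : ℕ) (G : Fin g → MvPolynomial (Fin M) k) (e : Fin g → ℕ)
  (_ : ∀ i, (G i).IsHomogeneous (e i)) (_ : Sm (n' + 1) G) (a b : K)
  (_ : 4 * a ^ 3 + 27 * b ^ 2 ≠ 0) (φ : Fin M → MvPolynomial (Fin 2) K)
  (_ : ∀ i, wei a b ∣ aeval φ (G i))
  (_ : ∀ (Q : MvPolynomial (Fin M) k) (m : ℕ), Q.IsHomogeneous m →
    Q ∉ Ideal.span (Set.range G) → ¬ wei a b ∣ aeval φ Q) (l0 l1 : Fin M)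
  (_ : ¬ wei a b ∣ φ l1) (_ : ∀ c : K, ¬ wei a b ∣ φ l0 - C c * φ l1), CertE n' G (wei a b) φ

/-- **GEOE**. The exceptional set. Adapt `cert_los` (AC/Geo3.lean), `los_main` (AC/Geo4.lean, with
`certK` replaced by CERTK) and `geoU` (AC/Geo5.lean): a counterexample `(a_s, b_s, φ_s)` for every form
gives a generic map over the ultrapower `Gm 𝓕 K` for the curve with `a = mk 𝓕 a_s`, `b = mk 𝓕 b_s`
(`map (mk 𝓕) (wei a_s b_s) = wei a b`, discriminant `≠ 0`), and the certificate `CertE` descends to
almost all `s`. -/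
def S_GEOE : Prop := ∀ (k K : Type) [Field k] [Field K] [CharZero k] [CharZero K] [IsAlgClosed K]
  [Algebra k K] (M g n' : ℕ) (G : Fin g → MvPolynomial (Fin M) k) (e : Fin g → ℕ)
  (_ : ∀ i, (G i).IsHomogeneous (e i)) (_ : (Ideal.span (Set.range G)).IsPrime)
  (_ : Sm (n' + 1) G) (N : ℕ),
  ∃ (mΦ : ℕ) (Φ : MvPolynomial (Fin M) k), Φ.IsHomogeneous mΦ ∧
    Φ ∉ Ideal.span (Set.range G) ∧ ∀ (a b : K) (φ : Fin M → MvPolynomial (Fin 2) K),
    4 * a ^ 3 + 27 * b ^ 2 ≠ 0 → (∀ l, (φ l).totalDegree ≤ N) →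
    (∃ l0 l1, ¬ wei a b ∣ φ l1 ∧ ∀ c : K, ¬ wei a b ∣ φ l0 - C c * φ l1) →
    (∀ i, wei a b ∣ aeval φ (G i)) → ¬ wei a b ∣ aeval φ Φ → CertE n' G (wei a b) φ

/-- **DESCE**. The certificate is defined over a finite extension. Adapt AC/P_DESC.lean (the same for
`AC.Cert`). -/
def S_DESCE : Prop := ∀ (k L Ω : Type) [Field k] [Field L] [NumberField L] [Algebra k L] [Field Ω]
  [Algebra L Ω] [Algebra.IsAlgebraic L Ω] [Algebra k Ω] [IsScalarTower k L Ω]
  (M g n' : ℕ) (G : Fin g → MvPolynomial (Fin M) k) (P : MvPolynomial (Fin 2) L)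
  (φ : Fin M → MvPolynomial (Fin 2) L),
  CertE n' G (MvPolynomial.map (algebraMap L Ω) P)
    (fun l => MvPolynomial.map (algebraMap L Ω) (φ l)) →
  ∃ (E : Type) (_ : Field E) (_ : NumberField E) (_ : Algebra L E) (_ : Algebra E Ω)
    (_ : IsScalarTower L E Ω) (_ : Algebra k E) (_ : IsScalarTower k L E),
    CertE n' G (MvPolynomial.map (algebraMap L E) P)
      (fun l => MvPolynomial.map (algebraMap L E) (φ l))

/-- **ARIK**. The canonical height is bounded. Adapt `keyA`, `ari1` (AC/Ari1.lean). Proof: at every place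
`|Γ_J(z) y| ≤ C_p |Q(z)| |φ(z)| ^ (n' + 2)` by `locb` (AC/P_LOCB.lean) applied to the relation; the vector
`Γ(z)` is proportional to `mv A` (as in `ari1`); by the product formula for `y ≠ 0` and `Q(z) ≠ 0`
`logHeight (mv A) = logHeight (Γ(z)) ≤ (n' + 2) logHeight (φ(z)) + ∑ log C_p`. The finitely many points
with `y = 0`, `Q(z) = 0` or `Γ(z) = 0` (`finz` in AC/P_FINZ.lean; `wei a b` does not divide them,
`irrw`) are covered by `lhs_crude` (AC/Main.lean, with `q = 0`). -/
def S_ARIK : Prop := ∀ (k E : Type) [Field k] [NumberField k] [Field E] [NumberField E]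
  [Algebra k E] (M g n' : ℕ) (G : Fin g → MvPolynomial (Fin M) k) (e : Fin g → ℕ)
  (_ : ∀ i, (G i).IsHomogeneous (e i)) (_ : Sm (n' + 1) G) (a b : E)
  (φ : Fin M → MvPolynomial (Fin 2) E) (_ : ∀ i, wei a b ∣ aeval φ (G i))
  (_ : CertE n' G (wei a b) φ),
  ∃ C : ℝ, ∀ z : Fin 2 → E, eval z (wei a b) = 0 → (fun l => eval z (φ l)) ≠ 0 →
    ∀ A, IsTB (p := n' + 2) G (fun l => eval z (φ l)) A →
    logHeight (mv A) - (n' + 2) * logHeight (fun l => eval z (φ l)) ≤ C

end Pool.Agent.H432.G1
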