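import Mathlib
import Pool.Agent.H432.G1.Stm
import Pool.Agent.H432.AC.Geo2
import Pool.Agent.H432.AC.P_VAL
import Pool.Agent.H432.AC.P_EMB1
import Pool.Agent.H432.AC.P_EMB2
import Pool.Agent.H432.AC.P_DERX
import Pool.Agent.H432.AC.P_DERU
import Pool.Agent.H432.AC.P_SPAN
import Pool.Agent.H432.AC.P_DL
import Pool.Agent.H432.AC.P_LOC
import Pool.Agent.H432.AC.P_TRD

/-!
The certificate over an algebraically closed field for a generic map from a curve of genus one
(helper215).
-/

set_option autoImplicit false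
set_option linter.unusedVariables false
set_option linter.unusedSectionVars false

namespace Pool.Agent.H432.G1

open MvPolynomial Filter Pool.Agent.N750 Pool.Agent.H432.RC
open Pool.Agent.H432.AC

namespace PCERTK

section

variable {k K E : Type} [Field k] [Field K] [Field E] [CharZero k] [CharZero K] [IsAlgClosed K]
  [Algebra k K] [Algebra K E] [Algebra k E] [IsScalarTower k K E]

/-- **the certificate over the function field** -/
theorem geoF {M g n' : ℕ} (G : Fin g → MvPolynomial (Fin M) k) (e : Fin g → ℕ)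
    (hG : ∀ i, (G i).IsHomogeneous (e i)) (hsm : Sm (n' + 1) G) (t y : E)
    (ht : Transcendental K t) (hfin : FiniteDimensional (IntermediateField.adjoin K {t}) E)
    (hy : ∀ ι : E →ₐ[K] LaurentSeries K, (∃ π, (ι π).orderTop = 1) → ∀ (β : K) (n : ℤ), n ≠ 0 →
      (ι (t - algebraMap K E β)).orderTop = (n : WithTop ℤ) →
      ((n - 1 : ℤ) : WithTop ℤ) ≤ (ι y).orderTop)
    (φ : Fin M → E) (hX : ∀ i, aeval φ (G i) = 0)
    (hgen : ∀ (P : MvPolynomial (Fin M) k) (m : ℕ), P.IsHomogeneous m →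
      P ∉ Ideal.span (Set.range G) → aeval φ P ≠ 0) (l0 l1 : Fin M)
    (hl1 : φ l1 ≠ 0) (hnon : ∀ c : K, φ l0 ≠ algebraMap K E c * φ l1) :
    ∃ Γ : (Fin (n' + 2) → Fin M) → E, (∃ J, Γ J ≠ 0) ∧
      (∀ J (i j : Fin (n' + 2)), i ≠ j → Γ (J ∘ Equiv.swap i j) + Γ J = 0) ∧
      (∀ i J, ∑ l, aeval φ (pderiv l (G i)) * Γ (Function.update J 0 l) = 0) ∧
      (∀ J, Dom K (fun l : Fin M => φ l ^ (n' + 2)) (Γ J * y)) := by
  classical
  have ht' : ∀ c, t ≠ algebraMap K E c := by
    intro c hc
    apply ht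
    rw [hc]
    exact isAlgebraic_algebraMap c
  obtain ⟨hder, Dt, hDt⟩ := derx k K E t ht hfin
  have hlin := lin_ind emb1 emb2 deru dl t ht hfin Dt hDt φ l0 l1 hl1 hnon
  obtain ⟨d, D, hD, hD0, hlin2⟩ := span derx k K E t ht hfin M g n' G e hG hsm φ hX hgen Dt hDt hlin
  obtain ⟨dS, hdS⟩ := (dl K K).1
  choose DL hDL using fun i => (dl k K).2 (d i)
  -- no divisors
  let F : Fin 0 → Fin 0 → MvPolynomial (Fin M) k := fun i => i.elim0
  let δ : Fin 0 → ℕ := fun i => i.elim0
  have hF : ∀ i j, (F i j).IsHomogeneous (δ i) := fun i => i.elim0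
  have hnc : NCD G F := by
    intro Ω _ _ z hz hGz
    exact ⟨fun i => i.elim0, fun c _ _ => Subsingleton.elim _ _⟩
  refine ⟨Gam φ Dt D, ?_, ?_, ?_, ?_⟩
  · -- a nonzero minor
    obtain ⟨J, hJ⟩ := exists_minor (fun l => (Fin.cons (φ l) (Fin.cons (Dt (φ l))
      (fun i => D i (φ l))) : Fin (n' + 2) → E)) (by
        have h9 : (fun c : Fin (n' + 2) => fun l => (Fin.cons (φ l) (Fin.cons (Dt (φ l))
            (fun i => D i (φ l))) : Fin (n' + 2) → E) c) =
            Fin.cons φ (Fin.cons (fun l => Dt (φ l)) (fun i l => D i (φ l))) := by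
          funext c l
          refine Fin.cases ?_ (fun c => ?_) c
          · rfl
          · refine Fin.cases ?_ (fun c => ?_) c
            · rfl
            · rfl
        rw [h9]
        exact hlin2)
    exact ⟨J, hJ⟩
  · intro J i j hij
    have h2 := Matrix.det_permute (Equiv.swap i j) (Matrix.of fun x c =>
      (Fin.cons (φ (J x)) (Fin.cons (Dt (φ (J x))) (fun i => D i (φ (J x)))) :
        Fin (n' + 2) → E) c)
    rw [Equiv.Perm.sign_swap hij] at h2
    have h3 : Gam φ Dt D (J ∘ Equiv.swap i j) = ((-1 : ℤˣ) : E) * Gam φ Dt D J := h2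
    rw [h3]
    simp
  · intro i J
    refine det_row_zero (fun l => (Fin.cons (φ l) (Fin.cons (Dt (φ l))
      (fun i => D i (φ l))) : Fin (n' + 2) → E)) (fun l => aeval φ (pderiv l (G i))) ?_ J
    intro c
    refine Fin.cases ?_ (fun c => ?_) c
    · show ∑ l, aeval φ (pderiv l (G i)) * φ l = 0
      rw [euler_ring (hG i), hX, mul_zero]
    · refine Fin.cases ?_ (fun c => ?_) c
      · show ∑ l, aeval φ (pderiv l (G i)) * Dt (φ l) = 0
        have h3 := der_aeval (Dt.restrictScalars k) φ (G i)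
        rw [hX, map_zero] at h3
        exact h3.symm
      · show ∑ l, aeval φ (pderiv l (G i)) * D c (φ l) = 0
        have h3 := der_aeval (D c) φ (G i)
        rw [hX, map_zero] at h3
        exact h3.symm
  · intro J
    refine dom_of_places val emb1 emb2 t ht hfin _ _ ⟨l1, pow_ne_zero _ hl1⟩ ?_
    intro ι hπ
    obtain ⟨a, l', m, jj, n, β, h1, h2, h3, h4, h5, h6, h7, h8, h9⟩ :=
      place loc deru G e hG hsm F δ hF hnc t ht' hfin φ hX ⟨l1, hl1⟩ (fun i => i.elim0)
        dS hdS Dt hDt d D hD hD0 DL hDL ι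
    refine ⟨l', pow_ne_zero _ h1, ?_⟩
    by_cases hf : Gam φ Dt D J * y = 0
    · rw [hf, map_zero, HahnSeries.orderTop_zero]
      exact le_top
    · have hf1 := left_ne_zero_of_mul hf
      have hf2 := right_ne_zero_of_mul hf
      refine vo_le ι (pow_ne_zero _ h1) hf ?_
      rw [vo_pow, h2, vo_mul ι hf1 hf2]
      have e1 := h9 J hf1
      have e2 := hy ι hπ β n h6 h7
      rw [vo_top ι hf2] at e2
      have e3 : n - 1 ≤ vo ι y := by exact_mod_cast e2
      have e4 : ((∑ i, m i - 1 : ℕ) : ℤ) = 0 := by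
        rw [Finset.univ_eq_empty, Finset.sum_empty]
        rfl
      rw [e4] at e1
      push_cast at e1 ⊢
      linarith

end

/-- the degree in the second variable -/
theorem deg_wei {K : Type} [Field K] (a b : K) : 0 < degreeOf 1 (wei a b) := by
  have h1 : Finsupp.single (1 : Fin 2) 2 ∈ (wei a b).support := by
    rw [MvPolynomial.mem_support_iff]
    have h2 : coeff (Finsupp.single (1 : Fin 2) 2) (wei a b) = 1 := by
      have e1 : (Finsupp.single (0 : Fin 2) 3 : Fin 2 →₀ ℕ) ≠ Finsupp.single 1 2 := by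
        intro h
        have := DFunLike.congr_fun h 0
        simp at this
      have e2 : (Finsupp.single (0 : Fin 2) 1 : Fin 2 →₀ ℕ) ≠ Finsupp.single 1 2 := by
        intro h
        have := DFunLike.congr_fun h 0
        simp at this
      have e3 : (0 : Fin 2 →₀ ℕ) ≠ Finsupp.single 1 2 := by
        intro h
        have := DFunLike.congr_fun h 1
        simp at this
      rw [wei, coeff_sub, coeff_add, coeff_add, coeff_C_mul, coeff_X_pow, coeff_X_pow, coeff_X,
        coeff_C, if_pos rfl, if_neg e1, if_neg e2, if_neg e3]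
      ring
    rw [h2]
    exact one_ne_zero
  have h2 := MvPolynomial.monomial_le_degreeOf 1 h1
  rw [Finsupp.single_eq_same] at h2
  omega

end PCERTK

open PCERTK in
theorem certk (irrw : S_IRRW) (ellord : S_ELLORD) : S_CERTK := by
  classical
  intro k K _ _ _ _ _ _ M g n' G e hG hsm a b hab φ hX hgen l0 l1 hl1 hnon
  have hP : Irreducible (wei a b) := irrw K a b
  obtain ⟨E, _, _, π, hπ, hfrac⟩ := exists_ff hP
  obtain ⟨ht, hfin⟩ := trd K E (wei a b) hP 0 (by
    rw [zero_add]
    exact deg_wei a b) π hπ hfrac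
  let _ : Algebra k E := ((algebraMap K E).comp (algebraMap k K)).toAlgebra
  have htow : IsScalarTower k K E := IsScalarTower.of_algebraMap_eq fun x => rfl
  have hπa : ∀ Q : MvPolynomial (Fin M) k, aeval (fun l => π (φ l)) Q = π (aeval φ Q) := by
    intro Q
    exact (MvPolynomial.comp_aeval_apply φ (π.restrictScalars k) Q).symm
  have hπC : ∀ c : K, π (C c) = algebraMap K E c := fun c => π.commutes c
  have hπu : ∀ u : MvPolynomial (Fin 2) K, aeval ![π (X 0), π (X 1)] u = π u := by
    intro u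
    have h1 : (aeval ![π (X 0), π (X 1)] : MvPolynomial (Fin 2) K →ₐ[K] E) = π := by
      apply MvPolynomial.algHom_ext
      intro i
      rw [aeval_X]
      fin_cases i <;> rfl
    rw [h1]
  have heq : π (X 1) ^ 2 = π (X 0) ^ 3 + algebraMap K E a * π (X 0) + algebraMap K E b := by
    have h1 : π (wei a b) = 0 := (hπ _).2 dvd_rfl
    rw [wei, map_sub, map_add, map_add, map_mul, map_pow, map_pow, hπC, hπC, sub_eq_zero] at h1
    exact h1
  have hy := ellord K E a b (π (X 0)) (π (X 1)) hab heq ht (by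
    intro f
    obtain ⟨u, v, hv, hf⟩ := hfrac f
    refine ⟨u, v, ?_, ?_⟩
    · rw [hπu]
      exact hv
    · rw [hπu, hπu]
      exact hf)
  obtain ⟨Γ, ⟨J0, h4⟩, h5, h6, h7⟩ := geoF G e hG hsm (π (X 0)) (π (X 1)) ht hfin hy
    (fun l => π (φ l)) (fun i => by rw [hπa]; exact (hπ _).2 (hX i))
    (fun Q m hQ hQI => by
      rw [hπa]
      exact fun h => hgen Q m hQ hQI ((hπ _).1 h)) l0 l1
    (fun h => hl1 ((hπ _).1 h)) (fun c h => hnon c ((hπ _).1 (by
      rw [map_sub, map_mul, hπC, h, sub_self])))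
  choose x y hy' hxy using fun J => hfrac (Γ J)
  set Q : MvPolynomial (Fin 2) K := ∏ J, y J with hQ
  set Γ' : (Fin (n' + 2) → Fin M) → MvPolynomial (Fin 2) K := fun J =>
    x J * ∏ J' ∈ Finset.univ.erase J, y J' with hΓ'
  have hπQ : π Q ≠ 0 := by
    rw [hQ, map_prod]
    exact Finset.prod_ne_zero_iff.2 fun J _ => hy' J
  have hπΓ : ∀ J, π (Γ' J) = π Q * Γ J := by
    intro J
    rw [hΓ', hQ]
    simp only
    rw [← Finset.mul_prod_erase Finset.univ y (Finset.mem_univ J), map_mul, map_mul, hxy J]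
    field_simp [hy' J]
  refine ⟨Q, Γ', fun h => hπQ ((hπ _).2 h), ⟨J0, fun h => ?_⟩, ?_, ?_, ?_⟩
  · have h9 := (hπ _).2 h
    rw [hπΓ] at h9
    exact (mul_ne_zero hπQ h4) h9
  · intro J i j hij
    rw [← hπ, map_add, hπΓ, hπΓ, ← mul_add, h5 J i j hij, mul_zero]
  · intro i J
    rw [← hπ, map_sum]
    have h9 := h6 i J
    have h10 : ∀ l, π (aeval φ (pderiv l (G i)) * Γ' (Function.update J 0 l)) =
        π Q * (aeval (fun l => π (φ l)) (pderiv l (G i)) * Γ (Function.update J 0 l)) := by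
      intro l
      rw [map_mul, hπΓ, hπa]
      ring
    rw [Finset.sum_congr rfl fun l _ => h10 l, ← Finset.mul_sum, h9, mul_zero]
  · intro J
    refine Rel.of_dom hπ ?_
    have h9 := (h7 J).smul (π Q)
    have e1 : (fun l : Fin M => π (Q * φ l ^ (n' + 2))) = fun l =>
        π Q * π (φ l) ^ (n' + 2) := by
      funext l
      simp only [map_mul, map_pow]
    have e2 : π (Γ' J * X 1) = π Q * (Γ J * π (X 1)) := by
      rw [map_mul, hπΓ]
      ring
    rw [e1, e2]
    exact h9

end Pool.Agent.H432.G1
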