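import Mathlib
import Pool.Agent.H432.G1.Stm
import Pool.Agent.H432.AC.P_DESC

set_option autoImplicit false

namespace Pool.Agent.H432.G1

open MvPolynomial
open Pool.Agent.H432.AC (Rel)
open Pool.Agent.H432.AC.PDESC

namespace PDESCE

lemma cert_desc {k L E Ω : Type} [Field k] [Field L] [Field E] [Field Ω] [Algebra k L]
    [Algebra L E] [Algebra E Ω] [Algebra L Ω] [IsScalarTower L E Ω] [Algebra k E]
    [IsScalarTower k L E] [Algebra k Ω] [IsScalarTower k E Ω]
    {M g n' : ℕ} {G : Fin g → MvPolynomial (Fin M) k} {P : MvPolynomial (Fin 2) L}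
    {φ : Fin M → MvPolynomial (Fin 2) L} {Q : MvPolynomial (Fin 2) Ω}
    {Γ : (Fin (n' + 2) → Fin M) → MvPolynomial (Fin 2) Ω}
    (h5 : ¬ MvPolynomial.map (algebraMap L Ω) P ∣ Q)
    (h6 : ∃ J, ¬ MvPolynomial.map (algebraMap L Ω) P ∣ Γ J)
    (h7 : ∀ J (i j : Fin (n' + 2)), i ≠ j →
      MvPolynomial.map (algebraMap L Ω) P ∣ Γ (J ∘ Equiv.swap i j) + Γ J)
    (h8 : ∀ i J, MvPolynomial.map (algebraMap L Ω) P ∣
      ∑ l, aeval (fun l => MvPolynomial.map (algebraMap L Ω) (φ l)) (pderiv l (G i)) *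
        Γ (Function.update J 0 l))
    (h9 : ∀ J, Rel (MvPolynomial.map (algebraMap L Ω) P)
      (fun l : Fin M => Q * (fun l => MvPolynomial.map (algebraMap L Ω) (φ l)) l ^ (n' + 2))
      (Γ J * X 1))
    {Q' : MvPolynomial (Fin 2) E} (hQ' : MvPolynomial.map (algebraMap E Ω) Q' = Q)
    {Γ' : (Fin (n' + 2) → Fin M) → MvPolynomial (Fin 2) E}
    (hΓ' : ∀ J, MvPolynomial.map (algebraMap E Ω) (Γ' J) = Γ J) :
    CertE n' G (MvPolynomial.map (algebraMap L E) P)
      (fun l => MvPolynomial.map (algebraMap L E) (φ l)) := by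
  obtain ⟨r, hr⟩ := exists_rt E Ω
  have eP : MvPolynomial.map (algebraMap L Ω) P =
      MvPolynomial.map (algebraMap E Ω) (MvPolynomial.map (algebraMap L E) P) := by
    rw [MvPolynomial.map_map, ← IsScalarTower.algebraMap_eq]
  have eφ : (fun l => MvPolynomial.map (algebraMap L Ω) (φ l)) = fun l =>
      MvPolynomial.map (algebraMap E Ω) (MvPolynomial.map (algebraMap L E) (φ l)) := by
    funext l
    rw [MvPolynomial.map_map, ← IsScalarTower.algebraMap_eq]
  rw [eP] at h5 h6 h7 h8 h9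
  obtain ⟨J0, h6⟩ := h6
  refine ⟨Q', Γ', ?_, ⟨J0, ?_⟩, ?_, ?_, ?_⟩
  · intro hd
    apply h5
    rw [← hQ']
    exact map_dvd _ hd
  · intro hd
    apply h6
    rw [← hΓ']
    exact map_dvd _ hd
  · intro J i j hij
    have := h7 J i j hij
    rw [← hΓ', ← hΓ', ← map_add] at this
    exact dvd_desc r hr this
  · intro i J
    have h8' := h8 i J
    apply dvd_desc r hr
    have e1 : (∑ l, aeval (fun l => MvPolynomial.map (algebraMap L Ω) (φ l)) (pderiv l (G i)) *
        Γ (Function.update J 0 l)) = MvPolynomial.map (algebraMap E Ω)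
        (∑ l, aeval (fun l => MvPolynomial.map (algebraMap L E) (φ l)) (pderiv l (G i)) *
        Γ' (Function.update J 0 l)) := by
      rw [map_sum, eφ]
      simp only [map_aeval', map_mul, hΓ']
    rw [← e1]
    exact h8'
  · intro J
    have h9' := h9 J
    have e1 : (fun l : Fin M =>
        Q * (fun l => MvPolynomial.map (algebraMap L Ω) (φ l)) l ^ (n' + 2)) = fun l =>
        MvPolynomial.map (algebraMap E Ω)
        (Q' * (fun l => MvPolynomial.map (algebraMap L E) (φ l)) l ^ (n' + 2)) := by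
      funext l
      rw [map_mul, map_pow, hQ', eφ]
    have e2 : Γ J * X 1 = MvPolynomial.map (algebraMap E Ω) (Γ' J * X 1) := by
      rw [map_mul, hΓ', map_X]
    apply rel_desc r hr
    rw [← e1, ← e2]
    exact h9'

end PDESCE

open PDESCE

theorem desce : S_DESCE := by
  classical
  intro k L Ω _ _ _ _ _ _ _ _ _ M g n' G P φ h
  obtain ⟨Q, Γ, h5, h6, h7, h8, h9⟩ := h
  -- the finite set of coefficients
  obtain ⟨S, hS_def⟩ : ∃ S : Set Ω,
    S = (Q.coeffs : Set Ω) ∪ ⋃ J, ((Γ J).coeffs : Set Ω) := ⟨_, rfl⟩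
  have hS : S.Finite := by
    rw [hS_def]
    exact Q.coeffs.finite_toSet.union
      (Set.finite_iUnion fun J => (Γ J).coeffs.finite_toSet)
  have : Finite S := hS
  obtain ⟨E, hE⟩ : ∃ E : IntermediateField L Ω, E = IntermediateField.adjoin L S := ⟨_, rfl⟩
  have hfin : FiniteDimensional L E := by
    rw [hE]
    exact IntermediateField.finiteDimensional_adjoin fun x _ => Algebra.IsIntegral.isIntegral x
  have hc0 : CharZero E := charZero_of_injective_algebraMap (algebraMap L E).injective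
  have hq : FiniteDimensional ℚ E := FiniteDimensional.trans ℚ L E
  have hNF : NumberField E := ⟨⟩
  let iK : Algebra k E := ((algebraMap L E).comp (algebraMap k L)).toAlgebra
  have hT : IsScalarTower k L E := IsScalarTower.of_algebraMap_eq' rfl
  have hTE : IsScalarTower k E Ω := IsScalarTower.of_algebraMap_eq' (by
    rw [IsScalarTower.algebraMap_eq k L Ω, IsScalarTower.algebraMap_eq k L E,
      IsScalarTower.algebraMap_eq L E Ω]
    rfl)
  have hmem : ∀ x ∈ S, x ∈ E := fun x hx => by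
    rw [hE]; exact IntermediateField.subset_adjoin L S hx
  -- descend the data
  have hlift : ∀ p : MvPolynomial (Fin 2) Ω, (∀ x ∈ p.coeffs, x ∈ S) →
      ∃ p' : MvPolynomial (Fin 2) E, MvPolynomial.map (algebraMap E Ω) p' = p := by
    intro p hp
    have := (MvPolynomial.mem_range_map_iff_coeffs_subset (f := algebraMap E Ω) (x := p)).mpr
      (fun x hx => ⟨⟨x, hmem x (hp x hx)⟩, rfl⟩)
    exact this
  obtain ⟨Q', hQ'⟩ := hlift Q fun x hx => by rw [hS_def]; exact Or.inl hx
  have hΓ := fun J => hlift (Γ J) fun x hx => by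
    rw [hS_def]; exact Or.inr (Set.mem_iUnion.mpr ⟨J, hx⟩)
  choose Γ' hΓ' using hΓ
  exact ⟨E, inferInstance, hNF, inferInstance, inferInstance, inferInstance, iK, hT,
    cert_desc h5 h6 h7 h8 h9 hQ' hΓ'⟩

end Pool.Agent.H432.G1
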