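import Mathlib
import Pool.Agent.H432.G1.Stm

/-!
# The height of the double of a point
-/

set_option autoImplicit false

namespace Pool.Agent.H432.G1

open MvPolynomial NumberField Height

namespace PDUPH

variable {E : Type} [Field E]

/-- a binary cubic form -/
noncomputable def cub (c : Fin 4 → E) : MvPolynomial (Fin 2) E :=
  ∑ i : Fin 4, C (c i) * (X 0 ^ (i : ℕ) * X 1 ^ (3 - (i : ℕ)))

lemma cub_hom (c : Fin 4 → E) : (cub c).IsHomogeneous 3 := by
  unfold cub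
  apply IsHomogeneous.sum
  intro i _
  have h : ((X 0 ^ (i : ℕ) * X 1 ^ (3 - (i : ℕ)) : MvPolynomial (Fin 2) E)).IsHomogeneous
      ((i : ℕ) + (3 - (i : ℕ))) := (isHomogeneous_X_pow _ _).mul (isHomogeneous_X_pow _ _)
  have h2 : (i : ℕ) + (3 - (i : ℕ)) = 3 := by
    have := i.2
    omega
  rw [h2] at h
  exact h.C_mul _

lemma cub_eval (c : Fin 4 → E) (x : Fin 2 → E) : eval x (cub c) =
    c 0 * x 1 ^ 3 + c 1 * (x 0 * x 1 ^ 2) + c 2 * (x 0 ^ 2 * x 1) + c 3 * x 0 ^ 3 := by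
  unfold cub
  rw [Fin.sum_univ_four]
  simp

/-- the numerator and the denominator -/
noncomputable def num (σ m : E) : Fin 2 → MvPolynomial (Fin 2) E :=
  ![(X 0 ^ 2 - C m * X 1 ^ 2) ^ 2,
    C 4 * (X 1 * (X 0 ^ 3 - C σ * X 0 ^ 2 * X 1 + C m * X 0 * X 1 ^ 2))]

/-- the cofactors -/
noncomputable def cof (σ m D : E) : Fin 2 × Fin 2 → MvPolynomial (Fin 2) E := fun a =>
  ![![cub ![0, -3 * m ^ 2 / D, 2 * σ * m / D, 1],
      cub ![3 * m ^ 3 / (4 * D), σ * m ^ 2 / (4 * D), -5 * m ^ 2 / (4 * D), -2 * σ * m / (4 * D)]],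
    ![cub ![1 / m ^ 2, 2 * σ / (D * m ^ 2), -3 / (D * m ^ 2), 0],
      cub ![-2 * σ * m / (4 * D * m ^ 2), -5 * m / (4 * D * m ^ 2), σ / (4 * D * m ^ 2),
        3 / (4 * D * m ^ 2)]]] a.1 a.2

lemma cof_hom (σ m D : E) (a : Fin 2 × Fin 2) : (cof σ m D a).IsHomogeneous 3 := by
  obtain ⟨i, j⟩ := a
  fin_cases i <;> fin_cases j <;> exact cub_hom _

lemma cof_id [CharZero E] (σ m D : E) (hm : m ≠ 0) (hD : D ≠ 0) (h : D = σ ^ 2 - 4 * m)
    (x : Fin 2 → E) (k : Fin 2) :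
    ∑ j, eval x (cof σ m D (k, j)) * eval x (num σ m j) = x k ^ (3 + 4) := by
  have h4 : (4 : E) ≠ 0 := by norm_num
  rw [Fin.sum_univ_two]
  fin_cases k
  · show eval x (cub _) * eval x ((X 0 ^ 2 - C m * X 1 ^ 2) ^ 2) + eval x (cub _) *
      eval x (C 4 * (X 1 * (X 0 ^ 3 - C σ * X 0 ^ 2 * X 1 + C m * X 0 * X 1 ^ 2))) = x 0 ^ (3 + 4)
    rw [cub_eval, cub_eval]
    simp only [map_mul, map_sub, map_add, map_pow, eval_X, eval_C, Matrix.cons_val_zero,
      Matrix.cons_val_one, Matrix.cons_val]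
    field_simp
    rw [h]
    ring
  · show eval x (cub _) * eval x ((X 0 ^ 2 - C m * X 1 ^ 2) ^ 2) + eval x (cub _) *
      eval x (C 4 * (X 1 * (X 0 ^ 3 - C σ * X 0 ^ 2 * X 1 + C m * X 0 * X 1 ^ 2))) = x 1 ^ (3 + 4)
    rw [cub_eval, cub_eval]
    simp only [map_mul, map_sub, map_add, map_pow, eval_X, eval_C, Matrix.cons_val_zero,
      Matrix.cons_val_one, Matrix.cons_val]
    field_simp
    rw [h]
    ring

end PDUPH

open PDUPH

theorem duph : S_DUPH := by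
  intro E _ _ e he
  set β : E := e 1 - e 0 with hβ
  set γ : E := e 2 - e 0 with hγ
  have hβ0 : β ≠ 0 := sub_ne_zero.2 fun h => by
    have := he h
    exact absurd this (by decide)
  have hγ0 : γ ≠ 0 := sub_ne_zero.2 fun h => by
    have := he h
    exact absurd this (by decide)
  have hβγ : β - γ ≠ 0 := by
    rw [hβ, hγ, sub_sub_sub_cancel_right]
    exact sub_ne_zero.2 fun h => by
      have := he h
      exact absurd this (by decide)
  obtain ⟨C, hC⟩ := logHeight_eval_ge' (K := E) (N := 4) (q := cof (β + γ) (β * γ) ((β - γ) ^ 2))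
    (cof_hom _ _ _)
  refine ⟨4 * (totalWeight E * Real.log 2 + logHeight₁ (e 0)) +
    (totalWeight E * Real.log 2 + logHeight₁ (e 0)) - C, fun t u x hd => ?_⟩
  obtain ⟨hu, hu2, hx⟩ := hd
  have hid := cof_id (β + γ) (β * γ) ((β - γ) ^ 2) (mul_ne_zero hβ0 hγ0) (pow_ne_zero 2 hβγ)
    (by ring) ![t - e 0, 1]
  have h1 := hC (num (β + γ) (β * γ)) hid
  have h4 : (4 : E) ≠ 0 := by norm_num
  have hden : 4 * u ^ 2 ≠ 0 := mul_ne_zero h4 (pow_ne_zero 2 hu)
  have h2 : (fun j => eval ![t - e 0, 1] (num (β + γ) (β * γ) j)) =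
      ![((t - e 0) ^ 2 - (e 0 - e 1) * (e 0 - e 2)) ^ 2, 4 * u ^ 2] := by
    funext j
    fin_cases j
    · show eval ![t - e 0, 1] ((X 0 ^ 2 - MvPolynomial.C (β * γ) * X 1 ^ 2) ^ 2) = _
      simp only [map_mul, map_sub, map_add, map_pow, eval_X, eval_C, Matrix.cons_val_zero,
        Matrix.cons_val_one, Fin.zero_eta]
      rw [hβ, hγ]
      ring
    · show eval ![t - e 0, 1] (MvPolynomial.C 4 * (X 1 * (X 0 ^ 3 -
        MvPolynomial.C (β + γ) * X 0 ^ 2 * X 1 + MvPolynomial.C (β * γ) * X 0 * X 1 ^ 2))) = _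
      simp only [map_mul, map_sub, map_add, map_pow, eval_X, eval_C, Matrix.cons_val_zero,
        Matrix.cons_val_one, Fin.mk_one]
      rw [hu2, hβ, hγ]
      ring
  have e1 : logHeight ![4 * u ^ 2 * (x - e 0), 4 * u ^ 2] = logHeight₁ (x - e 0) := by
    rw [← logHeight₁_div_eq_logHeight, mul_div_cancel_left₀ _ hden]
  rw [h2, ← hx, e1, ← logHeight₁_eq_logHeight] at h1
  have h5 := logHeight₁_add_le (t - e 0) (e 0)
  rw [sub_add_cancel] at h5
  have h6 := logHeight₁_sub_le x (e 0)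
  push_cast at h1
  linarith

end Pool.Agent.H432.G1
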