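import Mathlib
import Pool.Agent.H432.G1.Stm
import Pool.Agent.H432.AC.Geo4
import Pool.Agent.H432.AC.P_ACL
import Pool.Agent.H432.AC.P_DVD

/-!
The exceptional set for the curves of genus one of bounded degree.
-/

set_option autoImplicit false
set_option linter.unusedVariables false
set_option linter.unusedSectionVars false

namespace Pool.Agent.H432.G1

open MvPolynomial Filter Pool.Agent.N750 Pool.Agent.H432.RC
open Pool.Agent.H432.AC (Rel S_DVD S_ACL map_aevk rel_los upm upm_ev dvd_prod_aux lift_sub ev_sub)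

namespace PGEOE

theorem map_wei {R S : Type} [CommRing R] [CommRing S] (h : R →+* S) (a b : R) :
    MvPolynomial.map h (wei a b) = wei (h a) (h b) := by
  simp only [wei, map_sub, map_add, map_mul, map_pow, map_X, map_C]

/-- Łoś's theorem for the certificate -/
theorem cert_los (dvd : S_DVD) {α : Type} {𝓕 : Ultrafilter α} {K : Type} [Field K]
    {k : Type} [Field k] [Algebra k K] [Algebra k (Gm 𝓕 K)]
    (hk : ∀ c : k, algebraMap k (Gm 𝓕 K) c = mk 𝓕 (algebraMap k (α → K) c))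
    {M g : ℕ} {n' : ℕ}
    (G : Fin g → MvPolynomial (Fin M) k)
    (P : MvPolynomial (Fin 2) (α → K)) (φ : Fin M → MvPolynomial (Fin 2) (α → K))
    (h : CertE n' G (MvPolynomial.map (mk 𝓕) P) (fun l => MvPolynomial.map (mk 𝓕) (φ l))) :
    ∀ᶠ t in (𝓕 : Filter α), CertE n' G
      (MvPolynomial.map (Pi.evalRingHom (fun _ : α => K) t) P)
      (fun l => MvPolynomial.map (Pi.evalRingHom (fun _ : α => K) t) (φ l)) := by
  classical
  let mkA : (α → K) →ₐ[k] Gm 𝓕 K := { mk 𝓕 with commutes' := fun c => (hk c).symm }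
  let evA : ∀ s : α, (α → K) →ₐ[k] K := fun s =>
    { Pi.evalRingHom (fun _ : α => K) s with commutes' := fun c => rfl }
  have hmk : ∀ A : MvPolynomial (Fin M) k, aeval (fun l => MvPolynomial.map (mk 𝓕) (φ l)) A =
      MvPolynomial.map (mk 𝓕) (aeval φ A) := fun A => (map_aevk mkA φ A).symm
  have hev : ∀ (s : α) (A : MvPolynomial (Fin M) k),
      aeval (fun l => MvPolynomial.map (Pi.evalRingHom (fun _ : α => K) s) (φ l)) A =
      MvPolynomial.map (Pi.evalRingHom (fun _ : α => K) s) (aeval φ A) :=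
    fun s A => (map_aevk (evA s) φ A).symm
  obtain ⟨Q, Γ, h5, ⟨J0, h6⟩, h7, h8, h9⟩ := h
  obtain ⟨Q', hQ'⟩ := MvPolynomial.map_surjective (mk 𝓕) (fun x => mk_surj x) Q
  choose Γ' hΓ' using fun J => MvPolynomial.map_surjective (mk 𝓕) (fun x => mk_surj x) (Γ J)
  -- the conditions
  have a5 : ∀ᶠ t in (𝓕 : Filter α), ¬ MvPolynomial.map (Pi.evalRingHom (fun _ : α => K) t) P ∣
      MvPolynomial.map (Pi.evalRingHom (fun _ : α => K) t) Q' := by
    rw [Ultrafilter.eventually_not (p := fun t => MvPolynomial.map (Pi.evalRingHom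
      (fun _ : α => K) t) P ∣ MvPolynomial.map (Pi.evalRingHom (fun _ : α => K) t) Q')]
    exact fun h => h5 (by rw [← hQ']; exact (dvd α 𝓕 K _ _).2 h)
  have a6 : ∀ᶠ t in (𝓕 : Filter α), ¬ MvPolynomial.map (Pi.evalRingHom (fun _ : α => K) t) P ∣
      MvPolynomial.map (Pi.evalRingHom (fun _ : α => K) t) (Γ' J0) := by
    rw [Ultrafilter.eventually_not (p := fun t => MvPolynomial.map (Pi.evalRingHom
      (fun _ : α => K) t) P ∣ MvPolynomial.map (Pi.evalRingHom (fun _ : α => K) t) (Γ' J0))]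
    exact fun h => h6 (by rw [← hΓ']; exact (dvd α 𝓕 K _ _).2 h)
  have a7 : ∀ᶠ t in (𝓕 : Filter α), ∀ x : (Fin (n' + 2) → Fin M) × Fin (n' + 2) × Fin (n' + 2),
      x.2.1 ≠ x.2.2 → MvPolynomial.map (Pi.evalRingHom (fun _ : α => K) t) P ∣
      MvPolynomial.map (Pi.evalRingHom (fun _ : α => K) t)
        (Γ' (x.1 ∘ Equiv.swap x.2.1 x.2.2) + Γ' x.1) := by
    rw [Filter.eventually_all]
    rintro ⟨J, i, j⟩
    by_cases hij : i = j
    · exact Eventually.of_forall fun s h => absurd hij h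
    · have h11 := h7 J i j hij
      rw [← hΓ', ← hΓ', ← map_add] at h11
      filter_upwards [(dvd α 𝓕 K _ _).1 h11] with t ht _
      exact ht
  have a8 : ∀ᶠ t in (𝓕 : Filter α), ∀ x : Fin g × (Fin (n' + 2) → Fin M),
      MvPolynomial.map (Pi.evalRingHom (fun _ : α => K) t) P ∣
      MvPolynomial.map (Pi.evalRingHom (fun _ : α => K) t)
        (∑ l, aeval φ (pderiv l (G x.1)) * Γ' (Function.update x.2 0 l)) := by
    rw [Filter.eventually_all]
    rintro ⟨i, J⟩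
    refine (dvd α 𝓕 K _ _).1 ?_
    rw [map_sum]
    have e1 : ∀ l, MvPolynomial.map (mk 𝓕) (aeval φ (pderiv l (G i)) *
        Γ' (Function.update J 0 l)) = aeval (fun l => MvPolynomial.map (mk 𝓕) (φ l))
          (pderiv l (G i)) * Γ (Function.update J 0 l) := by
      intro l
      rw [map_mul, hmk, hΓ']
    rw [Finset.sum_congr rfl fun l _ => e1 l]
    exact h8 i J
  have a9 : ∀ᶠ t in (𝓕 : Filter α), ∀ J : Fin (n' + 2) → Fin M,
      Rel (MvPolynomial.map (Pi.evalRingHom (fun _ : α => K) t) P)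
        (fun y : Fin M =>
          MvPolynomial.map (Pi.evalRingHom (fun _ : α => K) t) (Q' * φ y ^ (n' + 2)))
        (MvPolynomial.map (Pi.evalRingHom (fun _ : α => K) t) (Γ' J * X 1)) := by
    rw [Filter.eventually_all]
    intro J
    refine rel_los dvd _ _ _ ?_
    have e1 : (fun y : Fin M => MvPolynomial.map (mk 𝓕) (Q' * φ y ^ (n' + 2))) = fun y =>
        Q * (MvPolynomial.map (mk 𝓕) (φ y)) ^ (n' + 2) := by
      funext y
      simp only [map_mul, map_pow, hQ']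
    have e2 : MvPolynomial.map (mk 𝓕) (Γ' J * X 1) = Γ J * X 1 := by
      simp only [map_mul, map_X, hΓ']
    rw [e1, e2]
    exact h9 J
  filter_upwards [a5, a6, a7, a8, a9] with t t5 t6 t7 t8 t9
  refine ⟨MvPolynomial.map (Pi.evalRingHom (fun _ : α => K) t) Q',
    fun J => MvPolynomial.map (Pi.evalRingHom (fun _ : α => K) t) (Γ' J), t5,
    ⟨J0, t6⟩, ?_, ?_, ?_⟩
  · intro J i j hij
    rw [← map_add]
    exact t7 (J, i, j) hij
  · intro i J
    have h11 := t8 (i, J)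
    rw [map_sum] at h11
    have e1 : ∀ l, MvPolynomial.map (Pi.evalRingHom (fun _ : α => K) t)
        (aeval φ (pderiv l (G i)) * Γ' (Function.update J 0 l)) =
        aeval (fun l => MvPolynomial.map (Pi.evalRingHom (fun _ : α => K) t) (φ l))
          (pderiv l (G i)) *
          MvPolynomial.map (Pi.evalRingHom (fun _ : α => K) t) (Γ' (Function.update J 0 l)) := by
      intro l
      rw [map_mul, hev]
    rw [Finset.sum_congr rfl fun l _ => e1 l] at h11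
    exact h11
  · intro J
    have h11 := t9 J
    have e1 : (fun y : Fin M =>
          MvPolynomial.map (Pi.evalRingHom (fun _ : α => K) t) (Q' * φ y ^ (n' + 2))) = fun y =>
        MvPolynomial.map (Pi.evalRingHom (fun _ : α => K) t) Q' *
          (MvPolynomial.map (Pi.evalRingHom (fun _ : α => K) t) (φ y)) ^ (n' + 2) := by
      funext y
      simp only [map_mul, map_pow]
    have e2 : MvPolynomial.map (Pi.evalRingHom (fun _ : α => K) t) (Γ' J * X 1) =
        MvPolynomial.map (Pi.evalRingHom (fun _ : α => K) t) (Γ' J) * X 1 := by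
      simp only [map_mul, map_X]
    rw [e1, e2] at h11
    exact h11

/-- the ultraproduct argument -/
theorem los_main (certk : S_CERTK) (acl : S_ACL) (dvd : S_DVD) {k K : Type} [Field k] [Field K]
    [CharZero k] [CharZero K] [IsAlgClosed K] [Algebra k K] {M g n' : ℕ}
    (G : Fin g → MvPolynomial (Fin M) k) (e : Fin g → ℕ)
    (hG : ∀ i, (G i).IsHomogeneous (e i)) (hsm : Sm (n' + 1) G) (N : ℕ)
    {α : Type} (𝓕 : Ultrafilter α) [Algebra k (Gm 𝓕 K)] [IsScalarTower k K (Gm 𝓕 K)]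
    (a b : α → K) (φ : α → Fin M → MvPolynomial (Fin 2) K)
    (h1 : ∀ s, 4 * a s ^ 3 + 27 * b s ^ 2 ≠ 0)
    (h3 : ∀ s l, (φ s l).totalDegree ≤ N) (l0 l1 : Fin M)
    (hll : ∀ᶠ s in (𝓕 : Filter α), ¬ wei (a s) (b s) ∣ φ s l1 ∧
      ∀ c : K, ¬ wei (a s) (b s) ∣ φ s l0 - C c * φ s l1)
    (h5 : ∀ s i, wei (a s) (b s) ∣ aeval (φ s) (G i))
    (h6 : ∀ (Q : MvPolynomial (Fin M) k) (m : ℕ), Q.IsHomogeneous m →
      Q ∉ Ideal.span (Set.range G) → ∀ᶠ s in (𝓕 : Filter α),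
        ¬ wei (a s) (b s) ∣ aeval (φ s) Q) :
    ∀ᶠ s in (𝓕 : Filter α), CertE n' G (wei (a s) (b s)) (φ s) := by
  classical
  have hk : ∀ c : k, algebraMap k (Gm 𝓕 K) c = mk 𝓕 (algebraMap k (α → K) c) := fun c => by
    rw [IsScalarTower.algebraMap_apply k K (Gm 𝓕 K)]
    rfl
  have hchar : CharZero (Gm 𝓕 K) :=
    charZero_of_injective_algebraMap (algebraMap K (Gm 𝓕 K)).injective
  have hacl : IsAlgClosed (Gm 𝓕 K) := acl α 𝓕 K
  obtain ⟨Pu, hPu⟩ : ∃ Pu : MvPolynomial (Fin 2) (α → K), Pu = wei a b := ⟨_, rfl⟩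
  have hPev : ∀ s, MvPolynomial.map (Pi.evalRingHom (fun _ : α => K) s) Pu =
      wei (a s) (b s) := by
    intro s
    rw [hPu, map_wei]
    rfl
  have hPmk : MvPolynomial.map (mk 𝓕) Pu = wei (mk 𝓕 a) (mk 𝓕 b) := by
    rw [hPu, map_wei]
  have hdisc : 4 * (mk 𝓕 a) ^ 3 + 27 * (mk 𝓕 b) ^ 2 ≠ 0 := by
    have e1 : 4 * (mk 𝓕 a) ^ 3 + 27 * (mk 𝓕 b) ^ 2 = mk 𝓕 (4 * a ^ 3 + 27 * b ^ 2) := by
      simp only [map_add, map_mul, map_pow, map_ofNat]
    rw [e1, mk_ne_zero]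
    exact Eventually.of_forall fun s => h1 s
  obtain ⟨φu, hφev⟩ : ∃ φu : Fin M → MvPolynomial (Fin 2) (α → K),
      ∀ s l, MvPolynomial.map (Pi.evalRingHom (fun _ : α => K) s) (φu l) = φ s l :=
    ⟨fun l => upm N (fun s => φ s l), fun s l => upm_ev (h3 s l)⟩
  have hmk : ∀ A : MvPolynomial (Fin M) k, aeval (fun l => MvPolynomial.map (mk 𝓕) (φu l)) A =
      MvPolynomial.map (mk 𝓕) (aeval φu A) := fun A =>
    (map_aevk ({ mk 𝓕 with commutes' := fun c => (hk c).symm } : (α → K) →ₐ[k] Gm 𝓕 K) φu A).symm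
  have hev : ∀ (s : α) (A : MvPolynomial (Fin M) k), aeval (φ s) A =
      MvPolynomial.map (Pi.evalRingHom (fun _ : α => K) s) (aeval φu A) := by
    intro s A
    have e1 := (map_aevk ({ Pi.evalRingHom (fun _ : α => K) s with commutes' := fun c => rfl } :
      (α → K) →ₐ[k] K) φu A).symm
    have e2 : (fun l => MvPolynomial.map (({ Pi.evalRingHom (fun _ : α => K) s with
        commutes' := fun c => rfl } : (α → K) →ₐ[k] K) : (α → K) →+* K) (φu l)) = φ s := by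
      funext l
      exact hφev s l
    rw [e2] at e1
    exact e1
  have hdvd : ∀ A : MvPolynomial (Fin 2) (α → K), MvPolynomial.map (mk 𝓕) Pu ∣
      MvPolynomial.map (mk 𝓕) A ↔ ∀ᶠ s in (𝓕 : Filter α), wei (a s) (b s) ∣
      MvPolynomial.map (Pi.evalRingHom (fun _ : α => K) s) A := by
    intro A
    rw [dvd α 𝓕 K Pu A]
    simp only [hPev]
  have b1 : ∀ i, MvPolynomial.map (mk 𝓕) Pu ∣
      aeval (fun l => MvPolynomial.map (mk 𝓕) (φu l)) (G i) := by
    intro i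
    rw [hmk, hdvd]
    refine Eventually.of_forall fun s => ?_
    rw [← hev]
    exact h5 s i
  have b2 : ∀ (Q : MvPolynomial (Fin M) k) (m : ℕ), Q.IsHomogeneous m →
      Q ∉ Ideal.span (Set.range G) → ¬ MvPolynomial.map (mk 𝓕) Pu ∣
        aeval (fun l => MvPolynomial.map (mk 𝓕) (φu l)) Q := by
    intro Q m hQ hQI
    rw [hmk, hdvd]
    intro hzero
    obtain ⟨s, hs1, hs2⟩ := (hzero.and (h6 Q m hQ hQI)).exists
    rw [← hev] at hs1
    exact hs2 hs1
  have b4 : ¬ MvPolynomial.map (mk 𝓕) Pu ∣ MvPolynomial.map (mk 𝓕) (φu l1) := by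
    rw [hdvd]
    intro hzero
    obtain ⟨s, hs1, hs2⟩ := (hzero.and hll).exists
    rw [hφev] at hs1
    exact hs2.1 hs1
  have b5 : ∀ c : Gm 𝓕 K, ¬ MvPolynomial.map (mk 𝓕) Pu ∣ MvPolynomial.map (mk 𝓕) (φu l0) -
      C c * MvPolynomial.map (mk 𝓕) (φu l1) := by
    intro c hc
    obtain ⟨c', hc'⟩ := mk_surj c
    rw [← hc'] at hc
    have hc2 := lift_sub (𝓕 := 𝓕) (φu l0) (φu l1) c'
    rw [hc2] at hc
    have hzero := (hdvd _).1 hc
    obtain ⟨s, hs1, hs2⟩ := (hzero.and hll).exists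
    rw [ev_sub, hφev, hφev] at hs1
    exact hs2.2 (c' s) hs1
  have hcert : CertE n' G (MvPolynomial.map (mk 𝓕) Pu)
      (fun l => MvPolynomial.map (mk 𝓕) (φu l)) := by
    rw [hPmk] at b1 b2 b4 b5 ⊢
    clear hdvd hmk hev hφev hPev h1 h3 h5 h6 hPmk hPu
    generalize mk 𝓕 a = a' at hdisc b1 b2 b4 b5 ⊢
    generalize mk 𝓕 b = b' at hdisc b1 b2 b4 b5 ⊢
    obtain ⟨φ', hφ'⟩ : ∃ φ' : Fin M → MvPolynomial (Fin 2) (Gm 𝓕 K),
      ∀ l, MvPolynomial.map (mk 𝓕) (φu l) = φ' l := ⟨_, fun l => rfl⟩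
    have hφφ : (fun l => MvPolynomial.map (mk 𝓕) (φu l)) = φ' := funext hφ'
    rw [hφφ] at b1 b2 ⊢
    rw [hφ'] at b4
    rw [hφ', hφ'] at b5
    exact certk k (Gm 𝓕 K) M g n' G e hG hsm a' b' hdisc φ' b1 b2 l0 l1 b4 b5
  filter_upwards [cert_los dvd hk G Pu φu hcert] with s hs
  rw [hPev] at hs
  have e2 : (fun l => MvPolynomial.map (Pi.evalRingHom (fun _ : α => K) s) (φu l)) = φ s := by
    funext l
    exact hφev s l
  rw [e2] at hs
  exact hs

end PGEOE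

open PGEOE

/-- **the exceptional set for the curves of genus one of bounded degree** -/
theorem geoe (certk : S_CERTK) (irrw : S_IRRW) : S_GEOE := by
  classical
  intro k K _ _ _ _ _ _ M g n' G e hG hI hsm N
  by_contra hcon
  push Not at hcon
  let PP : Type := {P : MvPolynomial (Fin M) k // (∃ m, P.IsHomogeneous m) ∧
    P ∉ Ideal.span (Set.range G)}
  let α : Type := Finset PP
  have hprod : ∀ s : α, (∃ m, (∏ P ∈ s, P.1).IsHomogeneous m) ∧
      (∏ P ∈ s, P.1) ∉ Ideal.span (Set.range G) := by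
    intro s
    constructor
    · choose m hm using fun P : PP => P.2.1
      exact ⟨_, MvPolynomial.IsHomogeneous.prod s (fun P => P.1) (fun P => m P) fun P _ => hm P⟩
    · intro h
      rw [hI.prod_mem_iff] at h
      obtain ⟨P, -, hP⟩ := h
      exact P.2.2 hP
  have hviol : ∀ s : α, ∃ (a b : K) (φ : Fin M → MvPolynomial (Fin 2) K),
      4 * a ^ 3 + 27 * b ^ 2 ≠ 0 ∧ (∀ l, (φ l).totalDegree ≤ N) ∧
      (∃ l0 l1, ¬ wei a b ∣ φ l1 ∧ ∀ c : K, ¬ wei a b ∣ φ l0 - C c * φ l1) ∧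
      (∀ i, wei a b ∣ aeval φ (G i)) ∧ ¬ wei a b ∣ aeval φ (∏ P ∈ s, P.1) ∧
      ¬ CertE n' G (wei a b) φ := by
    intro s
    obtain ⟨⟨mm, hmm⟩, hΦ⟩ := hprod s
    obtain ⟨a, b, φ, h1, h3, h4, h5, h6, h8⟩ := hcon mm _ hmm hΦ
    exact ⟨a, b, φ, h1, h3, h4, h5, h6, h8⟩
  choose a b φ h1 h3 h4 h5 h6 h8 using hviol
  obtain ⟨𝓕, h𝓕⟩ : ∃ 𝓕 : Ultrafilter α, (𝓕 : Filter α) ≤ atTop :=
    ⟨Ultrafilter.of atTop, Ultrafilter.of_le atTop⟩
  obtain ⟨⟨l0, l1⟩, hll⟩ : ∃ x : Fin M × Fin M, ∀ᶠ s in (𝓕 : Filter α),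
      ¬ wei (a s) (b s) ∣ φ s x.2 ∧ ∀ c : K, ¬ wei (a s) (b s) ∣ φ s x.1 - C c * φ s x.2 := by
    choose l0 l1 hl using h4
    obtain ⟨x, hx⟩ := exists_val (𝓕 := 𝓕) (fun s => (l0 s, l1 s))
    refine ⟨x, ?_⟩
    filter_upwards [hx] with s hs
    have := hl s
    rw [← hs]
    exact this
  let _ : Algebra k (Gm 𝓕 K) := ((algebraMap K (Gm 𝓕 K)).comp (algebraMap k K)).toAlgebra
  have htow : IsScalarTower k K (Gm 𝓕 K) := IsScalarTower.of_algebraMap_eq fun x => rfl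
  obtain ⟨s, hs⟩ := (los_main certk Pool.Agent.H432.AC.acl Pool.Agent.H432.AC.dvd
    G e hG hsm N 𝓕 a b φ h1 h3 l0 l1 hll h5 (by
      intro Q m hQ hQI
      have e2 : ∀ᶠ s in (𝓕 : Filter α), ({⟨Q, ⟨m, hQ⟩, hQI⟩} : Finset PP) ≤ s :=
        h𝓕 (eventually_ge_atTop _)
      filter_upwards [e2] with s hs2 hs1
      have e3 : (⟨Q, ⟨m, hQ⟩, hQI⟩ : PP) ∈ s := hs2 (Finset.mem_singleton_self _)
      exact h6 s (dvd_prod_aux s (fun P : PP => P.1) (φ s) (wei (a s) (b s))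
        ⟨Q, ⟨m, hQ⟩, hQI⟩ e3 hs1))).exists
  exact h8 s hs

end Pool.Agent.H432.G1
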