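import Mathlib
import Pool.Agent.H432.G1.Stm

/-!
# Task HALF (written by helper199): division by two
-/

set_option autoImplicit false

namespace Pool.Agent.H432.G1

open MvPolynomial NumberField IsDedekindDomain Module Height

/-- **Task HALF.** -/
theorem half (sel : S_SEL) : S_HALF := by
  intro L _ _ e he
  obtain ⟨E, fE, nE, aE, h⟩ := sel L e he
  refine ⟨E, fE, nE, aE, ?_⟩
  intro x y hy hxy
  have hs := h x y hy hxy
  obtain ⟨r0, h0⟩ := hs 0
  obtain ⟨r1, h1⟩ := hs 1
  obtain ⟨r2, h2⟩ := hs 2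
  rw [map_sub] at h0 h1 h2
  have hinj : ∀ i j : Fin 3, i ≠ j → algebraMap L E (e i) ≠ algebraMap L E (e j) := by
    intro i j hij hh
    exact hij (he ((algebraMap L E).injective hh))
  have n01 : r0 + r1 ≠ 0 := by
    intro hh
    apply hinj 0 1 (by decide)
    have hr : r0 = -r1 := eq_neg_of_add_eq_zero_left hh
    rw [hr] at h0
    linear_combination h1 - h0
  have n02 : r0 + r2 ≠ 0 := by
    intro hh
    apply hinj 0 2 (by decide)
    have hr : r0 = -r2 := eq_neg_of_add_eq_zero_left hh
    rw [hr] at h0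
    linear_combination h2 - h0
  have n12 : r1 + r2 ≠ 0 := by
    intro hh
    apply hinj 1 2 (by decide)
    have hr : r1 = -r2 := eq_neg_of_add_eq_zero_left hh
    rw [hr] at h1
    linear_combination h2 - h1
  refine ⟨algebraMap L E x + r0 * r1 + r0 * r2 + r1 * r2, (r0 + r1) * (r0 + r2) * (r1 + r2),
    mul_ne_zero (mul_ne_zero n01 n02) n12, ?_, ?_⟩
  · have t0 : algebraMap L E x + r0 * r1 + r0 * r2 + r1 * r2 - algebraMap L E (e 0) =
        (r0 + r1) * (r0 + r2) := by linear_combination h0
    have t1 : algebraMap L E x + r0 * r1 + r0 * r2 + r1 * r2 - algebraMap L E (e 1) =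
        (r0 + r1) * (r1 + r2) := by linear_combination h1
    have t2 : algebraMap L E x + r0 * r1 + r0 * r2 + r1 * r2 - algebraMap L E (e 2) =
        (r0 + r2) * (r1 + r2) := by linear_combination h2
    show ((r0 + r1) * (r0 + r2) * (r1 + r2)) ^ 2 =
      (algebraMap L E x + r0 * r1 + r0 * r2 + r1 * r2 - algebraMap L E (e 0)) *
      (algebraMap L E x + r0 * r1 + r0 * r2 + r1 * r2 - algebraMap L E (e 1)) *
      (algebraMap L E x + r0 * r1 + r0 * r2 + r1 * r2 - algebraMap L E (e 2))
    rw [t0, t1, t2]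
    ring
  · have t0 : algebraMap L E x + r0 * r1 + r0 * r2 + r1 * r2 - algebraMap L E (e 0) =
        (r0 + r1) * (r0 + r2) := by linear_combination h0
    have e1 : algebraMap L E (e 0) - algebraMap L E (e 1) = r1 * r1 - r0 * r0 := by
      linear_combination h1 - h0
    have e2 : algebraMap L E (e 0) - algebraMap L E (e 2) = r2 * r2 - r0 * r0 := by
      linear_combination h2 - h0
    show 4 * ((r0 + r1) * (r0 + r2) * (r1 + r2)) ^ 2 *
      (algebraMap L E x - algebraMap L E (e 0)) =
      ((algebraMap L E x + r0 * r1 + r0 * r2 + r1 * r2 - algebraMap L E (e 0)) ^ 2 -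
        (algebraMap L E (e 0) - algebraMap L E (e 1)) *
        (algebraMap L E (e 0) - algebraMap L E (e 2))) ^ 2
    rw [t0, e1, e2, h0]
    ring

end Pool.Agent.H432.G1
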