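import Mathlib
import Pool.Agent.H432.G1.Stm

/-!
# IRRW: the polynomial `Y ^ 2 - (X ^ 3 + a X + b)` is irreducible over every field

The polynomial is transported to `K[X][Y]`, where it is the Weierstrass polynomial of the curve
`(0, 0, 0, a, b)`, whose irreducibility is in Mathlib.
-/

set_option autoImplicit false
set_option linter.unusedVariables false

namespace Pool.Agent.H432.G1

open MvPolynomial

namespace PIRRW

/-- the isomorphism `K[X 0, X 1] ≃ K[X][Y]` -/
noncomputable def e (K : Type) [Field K] :
    MvPolynomial (Fin 2) K ≃ₐ[K] Polynomial (Polynomial K) :=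
  (MvPolynomial.renameEquiv K (Equiv.swap (0 : Fin 2) 1)).trans
    ((MvPolynomial.finSuccEquiv K 1).trans
      (Polynomial.mapAlgEquiv (MvPolynomial.uniqueAlgEquiv K (Fin 1))))

theorem e_X1 (K : Type) [Field K] : e K (X 1) = Polynomial.X := by
  simp only [e, AlgEquiv.trans_apply, MvPolynomial.renameEquiv_apply, MvPolynomial.rename_X,
    Equiv.swap_apply_right]
  rw [MvPolynomial.finSuccEquiv_X_zero]
  simp

theorem e_X0 (K : Type) [Field K] : e K (X 0) = Polynomial.C Polynomial.X := by
  simp only [e, AlgEquiv.trans_apply, MvPolynomial.renameEquiv_apply, MvPolynomial.rename_X,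
    Equiv.swap_apply_left]
  have h : (1 : Fin 2) = Fin.succ (0 : Fin 1) := rfl
  rw [h, MvPolynomial.finSuccEquiv_X_succ]
  simp

theorem e_C (K : Type) [Field K] (c : K) : e K (C c) = Polynomial.C (Polynomial.C c) := by
  have h := (e K).commutes c
  rw [MvPolynomial.algebraMap_eq] at h
  rw [h]
  rfl

theorem e_wei (K : Type) [Field K] (a b : K) :
    e K (wei a b) = (WeierstrassCurve.Affine.polynomial (⟨0, 0, 0, a, b⟩ : WeierstrassCurve K)) := by
  rw [WeierstrassCurve.Affine.polynomial, wei]
  simp only [map_sub, map_add, map_mul, map_pow, e_X1, e_X0, e_C]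
  simp

end PIRRW

theorem irrw : S_IRRW := by
  intro K _ a b
  have h := WeierstrassCurve.Affine.irreducible_polynomial
    (W := (⟨0, 0, 0, a, b⟩ : WeierstrassCurve K))
  rw [← PIRRW.e_wei] at h
  exact (MulEquiv.irreducible_iff (PIRRW.e K)).1 h

end Pool.Agent.H432.G1

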