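import Mathlib
import Pool.Agent.H432.G1.Stm

/-!
# The local bound for the zeros of a function on the curve (task LOCW; helper253)
-/

set_option autoImplicit false

namespace Pool.Agent.H432.G1

open MvPolynomial NumberField
open Pool.Agent.W180.OP (Pl av)

namespace PLOCW

/-- the cubic polynomial -/
noncomputable def cub {R : Type} [CommRing R] (a b : R) : Polynomial R :=
  Polynomial.X ^ 3 + Polynomial.C a * Polynomial.X + Polynomial.C b

theorem red {E : Type} [Field E] (a b : E) (H : MvPolynomial (Fin 2) E) :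
    ∃ u v : Polynomial E, wei a b ∣ H - (Polynomial.aeval (X 0 : MvPolynomial (Fin 2) E) u +
      Polynomial.aeval (X 0 : MvPolynomial (Fin 2) E) v * X 1) := by
  induction H using MvPolynomial.induction_on with
  | C c =>
    refine ⟨Polynomial.C c, 0, ?_⟩
    rw [Polynomial.aeval_C, map_zero, zero_mul, add_zero]
    have : (algebraMap E (MvPolynomial (Fin 2) E)) c = C c := rfl
    rw [this, sub_self]
    exact dvd_zero _
  | add p q hp hq =>
    obtain ⟨u, v, huv⟩ := hp
    obtain ⟨u', v', huv'⟩ := hq
    refine ⟨u + u', v + v', ?_⟩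
    have h := dvd_add huv huv'
    rw [map_add, map_add]
    have e : p + q - (Polynomial.aeval (X 0 : MvPolynomial (Fin 2) E) u +
        Polynomial.aeval (X 0 : MvPolynomial (Fin 2) E) u' +
        (Polynomial.aeval (X 0 : MvPolynomial (Fin 2) E) v +
        Polynomial.aeval (X 0 : MvPolynomial (Fin 2) E) v') * X 1) =
        (p - (Polynomial.aeval (X 0 : MvPolynomial (Fin 2) E) u +
        Polynomial.aeval (X 0 : MvPolynomial (Fin 2) E) v * X 1)) +
        (q - (Polynomial.aeval (X 0 : MvPolynomial (Fin 2) E) u' +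
        Polynomial.aeval (X 0 : MvPolynomial (Fin 2) E) v' * X 1)) := by ring
    rw [e]
    exact h
  | mul_X p i hp =>
    obtain ⟨u, v, k, hk⟩ := hp
    have hi : i = 0 ∨ i = 1 := by
      revert i
      decide
    rcases hi with hi | hi
    · subst hi
      refine ⟨u * Polynomial.X, v * Polynomial.X, k * X 0, ?_⟩
      rw [map_mul, map_mul, Polynomial.aeval_X]
      linear_combination (X 0 : MvPolynomial (Fin 2) E) * hk
    · subst hi
      refine ⟨v * cub a b, u, k * X 1 + Polynomial.aeval (X 0 : MvPolynomial (Fin 2) E) v, ?_⟩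
      have hc : Polynomial.aeval (X 0 : MvPolynomial (Fin 2) E) (cub a b) =
          X 0 ^ 3 + C a * X 0 + C b := by
        unfold cub
        rw [map_add, map_add, map_mul, map_pow, Polynomial.aeval_X, Polynomial.aeval_C,
          Polynomial.aeval_C]
        rfl
      rw [map_mul, hc]
      have hw : wei a b = (X 1 ^ 2 - (X 0 ^ 3 + C a * X 0 + C b) : MvPolynomial (Fin 2) E) := rfl
      rw [hw] at hk ⊢
      linear_combination (X 1 : MvPolynomial (Fin 2) E) * hk

theorem norm_ne {E : Type} [Field E] (a b : E) (u v : Polynomial E) (h : ¬ (u = 0 ∧ v = 0)) :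
    u ^ 2 - cub a b * v ^ 2 ≠ 0 := by
  intro h0
  have h1 : u ^ 2 = cub a b * v ^ 2 := sub_eq_zero.1 h0
  by_cases hv : v = 0
  · apply h
    rw [hv] at h1
    refine ⟨?_, hv⟩
    have h2 : u ^ 2 = 0 := by rw [h1]; ring
    exact pow_eq_zero_iff (two_ne_zero) |>.1 h2
  · have hdeg : (cub a b).natDegree = 3 := by
      unfold cub
      compute_degree!
    have hc : cub a b ≠ 0 := by
      intro h2
      rw [h2, Polynomial.natDegree_zero] at hdeg
      omega
    have h2 := congrArg Polynomial.natDegree h1
    rw [Polynomial.natDegree_pow, Polynomial.natDegree_mul hc (pow_ne_zero 2 hv),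
      Polynomial.natDegree_pow, hdeg] at h2
    omega

theorem poly_bd {K : Type} [Field K] (f : AbsoluteValue K ℝ) (u : Polynomial K) :
    ∃ C : ℝ, 0 ≤ C ∧ ∀ x : K, f (u.eval x) ≤ C * (max 1 (f x)) ^ u.natDegree := by
  refine ⟨∑ i ∈ Finset.range (u.natDegree + 1), f (u.coeff i),
    Finset.sum_nonneg fun _ _ => f.nonneg _, fun x => ?_⟩
  rw [Polynomial.eval_eq_sum_range, Finset.sum_mul]
  refine (f.sum_le _ _).trans ?_
  apply Finset.sum_le_sum
  intro i hi
  rw [f.map_mul, f.map_pow]
  apply mul_le_mul_of_nonneg_left _ (f.nonneg _)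
  rw [Finset.mem_range] at hi
  calc f x ^ i ≤ (max 1 (f x)) ^ i := pow_le_pow_left₀ (f.nonneg _) (le_max_right _ _) i
    _ ≤ (max 1 (f x)) ^ u.natDegree := pow_le_pow_right₀ (le_max_left _ _) (by omega)

theorem cub_deg {E : Type} [Field E] (a b : E) : (cub a b).natDegree = 3 := by
  unfold cub
  compute_degree!

/-- the lower bound for a split polynomial -/
theorem nbd {L : Type} [Field L] [DecidableEq L] (f : AbsoluteValue L ℝ) (n : Polynomial L)
    (hs : n.Splits) : ∃ K : ℝ, ∀ x : L, n.eval x ≠ 0 →
      - Real.log (f (n.eval x)) ≤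
        n.natDegree * ∑ α ∈ n.roots.toFinset, Real.log (max 1 (f (x - α))⁻¹) + K := by
  refine ⟨- Real.log (f n.leadingCoeff), fun x hx => ?_⟩
  have h1 := hs.eval_eq_prod_roots x
  have hl : n.leadingCoeff ≠ 0 := by
    intro h
    apply hx
    rw [h1, h, zero_mul]
  have hp : (n.roots.map (fun α => x - α)).prod ≠ 0 := by
    intro h
    apply hx
    rw [h1, h, mul_zero]
  have hne : ∀ α ∈ n.roots, f (x - α) ≠ 0 := by
    intro α hα h
    apply hp
    apply Multiset.prod_eq_zero
    rw [Multiset.mem_map]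
    exact ⟨α, hα, f.eq_zero.1 h⟩
  have h2 : ∀ s : Multiset L, (∀ α ∈ s, f (x - α) ≠ 0) →
      - Real.log (f ((s.map (fun α => x - α)).prod)) ≤
        (s.map (fun α => Real.log (max 1 (f (x - α))⁻¹))).sum := by
    intro s
    induction s using Multiset.induction_on with
    | empty =>
      intro _
      simp
    | cons α s ih =>
      intro hs
      rw [Multiset.map_cons, Multiset.prod_cons, Multiset.map_cons, Multiset.sum_cons, f.map_mul]
      have h3 : f (x - α) ≠ 0 := hs α (Multiset.mem_cons_self α s)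
      have h4 : ∀ β ∈ s, f (x - β) ≠ 0 := fun β hβ => hs β (Multiset.mem_cons_of_mem hβ)
      have h5 : f ((s.map (fun α => x - α)).prod) ≠ 0 := by
        intro h
        have h6 := f.eq_zero.1 h
        rw [Multiset.prod_eq_zero_iff, Multiset.mem_map] at h6
        obtain ⟨β, hβ, hβ0⟩ := h6
        apply h4 β hβ
        rw [hβ0, f.map_zero]
      rw [Real.log_mul h3 h5, neg_add]
      apply add_le_add _ (ih h4)
      rw [← Real.log_inv]
      apply Real.log_le_log
      · rw [inv_pos]
        exact lt_of_le_of_ne (f.nonneg _) (Ne.symm h3)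
      · exact le_max_right _ _
  rw [h1, f.map_mul, Real.log_mul (fun h => hl (f.eq_zero.1 h)) (fun h => hp (f.eq_zero.1 h)),
    neg_add, add_comm]
  apply add_le_add _ le_rfl
  refine (h2 _ hne).trans ?_
  rw [Finset.sum_multiset_map_count, Finset.mul_sum]
  apply Finset.sum_le_sum
  intro α _
  rw [nsmul_eq_mul]
  apply mul_le_mul_of_nonneg_right
  · have h3 : n.roots.count α ≤ n.natDegree :=
      (Multiset.count_le_card α _).trans n.card_roots'
    exact_mod_cast h3
  · exact Real.log_nonneg (le_max_left _ _)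

/-- the local estimate -/
theorem loc {L : Type} [Field L] [DecidableEq L] (f : AbsoluteValue L ℝ) (a b : L)
    (u v n : Polynomial L) (hn : n = u ^ 2 - cub a b * v ^ 2) (hs : n.Splits) :
    ∃ K : ℝ, ∀ x y : L, y ^ 2 = x ^ 3 + a * x + b → n.eval x ≠ 0 →
      - Real.log (f (u.eval x + v.eval x * y)) ≤
        ((u.natDegree + v.natDegree + 3 + n.natDegree : ℕ) : ℝ) *
          (Real.log (max 1 (f x)) + ∑ α ∈ n.roots.toFinset, Real.log (max 1 (f (x - α))⁻¹)) +
          K := by
  obtain ⟨Cu, hCu, hu⟩ := poly_bd f u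
  obtain ⟨Cv, hCv, hv⟩ := poly_bd f v
  obtain ⟨Cc, hCc, hc⟩ := poly_bd f (cub a b)
  obtain ⟨Kn, hKn⟩ := nbd f n hs
  rw [cub_deg] at hc
  obtain ⟨K, hK⟩ : ∃ K : ℝ, K = 1 + Cu + Cv * (1 + Cc) := ⟨_, rfl⟩
  have hK1 : 1 ≤ K := by
    rw [hK]
    have : 0 ≤ Cv * (1 + Cc) := by positivity
    linarith
  refine ⟨Real.log K + Kn, fun x y hxy hnx => ?_⟩
  obtain ⟨M, hM⟩ : ∃ M, M = max 1 (f x) := ⟨_, rfl⟩
  have hM1 : 1 ≤ M := by
    rw [hM]
    exact le_max_left _ _
  rw [← hM]
  have hcx : (cub a b).eval x = x ^ 3 + a * x + b := by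
    unfold cub
    simp
  have hy : f y ≤ (1 + Cc) * M ^ 3 := by
    have h1 : f y ^ 2 ≤ Cc * M ^ 3 := by
      rw [← f.map_pow, hxy, ← hcx, hM]
      exact hc x
    have h2 : 1 ≤ M ^ 3 := one_le_pow₀ hM1
    nlinarith [f.nonneg y, sq_nonneg (f y - 1)]
  have huv : f (u.eval x - v.eval x * y) ≤ K * M ^ (u.natDegree + v.natDegree + 3) := by
    have h1 : f (u.eval x - v.eval x * y) ≤ f (u.eval x) + f (v.eval x) * f y := by
      have h2 : f (u.eval x - v.eval x * y) ≤ f (u.eval x) + f (v.eval x * y) := by
        rw [sub_eq_add_neg]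
        refine (f.add_le _ _).trans ?_
        rw [f.map_neg]
      rwa [f.map_mul] at h2
    have h2 : f (u.eval x) ≤ Cu * M ^ (u.natDegree + v.natDegree + 3) := by
      refine (hu x).trans ?_
      rw [← hM]
      exact mul_le_mul_of_nonneg_left (pow_le_pow_right₀ hM1 (by omega)) hCu
    have h3 : f (v.eval x) * f y ≤ Cv * (1 + Cc) * M ^ (u.natDegree + v.natDegree + 3) := by
      calc f (v.eval x) * f y ≤ (Cv * M ^ v.natDegree) * ((1 + Cc) * M ^ 3) := by
            apply mul_le_mul _ hy (f.nonneg _) (by positivity)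
            rw [hM]
            exact hv x
        _ = Cv * (1 + Cc) * M ^ (v.natDegree + 3) := by ring
        _ ≤ Cv * (1 + Cc) * M ^ (u.natDegree + v.natDegree + 3) :=
            mul_le_mul_of_nonneg_left (pow_le_pow_right₀ hM1 (by omega)) (by positivity)
    have h4 : 0 ≤ M ^ (u.natDegree + v.natDegree + 3) := by positivity
    rw [hK]
    nlinarith
  have hprod : n.eval x = (u.eval x + v.eval x * y) * (u.eval x - v.eval x * y) := by
    rw [hn, Polynomial.eval_sub, Polynomial.eval_mul, Polynomial.eval_pow, Polynomial.eval_pow,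
      hcx, ← hxy]
    ring
  have h1 : f (u.eval x + v.eval x * y) ≠ 0 := by
    intro h
    apply hnx
    rw [hprod, f.eq_zero.1 h, zero_mul]
  have h2 : f (u.eval x - v.eval x * y) ≠ 0 := by
    intro h
    apply hnx
    rw [hprod, f.eq_zero.1 h, mul_zero]
  have h2' : 0 < f (u.eval x - v.eval x * y) := lt_of_le_of_ne (f.nonneg _) (Ne.symm h2)
  have h3 : Real.log (f (n.eval x)) =
      Real.log (f (u.eval x + v.eval x * y)) + Real.log (f (u.eval x - v.eval x * y)) := by
    rw [hprod, f.map_mul, Real.log_mul h1 h2]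
  have h4 : Real.log (f (u.eval x - v.eval x * y)) ≤
      Real.log K + ((u.natDegree + v.natDegree + 3 : ℕ) : ℝ) * Real.log M := by
    have hMpos : M ^ (u.natDegree + v.natDegree + 3) ≠ 0 := by positivity
    rw [← Real.log_pow, ← Real.log_mul (by positivity) hMpos]
    exact Real.log_le_log h2' huv
  have h5 := hKn x hnx
  have h6 : 0 ≤ Real.log M := Real.log_nonneg hM1
  have h7 : 0 ≤ ∑ α ∈ n.roots.toFinset, Real.log (max 1 (f (x - α))⁻¹) :=
    Finset.sum_nonneg fun _ _ => Real.log_nonneg (le_max_left _ _)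
  have h8 : ((u.natDegree + v.natDegree + 3 + n.natDegree : ℕ) : ℝ) =
      ((u.natDegree + v.natDegree + 3 : ℕ) : ℝ) + (n.natDegree : ℝ) := by
    push_cast
    ring
  rw [h8]
  have h9 : (0 : ℝ) ≤ ((u.natDegree + v.natDegree + 3 : ℕ) : ℝ) := Nat.cast_nonneg _
  have h10 : (0 : ℝ) ≤ (n.natDegree : ℝ) := Nat.cast_nonneg _
  nlinarith [mul_nonneg h9 h7, mul_nonneg h10 h6]

theorem ev {E : Type} [Field E] (u : Polynomial E) (z : Fin 2 → E) :
    eval z (Polynomial.aeval (X 0 : MvPolynomial (Fin 2) E) u) = u.eval (z 0) := by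
  induction u using Polynomial.induction_on' with
  | add p q hp hq => rw [map_add, map_add, hp, hq, Polynomial.eval_add]
  | monomial n c =>
    rw [Polynomial.aeval_monomial, map_mul, map_pow, eval_X, Polynomial.eval_monomial]
    have : (algebraMap E (MvPolynomial (Fin 2) E)) c = C c := rfl
    rw [this, eval_C]

theorem fin_z {E : Type} [Field E] (a b : E) (n : Polynomial E) (hn : n ≠ 0) :
    {z : Fin 2 → E | eval z (wei a b) = 0 ∧ n.eval (z 0) = 0}.Finite := by
  classical
  have h1 : {x : E | n.eval x = 0}.Finite := by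
    apply Set.Finite.subset n.roots.toFinset.finite_toSet
    intro x hx
    rw [Finset.mem_coe, Multiset.mem_toFinset, Polynomial.mem_roots hn]
    exact hx
  have h2 : ∀ c : E, {y : E | y ^ 2 = c}.Finite := by
    intro c
    apply Set.Finite.subset (Polynomial.nthRoots 2 c).toFinset.finite_toSet
    intro y hy
    rw [Finset.mem_coe, Multiset.mem_toFinset, Polynomial.mem_nthRoots two_pos]
    exact hy
  have h3 : (⋃ x ∈ {x : E | n.eval x = 0},
      (fun y => (![x, y] : Fin 2 → E)) '' {y : E | y ^ 2 = x ^ 3 + a * x + b}).Finite :=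
    h1.biUnion fun x _ => (h2 _).image _
  apply h3.subset
  rintro z ⟨hz, hz0⟩
  rw [Set.mem_iUnion₂]
  refine ⟨z 0, hz0, z 1, ?_, ?_⟩
  · unfold wei at hz
    simp only [map_sub, map_add, map_mul, map_pow, eval_X, eval_C] at hz
    exact sub_eq_zero.1 hz
  · funext i
    have hi : i = 0 ∨ i = 1 := by
      revert i
      decide
    rcases hi with hi | hi <;> subst hi <;> rfl

end PLOCW

theorem locw : S_LOCW := by
  classical
  intro E _ _ a b H hH
  obtain ⟨u, v, huv⟩ := PLOCW.red a b H
  obtain ⟨n, hn⟩ : ∃ n, n = u ^ 2 - PLOCW.cub a b * v ^ 2 := ⟨_, rfl⟩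
  have hne : n ≠ 0 := by
    rw [hn]
    apply PLOCW.norm_ne
    rintro ⟨h1, h2⟩
    apply hH
    rw [h1, h2, map_zero, zero_mul, add_zero, sub_zero] at huv
    exact huv
  have : NumberField n.SplittingField := NumberField.of_module_finite E n.SplittingField
  have hspl : (n.map (algebraMap E n.SplittingField)).Splits :=
    Polynomial.SplittingField.splits n
  refine ⟨n.SplittingField, inferInstance, inferInstance, inferInstance,
    (n.map (algebraMap E n.SplittingField)).roots.toFinset,
    (((u.map (algebraMap E n.SplittingField)).natDegree +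
      (v.map (algebraMap E n.SplittingField)).natDegree + 3 +
      (n.map (algebraMap E n.SplittingField)).natDegree : ℕ) : ℝ), Nat.cast_nonneg _, ?_⟩
  intro p
  obtain ⟨K, hK⟩ := PLOCW.loc (av p) (algebraMap E n.SplittingField a)
    (algebraMap E n.SplittingField b) (u.map (algebraMap E n.SplittingField))
    (v.map (algebraMap E n.SplittingField)) (n.map (algebraMap E n.SplittingField)) (by
      have h1 : (PLOCW.cub a b).map (algebraMap E n.SplittingField) =
          PLOCW.cub (algebraMap E n.SplittingField a) (algebraMap E n.SplittingField b) := by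
        unfold PLOCW.cub
        simp only [Polynomial.map_add, Polynomial.map_mul, Polynomial.map_pow, Polynomial.map_X,
          Polynomial.map_C]
      rw [← h1, ← Polynomial.map_pow, ← Polynomial.map_pow, ← Polynomial.map_mul,
        ← Polynomial.map_sub, ← hn]) hspl
  have hfin := PLOCW.fin_z a b n hne
  obtain ⟨K0, hK0⟩ := (hfin.image
    (fun z => - Real.log (av p (algebraMap E n.SplittingField (eval z H))))).bddAbove
  refine ⟨|K| + |K0|, fun z hz hHz => ?_⟩
  have hlam : 0 ≤ lam p (n.map (algebraMap E n.SplittingField)).roots.toFinset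
      (algebraMap E n.SplittingField (z 0)) := by
    unfold lam
    apply add_nonneg
    · exact Real.log_nonneg (le_max_left _ _)
    · exact Finset.sum_nonneg fun _ _ => Real.log_nonneg (le_max_left _ _)
  by_cases hnz : n.eval (z 0) = 0
  · have h1 := hK0 ⟨z, ⟨hz, hnz⟩, rfl⟩
    have h2 := mul_nonneg (Nat.cast_nonneg (α := ℝ)
      ((u.map (algebraMap E n.SplittingField)).natDegree +
      (v.map (algebraMap E n.SplittingField)).natDegree + 3 +
      (n.map (algebraMap E n.SplittingField)).natDegree)) hlam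
    have h3 := le_abs_self K0
    have h4 := abs_nonneg K
    simp only at h1
    linarith
  · have hzw : z 1 ^ 2 = z 0 ^ 3 + a * z 0 + b := by
      have h1 := hz
      unfold wei at h1
      simp only [map_sub, map_add, map_mul, map_pow, eval_X, eval_C] at h1
      exact sub_eq_zero.1 h1
    have hHe : eval z H = u.eval (z 0) + v.eval (z 0) * z 1 := by
      obtain ⟨k, hk⟩ := huv
      have h1 := congrArg (eval z) hk
      rw [map_mul, hz, zero_mul, map_sub, map_add, map_mul, PLOCW.ev, PLOCW.ev, eval_X] at h1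
      exact sub_eq_zero.1 h1
    have h1 := hK (algebraMap E n.SplittingField (z 0)) (algebraMap E n.SplittingField (z 1)) (by
      rw [← map_pow, hzw, map_add, map_add, map_mul, map_pow]) (by
      rw [Polynomial.eval_map, Polynomial.eval₂_hom]
      intro h
      exact hnz ((algebraMap E n.SplittingField).injective (by rw [h, map_zero])))
    have h2 : (u.map (algebraMap E n.SplittingField)).eval (algebraMap E n.SplittingField (z 0)) +
        (v.map (algebraMap E n.SplittingField)).eval (algebraMap E n.SplittingField (z 0)) *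
          algebraMap E n.SplittingField (z 1) = algebraMap E n.SplittingField (eval z H) := by
      rw [hHe, Polynomial.eval_map, Polynomial.eval₂_hom, Polynomial.eval_map,
        Polynomial.eval₂_hom, map_add, map_mul]
    rw [h2] at h1
    have h3 := le_abs_self K
    have h4 := abs_nonneg K0
    unfold lam
    linarith

end Pool.Agent.H432.G1
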