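import Mathlib
import Pool.Agent.H432.G1.Stm
import Pool.Agent.H432.AC.Ht
import Pool.Agent.H432.AC.P_FINZ
import Pool.Agent.H432.TC.LineE

/-!
Task PROXE of project G1 (helper695): the proximity function of `D` on an elliptic curve.
-/

set_option autoImplicit false

namespace Pool.Agent.H432.G1.PPROXE

open MvPolynomial NumberField IsDedekindDomain Module Height
open Pool.Agent.N750 (ab)
open Pool.Agent.W180.OP (Pl av wt nrm le_nrm nrm_pos wt_nonneg exists_nrm)
open Pool.Agent.H432.RC (prx prx_ext)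

/-- bound for the values of a polynomial -/
theorem poly_bd {L : Type} [Field L] (g : MvPolynomial (Fin 2) L) :
    ∃ D : ℕ, ∀ f : AbsoluteValue L ℝ, ∃ C : ℝ, 1 ≤ C ∧ ∀ (z : Fin 2 → L) (m : ℝ), 1 ≤ m →
      f (z 0) ≤ m → f (z 1) ≤ m → f (eval z g) ≤ C * m ^ D := by
  induction g using MvPolynomial.induction_on with
  | C a =>
    refine ⟨0, fun f => ⟨1 + f a, by linarith [f.nonneg a], fun z m _ _ _ => ?_⟩⟩
    rw [eval_C, pow_zero]
    linarith [f.nonneg a]
  | add p q hp hq =>
    obtain ⟨D1, h1⟩ := hp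
    obtain ⟨D2, h2⟩ := hq
    refine ⟨D1 + D2, fun f => ?_⟩
    obtain ⟨C1, hC1, h1⟩ := h1 f
    obtain ⟨C2, hC2, h2⟩ := h2 f
    refine ⟨C1 + C2, by linarith, fun z m hm hz0 hz1 => ?_⟩
    rw [map_add]
    have e1 : m ^ D1 ≤ m ^ (D1 + D2) := pow_le_pow_right₀ hm (by omega)
    have e2 : m ^ D2 ≤ m ^ (D1 + D2) := pow_le_pow_right₀ hm (by omega)
    calc f (eval z p + eval z q) ≤ f (eval z p) + f (eval z q) := f.add_le _ _
      _ ≤ C1 * m ^ D1 + C2 * m ^ D2 := add_le_add (h1 z m hm hz0 hz1) (h2 z m hm hz0 hz1)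
      _ ≤ C1 * m ^ (D1 + D2) + C2 * m ^ (D1 + D2) := by gcongr
      _ = _ := by ring
  | mul_X p i hp =>
    obtain ⟨D1, h1⟩ := hp
    refine ⟨D1 + 1, fun f => ?_⟩
    obtain ⟨C1, hC1, h1⟩ := h1 f
    refine ⟨C1, hC1, fun z m hm hz0 hz1 => ?_⟩
    rw [map_mul, eval_X, map_mul]
    have hi : f (z i) ≤ m := by
      fin_cases i
      · exact hz0
      · exact hz1
    calc f (eval z p) * f (z i) ≤ (C1 * m ^ D1) * m :=
          mul_le_mul (h1 z m hm hz0 hz1) hi (f.nonneg _) (by positivity)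
      _ = C1 * m ^ (D1 + 1) := by ring

theorem eval_wei {L : Type} [Field L] (a b : L) (z : Fin 2 → L) :
    eval z (wei a b) = z 1 ^ 2 - (z 0 ^ 3 + a * z 0 + b) := by
  unfold wei
  simp

/-- the bound for `y` -/
theorem y_bd {L : Type} [Field L] (a b : L) (f : AbsoluteValue L ℝ) (z : Fin 2 → L)
    (hz : eval z (wei a b) = 0) :
    f (z 1) ≤ (1 + f a + f b) * max 1 (f (z 0)) ^ 2 := by
  have h1 : z 1 ^ 2 = z 0 ^ 3 + a * z 0 + b := by
    rw [eval_wei] at hz
    exact sub_eq_zero.1 hz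
  obtain ⟨X, hX⟩ : ∃ X, X = max 1 (f (z 0)) := ⟨_, rfl⟩
  have hX1 : 1 ≤ X := by rw [hX]; exact le_max_left _ _
  have hX0 : f (z 0) ≤ X := by rw [hX]; exact le_max_right _ _
  have ha := f.nonneg a
  have hb := f.nonneg b
  have h2 : f (z 1) ^ 2 ≤ (1 + f a + f b) * X ^ 3 := by
    rw [← map_pow, h1]
    have e1 : f (z 0 ^ 3) ≤ X ^ 3 := by
      rw [map_pow]
      exact pow_le_pow_left₀ (f.nonneg _) hX0 3
    have e2 : f (a * z 0) ≤ f a * X ^ 3 := by
      rw [map_mul]
      have : X ≤ X ^ 3 := le_self_pow₀ hX1 (by norm_num)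
      exact mul_le_mul_of_nonneg_left (hX0.trans this) ha
    have e3 : f b ≤ f b * X ^ 3 := le_mul_of_one_le_right hb (one_le_pow₀ hX1)
    calc f (z 0 ^ 3 + a * z 0 + b) ≤ f (z 0 ^ 3) + f (a * z 0) + f b :=
          (f.add_le _ _).trans (by linarith [f.add_le (z 0 ^ 3) (a * z 0)])
      _ ≤ X ^ 3 + f a * X ^ 3 + f b * X ^ 3 := by linarith
      _ = _ := by ring
  rw [← hX]
  have h3 : f (z 1) ^ 2 ≤ ((1 + f a + f b) * X ^ 2) ^ 2 := by
    refine h2.trans ?_
    have e4 : (1 : ℝ) ≤ 1 + f a + f b := by linarith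
    have e5 : (1 + f a + f b) ≤ (1 + f a + f b) ^ 2 := le_self_pow₀ e4 (by norm_num)
    have e6 : X ^ 3 ≤ X ^ 4 := pow_le_pow_right₀ hX1 (by norm_num)
    calc (1 + f a + f b) * X ^ 3 ≤ (1 + f a + f b) ^ 2 * X ^ 4 := by gcongr
      _ = _ := by ring
  exact abs_le_of_sq_le_sq' h3 (by positivity) |>.2

/-- logarithmic bound for the map -/
theorem phi_bd {L : Type} [Field L] (a b : L) {M : ℕ} (φ : Fin M → MvPolynomial (Fin 2) L) :
    ∃ D : ℕ, ∀ f : AbsoluteValue L ℝ, ∃ C : ℝ, 0 ≤ C ∧ ∀ z : Fin 2 → L, eval z (wei a b) = 0 →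
      ∀ l, eval z (φ l) ≠ 0 → Real.log (f (eval z (φ l))) ≤ D * Real.log (max 1 (f (z 0))) + C := by
  choose D hD using fun l => poly_bd (φ l)
  refine ⟨2 * ∑ l, D l, fun f => ?_⟩
  choose C hC1 hC using fun l => hD l f
  have ha := f.nonneg a
  have hb := f.nonneg b
  have hB : (1 : ℝ) ≤ 1 + f a + f b := by linarith
  have hlB : 0 ≤ Real.log (1 + f a + f b) := Real.log_nonneg hB
  have hlC : ∀ l, 0 ≤ Real.log (C l) := fun l => Real.log_nonneg (hC1 l)
  refine ⟨∑ l, Real.log (C l) + (∑ l, (D l : ℝ)) * Real.log (1 + f a + f b), ?_, ?_⟩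
  · have : 0 ≤ ∑ l, Real.log (C l) := Finset.sum_nonneg fun l _ => hlC l
    have : 0 ≤ (∑ l, (D l : ℝ)) * Real.log (1 + f a + f b) :=
      mul_nonneg (Finset.sum_nonneg fun l _ => Nat.cast_nonneg _) hlB
    linarith
  · intro z hz l hl
    obtain ⟨X, hX⟩ : ∃ X, X = max 1 (f (z 0)) := ⟨_, rfl⟩
    have hX1 : 1 ≤ X := by rw [hX]; exact le_max_left _ _
    have hX0 : f (z 0) ≤ X := by rw [hX]; exact le_max_right _ _
    have hy := y_bd a b f z hz
    rw [← hX] at hy ⊢
    have hm1 : 1 ≤ (1 + f a + f b) * X ^ 2 := by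
      have := one_le_pow₀ hX1 (n := 2)
      nlinarith
    have hm0 : f (z 0) ≤ (1 + f a + f b) * X ^ 2 := by
      have h5 : X ≤ X ^ 2 := le_self_pow₀ hX1 (by norm_num)
      have h6 : X ^ 2 ≤ (1 + f a + f b) * X ^ 2 := le_mul_of_one_le_left (by positivity) hB
      linarith
    have h1 := hC l z _ hm1 hm0 hy
    have hpos : 0 < f (eval z (φ l)) := f.pos hl
    have h2 := Real.log_le_log hpos h1
    have hCl : 0 < C l := by linarith [hC1 l]
    have hXp : 0 < X := by linarith
    rw [Real.log_mul hCl.ne' (by positivity), Real.log_pow, Real.log_mul (by linarith) (by positivity),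
      Real.log_pow] at h2
    have h3 : Real.log (C l) ≤ ∑ l, Real.log (C l) :=
      Finset.single_le_sum (f := fun l => Real.log (C l)) (fun i _ => hlC i) (Finset.mem_univ l)
    have h4 : (D l : ℝ) ≤ ∑ l, (D l : ℝ) :=
      Finset.single_le_sum (f := fun l => (D l : ℝ)) (fun i _ => Nat.cast_nonneg _)
        (Finset.mem_univ l)
    have hlX : 0 ≤ Real.log X := Real.log_nonneg hX1
    have h5 := mul_le_mul_of_nonneg_right h4 hlB
    have h6 := mul_le_mul_of_nonneg_right h4 hlX
    push_cast at h2 ⊢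
    nlinarith

theorem le_lam {E : Type} [Field E] [NumberField E] (p : Pl E) (A : Finset E) (x : E) :
    Real.log (max 1 (av p x)) ≤ lam p A x := by
  unfold lam
  have : 0 ≤ ∑ α ∈ A, Real.log (max 1 (av p (x - α))⁻¹) :=
    Finset.sum_nonneg fun α _ => Real.log_nonneg (le_max_left _ _)
  linarith

end Pool.Agent.H432.G1.PPROXE

namespace Pool.Agent.H432.G1

open MvPolynomial NumberField IsDedekindDomain Module Height
open Pool.Agent.N750 (ab)
open Pool.Agent.W180.OP (Pl av wt nrm le_nrm nrm_pos wt_nonneg exists_nrm)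
open Pool.Agent.H432.RC (prx prx_ext)

theorem proxe (irrw : S_IRRW) (_pext : S_PEXT) (siegw : S_SIEGW) (locw : S_LOCW) : S_PROXE := by
  intro k L _ _ _ _ _ M q w F δ hF a b hab φ hφ T ε hε
  classical
  choose jj hjj using hφ
  obtain ⟨H, hHdef⟩ : ∃ H, H = ∏ i, aeval φ (F i (jj i)) := ⟨_, rfl⟩
  have hirr := irrw L a b
  have hprime : Prime (wei a b) := hirr.prime
  have hH : ¬ wei a b ∣ H := by
    intro h
    rw [hHdef] at h
    obtain ⟨i, -, hi⟩ := (hprime.dvd_finsetProd_iff _).1 h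
    exact hjj i hi
  obtain ⟨E', _, _, _, A, C1, hC1, hloc⟩ := locw L a b H hH
  let _ : Algebra k E' := ((algebraMap L E').comp (algebraMap k L)).toAlgebra
  have : IsScalarTower k L E' := IsScalarTower.of_algebraMap_eq fun _ => rfl
  have : FiniteDimensional L E' := Module.Finite.of_restrictScalars_finite ℚ L E'
  have hfin : 0 < finrank L E' := Module.finrank_pos
  have hn1 : (1 : ℝ) ≤ finrank L E' := by exact_mod_cast hfin
  obtain ⟨D, hD⟩ := PPROXE.phi_bd a b φ
  obtain ⟨Δ, hΔ⟩ : ∃ Δ : ℝ, Δ = ∑ i, (δ i : ℝ) := ⟨_, rfl⟩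
  have hΔ0 : 0 ≤ Δ := by rw [hΔ]; exact Finset.sum_nonneg fun i _ => Nat.cast_nonneg _
  obtain ⟨C3, hC3⟩ : ∃ C3 : ℝ, C3 = Δ * D + C1 := ⟨_, rfl⟩
  have hC30 : 0 ≤ C3 := by
    rw [hC3]
    have : 0 ≤ Δ * (D : ℝ) := mul_nonneg hΔ0 (Nat.cast_nonneg _)
    linarith
  -- local inequality
  have key : ∀ p : Pl E', ∃ C : ℝ, ∀ z : Fin 2 → L, eval z (wei a b) = 0 → eval z H ≠ 0 →
      (fun l => eval z (φ l)) ≠ 0 →
      ∑ i, ((δ i : ℝ) * Real.log (nrm (av p) (fun l => algebraMap L E' (eval z (φ l)))) -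
        Real.log (nrm (av p) fun j => aeval (fun l => algebraMap L E' (eval z (φ l))) (F i j))) ≤
      C3 * lam p A (algebraMap L E' (z 0)) + C := by
    intro p
    obtain ⟨f, hf⟩ : ∃ f : AbsoluteValue L ℝ, f = (av p).comp (algebraMap L E').injective := ⟨_, rfl⟩
    have hfa : ∀ x, f x = av p (algebraMap L E' x) := fun x => by rw [hf]; rfl
    obtain ⟨C, hC0, hC⟩ := hD f
    obtain ⟨C', hC'⟩ := hloc p
    refine ⟨Δ * C + C', fun z hz hzH hφz => ?_⟩
    -- the norm
    have hM : 0 < M := by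
      rcases Nat.eq_zero_or_pos M with h0 | h0
      · exfalso
        apply hφz
        subst h0
        funext l
        exact l.elim0
      · exact h0
    have hne : (fun l => algebraMap L E' (eval z (φ l))) ≠ 0 := by
      intro h
      apply hφz
      funext l
      have := congrFun h l
      exact (map_eq_zero _).1 this
    have hnorm : Real.log (nrm (av p) (fun l => algebraMap L E' (eval z (φ l)))) ≤
        D * lam p A (algebraMap L E' (z 0)) + C := by
      obtain ⟨l, hl⟩ := exists_nrm (av p) hM (fun l => algebraMap L E' (eval z (φ l)))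
      have hpos := nrm_pos (av p) hne
      rw [← hl] at hpos ⊢
      have hl0 : eval z (φ l) ≠ 0 := by
        intro h
        rw [h, map_zero, map_zero] at hpos
        exact lt_irrefl _ hpos
      have h1 := hC z hz l hl0
      rw [hfa, hfa] at h1
      refine h1.trans ?_
      have h2 := PPROXE.le_lam p A (algebraMap L E' (z 0))
      have h3 := mul_le_mul_of_nonneg_left h2 (Nat.cast_nonneg D : (0 : ℝ) ≤ D)
      linarith
    have hevH : ∀ i, eval z (aeval φ (F i (jj i))) ≠ 0 := by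
      intro i h
      apply hzH
      rw [hHdef, map_prod]
      exact Finset.prod_eq_zero (Finset.mem_univ i) h
    have hnF : ∀ i, Real.log (av p (algebraMap L E' (eval z (aeval φ (F i (jj i)))))) ≤
        Real.log (nrm (av p) fun j => aeval (fun l => algebraMap L E' (eval z (φ l))) (F i j)) := by
      intro i
      have e1 : algebraMap L E' (eval z (aeval φ (F i (jj i)))) =
          aeval (fun l => algebraMap L E' (eval z (φ l))) (F i (jj i)) := by
        rw [Pool.Agent.H432.AC.eval_aev, Pool.Agent.H432.RC.aeval_am]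
      have hp0 : 0 < av p (algebraMap L E' (eval z (aeval φ (F i (jj i))))) :=
        (av p).pos ((map_ne_zero _).2 (hevH i))
      refine Real.log_le_log hp0 ?_
      rw [e1]
      exact le_nrm (av p) (fun j => aeval (fun l => algebraMap L E' (eval z (φ l))) (F i j)) (jj i)
    have hprod : ∑ i, Real.log (av p (algebraMap L E' (eval z (aeval φ (F i (jj i)))))) =
        Real.log (av p (algebraMap L E' (eval z H))) := by
      rw [hHdef, map_prod, map_prod, map_prod, Real.log_prod]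
      intro i _
      exact ((av p).pos ((map_ne_zero _).2 (hevH i))).ne'
    have h4 := hC' z hz hzH
    calc ∑ i, ((δ i : ℝ) * Real.log (nrm (av p) (fun l => algebraMap L E' (eval z (φ l)))) -
        Real.log (nrm (av p) fun j => aeval (fun l => algebraMap L E' (eval z (φ l))) (F i j)))
        ≤ ∑ i, ((δ i : ℝ) * (D * lam p A (algebraMap L E' (z 0)) + C) -
          Real.log (av p (algebraMap L E' (eval z (aeval φ (F i (jj i))))))) := by
          refine Finset.sum_le_sum fun i _ => ?_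
          have h5 := mul_le_mul_of_nonneg_left hnorm (Nat.cast_nonneg (δ i) : (0 : ℝ) ≤ δ i)
          linarith [hnF i]
      _ = Δ * (D * lam p A (algebraMap L E' (z 0)) + C) -
          Real.log (av p (algebraMap L E' (eval z H))) := by
          rw [Finset.sum_sub_distrib, ← Finset.sum_mul, hprod, hΔ]
      _ ≤ C3 * lam p A (algebraMap L E' (z 0)) + (Δ * C + C') := by
          rw [hC3]
          nlinarith
  choose Cp hCp using key
  -- Siegel over E'
  have hab' : 4 * (algebraMap L E' a) ^ 3 + 27 * (algebraMap L E' b) ^ 2 ≠ 0 := by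
    intro h
    apply hab
    apply (algebraMap L E').injective
    have h4 : algebraMap L E' 4 = 4 := map_ofNat (algebraMap L E') 4
    have h27 : algebraMap L E' 27 = 27 := map_ofNat (algebraMap L E') 27
    rw [map_zero, ← h, map_add, map_mul, map_mul, map_pow, map_pow, h4, h27]
  have hε' : 0 < ε / (C3 + 1) := by positivity
  obtain ⟨K2, hK2⟩ := siegw E' (algebraMap L E' a) (algebraMap L E' b) hab'
    (T.biUnion (ab E')) A (ε / (C3 + 1)) hε'
  obtain ⟨K1, hK1⟩ : ∃ K1, K1 = ∑ p ∈ T.biUnion (ab E'), wt p * Cp p := ⟨_, rfl⟩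
  -- the exceptional points
  have hZ := Pool.Agent.H432.AC.finz L (wei a b) H hirr hH
  obtain ⟨K0, hK0⟩ : ∃ K0, K0 = ∑ z ∈ hZ.toFinset, |prx T F δ (fun l => eval z (φ l))| := ⟨_, rfl⟩
  have hK00 : 0 ≤ K0 := by rw [hK0]; exact Finset.sum_nonneg fun z _ => abs_nonneg _
  refine ⟨K0 + |C3 * K2 + K1|, fun z hz hφz hFz => ?_⟩
  have hh : 0 ≤ logHeight₁ (z 0) := zero_le_logHeight₁ _
  by_cases hzH : eval z H = 0
  · have hmem : z ∈ hZ.toFinset := by
      rw [Set.Finite.mem_toFinset]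
      exact ⟨hz, hzH⟩
    have h1 : |prx T F δ (fun l => eval z (φ l))| ≤ K0 := by
      rw [hK0]
      exact Finset.single_le_sum (f := fun z => |prx T F δ (fun l => eval z (φ l))|)
        (fun i _ => abs_nonneg _) hmem
    have h2 := le_abs_self (prx T F δ (fun l => eval z (φ l)))
    have h3 := abs_nonneg (C3 * K2 + K1)
    have h4 : 0 ≤ ε * logHeight₁ (z 0) := mul_nonneg hε.le hh
    linarith
  · have hext := prx_ext (K' := E') T F δ (fun l => eval z (φ l)) hφz hFz
    have h1 : prx (T.biUnion (ab E')) F δ (fun l => algebraMap L E' (eval z (φ l))) ≤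
        C3 * prox (T.biUnion (ab E')) A (algebraMap L E' (z 0)) + K1 := by
      unfold prx prox
      rw [Finset.mul_sum, hK1, ← Finset.sum_add_distrib]
      refine Finset.sum_le_sum fun p _ => ?_
      have h2 := mul_le_mul_of_nonneg_left (hCp p z hz hzH hφz) (wt_nonneg p)
      refine h2.trans (le_of_eq ?_)
      ring
    have hcurve : (algebraMap L E' (z 1)) ^ 2 = (algebraMap L E' (z 0)) ^ 3 +
        algebraMap L E' a * algebraMap L E' (z 0) + algebraMap L E' b := by
      have h5 : z 1 ^ 2 = z 0 ^ 3 + a * z 0 + b := by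
        have h6 := hz
        rw [PPROXE.eval_wei] at h6
        exact sub_eq_zero.1 h6
      rw [← map_pow, h5]
      simp
    have h7 := hK2 _ _ hcurve
    rw [Pool.Agent.H432.TC.logHeight₁_ext] at h7
    rw [hext] at h1
    obtain ⟨n, hn⟩ : ∃ n : ℝ, n = finrank L E' := ⟨_, rfl⟩
    rw [← hn] at h1 h7 hn1
    have h8 : n * prx T F δ (fun l => eval z (φ l)) ≤
        C3 * (ε / (C3 + 1) * (n * logHeight₁ (z 0)) + K2) + K1 :=
      h1.trans (by linarith [mul_le_mul_of_nonneg_left h7 hC30])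
    have h9 : C3 * (ε / (C3 + 1)) ≤ ε := by
      rw [← mul_div_assoc, div_le_iff₀ (by linarith)]
      nlinarith
    have h10 : C3 * (ε / (C3 + 1)) * (n * logHeight₁ (z 0)) ≤ ε * (n * logHeight₁ (z 0)) :=
      mul_le_mul_of_nonneg_right h9 (by positivity)
    have h11 : C3 * K2 + K1 ≤ n * |C3 * K2 + K1| := by
      have h12 := le_abs_self (C3 * K2 + K1)
      have h13 := le_mul_of_one_le_left (abs_nonneg (C3 * K2 + K1)) hn1
      linarith
    have h14 : n * prx T F δ (fun l => eval z (φ l)) ≤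
        n * (ε * logHeight₁ (z 0) + |C3 * K2 + K1|) := by
      nlinarith
    have h15 := le_of_mul_le_mul_left h14 (by linarith)
    linarith

end Pool.Agent.H432.G1
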