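import Mathlib
import Pool.Agent.H432.G1.Stm
import Pool.Graph.R_seed8.R405.SchV
import Pool.Graph.R_seed8.R405.Big
import Pool.Graph.R_pool_sql_team_seeded_63374d34.N830.VR.P_ROTH

/-!
# G1/ROTH1: Roth's theorem for several places and points, sum form
-/

set_option autoImplicit false
set_option linter.unusedVariables false

namespace Pool.Agent.H432.G1

open NumberField IsDedekindDomain Module Height
open Pool.Agent.W180.OP (Pl av wt nrm wt_nonneg le_nrm exists_nrm)
open Pool.Agent.R405 (Good schV dot exv exists_good exists_big)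
open Pool.Agent.N830.VR.Roth (LL dot_none dot_some)

namespace PROTH1

section loc

variable {K : Type} [Field K] {Y : Type}

/-- the distances to the points -/
noncomputable def el (f : AbsoluteValue K ℝ) (y : Y → K) (s : K) : Option Y → ℝ
  | none => 1
  | some i => f (s - y i)

theorem el_pos (f : AbsoluteValue K ℝ) (y : Y → K) (s : K) (hs : ∀ i, s ≠ y i) (R : Option Y) :
    0 < el f y s R := by
  rcases R with _ | i
  · exact one_pos
  · exact f.pos (sub_ne_zero.2 (hs i))

theorem sep_aux (f : AbsoluteValue K ℝ) (y : Y → K) (i : Y) (s : K) (N : ℝ)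
    (hN : N ≤ 1 + f s) : N ≤ (2 + f (y i)) * max 1 (f (s - y i)) := by
  have h1 : f s ≤ f (s - y i) + f (y i) := by
    have := f.add_le (s - y i) (y i)
    rwa [sub_add_cancel] at this
  have h2 := le_max_left (1 : ℝ) (f (s - y i))
  have h3 := le_max_right (1 : ℝ) (f (s - y i))
  have h4 := f.nonneg (y i)
  nlinarith

theorem sep (f : AbsoluteValue K ℝ) (y : Y → K) (hy : Function.Injective y)
    (p : Option Y × Option Y) : ∃ b : ℝ, 1 ≤ b ∧ (p.1 ≠ p.2 → ∀ (s : K) (N : ℝ), N ≤ 1 + f s →
      N ≤ b * max (el f y s p.1) (el f y s p.2)) := by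
  obtain ⟨R, R'⟩ := p
  rcases R with _ | i <;> rcases R' with _ | j
  · exact ⟨1, le_rfl, fun h => absurd rfl h⟩
  · have h4 := f.nonneg (y j)
    exact ⟨2 + f (y j), by linarith, fun _ s N hN => sep_aux f y j s N hN⟩
  · have h4 := f.nonneg (y i)
    refine ⟨2 + f (y i), by linarith, fun _ s N hN => ?_⟩
    have := sep_aux f y i s N hN
    rw [max_comm] at this
    exact this
  · by_cases hij : i = j
    · exact ⟨1, le_rfl, fun h => absurd (by rw [hij]) h⟩
    · have hd : 0 < f (y i - y j) := f.pos (sub_ne_zero.2 fun h => hij (hy h))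
      have h4 := f.nonneg (y i)
      refine ⟨2 * (1 + f (y i)) / f (y i - y j) + 1, ?_, fun _ s N hN => ?_⟩
      · have : 0 ≤ 2 * (1 + f (y i)) / f (y i - y j) := by positivity
        linarith
      · show N ≤ _ * max (f (s - y i)) (f (s - y j))
        obtain ⟨m, hm⟩ : ∃ m, m = max (f (s - y i)) (f (s - y j)) := ⟨_, rfl⟩
        rw [← hm]
        have h1 : f (s - y i) ≤ m := by rw [hm]; exact le_max_left _ _
        have h2 : f (s - y j) ≤ m := by rw [hm]; exact le_max_right _ _
        have h3 : f (y i - y j) ≤ 2 * m := by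
          have e : y i - y j = (s - y j) + -(s - y i) := by ring
          rw [e]
          refine (f.add_le _ _).trans ?_
          rw [f.map_neg]
          linarith
        have h5 : f s ≤ f (s - y i) + f (y i) := by
          have := f.add_le (s - y i) (y i)
          rwa [sub_add_cancel] at this
        have h6 : 1 + f (y i) ≤ 2 * (1 + f (y i)) / f (y i - y j) * m := by
          rw [div_mul_eq_mul_div, le_div_iff₀ hd]
          nlinarith
        linarith

/-- the nearest point -/
theorem near [Fintype Y] [Nonempty Y] (f : AbsoluteValue K ℝ) (y : Y → K)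
    (hy : Function.Injective y) : ∃ C : ℝ, 0 ≤ C ∧ ∀ (s : K) (N : ℝ), (∀ i, s ≠ y i) → 1 ≤ N →
      f s ≤ N → N ≤ 1 + f s → ∃ P Q : Option Y, P ≠ Q ∧
        ∑ R, max 0 (Real.log N - Real.log (el f y s R)) ≤
          (Real.log N - Real.log (el f y s P)) + (Real.log N - Real.log (el f y s Q)) + C := by
  classical
  choose b hb1 hb2 using fun p => sep f y hy p
  obtain ⟨B, hB⟩ : ∃ B : ℝ, B = ∑ p, b p := ⟨_, rfl⟩
  have hbB : ∀ p, b p ≤ B := fun p => by
    rw [hB]
    exact Finset.single_le_sum (f := b) (fun q _ => le_trans zero_le_one (hb1 q))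
      (Finset.mem_univ p)
  have hB1 : 1 ≤ B := (hb1 (none, none)).trans (hbB _)
  have hlB : 0 ≤ Real.log B := Real.log_nonneg hB1
  obtain ⟨D, hD⟩ : ∃ D : ℝ, D = ∑ i, Real.log (1 + f (y i)) := ⟨_, rfl⟩
  have hpos : ∀ i, 0 ≤ Real.log (1 + f (y i)) := fun i =>
    Real.log_nonneg (by linarith [f.nonneg (y i)])
  have hD0 : 0 ≤ D := by rw [hD]; exact Finset.sum_nonneg fun i _ => hpos i
  refine ⟨2 * D + Fintype.card (Option Y) * Real.log B, by positivity, ?_⟩
  intro s N hs hN1 hN2 hN3
  have hN0 : 0 < N := by linarith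
  have hlN : 0 ≤ Real.log N := Real.log_nonneg hN1
  have hep := el_pos f y s hs
  -- the lower bound
  have hlow : ∀ R, -D ≤ Real.log N - Real.log (el f y s R) := by
    intro R
    rcases R with _ | i
    · show -D ≤ Real.log N - Real.log 1
      rw [Real.log_one]
      linarith
    · show -D ≤ Real.log N - Real.log (f (s - y i))
      have h1 : f (s - y i) ≤ N * (1 + f (y i)) := by
        have h2 : f (s - y i) ≤ f s + f (y i) := by
          rw [sub_eq_add_neg, ← f.map_neg (y i)]
          exact f.add_le _ _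
        have h3 := f.nonneg (y i)
        nlinarith
      have h2 : Real.log (f (s - y i)) ≤ Real.log (N * (1 + f (y i))) :=
        Real.log_le_log (hep (some i)) h1
      rw [Real.log_mul hN0.ne' (by linarith [f.nonneg (y i)])] at h2
      have h3 : Real.log (1 + f (y i)) ≤ D := by
        rw [hD]
        exact Finset.single_le_sum (f := fun i => Real.log (1 + f (y i))) (fun i _ => hpos i)
          (Finset.mem_univ i)
      linarith
  obtain ⟨P, hP⟩ := Finite.exists_min (el f y s)
  have hup : ∀ R, R ≠ P → max 0 (Real.log N - Real.log (el f y s R)) ≤ Real.log B := by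
    intro R hR
    refine max_le hlB ?_
    have h1 := hb2 (R, P) hR s N hN3
    rw [max_eq_left (hP R)] at h1
    have h2 : N ≤ B * el f y s R := h1.trans (mul_le_mul_of_nonneg_right (hbB _) (hep R).le)
    have h3 := Real.log_le_log hN0 h2
    rw [Real.log_mul (by linarith) (hep R).ne'] at h3
    linarith
  obtain ⟨Q, hQ⟩ := exists_ne P
  refine ⟨P, Q, hQ.symm, ?_⟩
  rw [← Finset.add_sum_erase _ _ (Finset.mem_univ P)]
  have h1 : ∑ R ∈ Finset.univ.erase P, max 0 (Real.log N - Real.log (el f y s R)) ≤
      Fintype.card (Option Y) * Real.log B := by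
    refine (Finset.sum_le_card_nsmul _ _ (Real.log B) fun R hR => hup R (Finset.ne_of_mem_erase hR)).trans ?_
    rw [nsmul_eq_mul]
    refine mul_le_mul_of_nonneg_right ?_ hlB
    exact_mod_cast Finset.card_le_univ _
  have h2 : max 0 (Real.log N - Real.log (el f y s P)) ≤
      Real.log N - Real.log (el f y s P) + D := max_le (by linarith [hlow P]) (by linarith)
  have h3 := hlow Q
  linarith

end loc

/-- the local height and the distances -/
theorem lam_le {L K : Type} [Field L] [NumberField L] [Field K] [Algebra L K] (p : Pl L)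
    (f : AbsoluteValue K ℝ) (hf : ∀ x : L, f (algebraMap L K x) = av p x) (A : Finset L) (x : L)
    (hx : x ∉ A) (N : ℝ) (hN : 1 ≤ N) (hN2 : av p x ≤ N) :
    lam p A x ≤ ∑ R : Option {α // α ∈ A}, max 0 (Real.log N -
      Real.log (el f (fun i : {α // α ∈ A} => algebraMap L K i.1) (algebraMap L K x) R)) := by
  have hlN : 0 ≤ Real.log N := Real.log_nonneg hN
  rw [Fintype.sum_option]
  unfold lam
  refine add_le_add ?_ ?_
  · show _ ≤ max 0 (Real.log N - Real.log 1)
    rw [Real.log_one, sub_zero]
    refine le_trans ?_ (le_max_right _ _)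
    exact Real.log_le_log (lt_of_lt_of_le one_pos (le_max_left _ _)) (max_le hN hN2)
  · rw [← Finset.sum_coe_sort A]
    refine Finset.sum_le_sum fun i _ => ?_
    show _ ≤ max 0 (Real.log N - Real.log (f (algebraMap L K x - algebraMap L K i.1)))
    rw [← map_sub, hf]
    have hne : x - i.1 ≠ 0 := by
      intro h
      apply hx
      rw [sub_eq_zero.1 h]
      exact i.2
    have hpos : 0 < av p (x - i.1) := (av p).pos hne
    rcases le_total (av p (x - i.1))⁻¹ 1 with h | h
    · rw [max_eq_left h, Real.log_one]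
      exact le_max_left _ _
    · rw [max_eq_right h, Real.log_inv]
      refine le_trans ?_ (le_max_right _ _)
      linarith

theorem det_ne {K Y : Type} [Field K] (y : Y → K) (hy : Function.Injective y) (P Q : Option Y)
    (h : P ≠ Q) : (Matrix.of fun a => LL y ((![P, Q] : Fin 2 → Option Y) a)).det ≠ 0 := by
  rw [Matrix.det_fin_two]
  rcases P with _ | i <;> rcases Q with _ | j
  · exact absurd rfl h
  · simp [LL]
  · simp [LL]
  · simp only [LL, Matrix.of_apply, Matrix.cons_val_zero, Matrix.cons_val_one]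
    intro h2
    apply h
    have : y i = y j := by linear_combination h2
    rw [hy this]

theorem lam_mono {L : Type} [Field L] [NumberField L] (p : Pl L) {A A' : Finset L} (h : A ⊆ A')
    (x : L) : lam p A x ≤ lam p A' x := by
  unfold lam
  refine add_le_add le_rfl ?_
  refine Finset.sum_le_sum_of_subset_of_nonneg h fun α _ _ => ?_
  exact Real.log_nonneg (le_max_left _ _)

theorem main (L : Type) [Field L] [NumberField L] (T : Finset (Pl L)) (A : Finset L)
    (hA : A.Nonempty) (ε : ℝ) (hε : 0 < ε) :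
    ∃ C : ℝ, 0 ≤ C ∧ ∃ E : Finset L, ∀ x : L, x ∉ E →
      prox T A x ≤ (2 + ε) * logHeight₁ x + C := by
  classical
  obtain ⟨M, hM1, hM2, hi, ⟨φ⟩⟩ := exists_big L
  have : NumberField M := ⟨⟩
  let _ : Algebra L M := φ.toAlgebra
  have : Nonempty {α // α ∈ A} := ⟨⟨hA.choose, hA.choose_spec⟩⟩
  obtain ⟨y, hydef⟩ : ∃ y : {α // α ∈ A} → M, y = fun i => algebraMap L M i.1 := ⟨_, rfl⟩
  have hy : Function.Injective y := by
    intro i j h
    rw [hydef] at h
    exact Subtype.ext ((algebraMap L M).injective h)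
  obtain ⟨Z, hZ0, hZ⟩ := schV (k := L) (K := M) (n := 2) hi (by norm_num) (LL y)
  choose f hf using fun v : Pl L => exists_good (K := M) v
  obtain ⟨C, hC0, hC⟩ := hZ T f (fun v _ => hf v) ε hε
  choose c hc0 hc using fun v : Pl L => near (f v) y hy
  refine ⟨C + ∑ v ∈ T, wt v * c v, add_nonneg hC0 (Finset.sum_nonneg fun v _ =>
    mul_nonneg (wt_nonneg v) (hc0 v)), A ∪ Z.image (fun z => -z 1 / z 0), fun x hx => ?_⟩
  rw [Finset.mem_union, not_or] at hx
  obtain ⟨hxA, hxZ⟩ := hx
  have hxy : ∀ i, algebraMap L M x ≠ y i := by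
    intro i h
    rw [hydef] at h
    have := (algebraMap L M).injective h
    exact hxA (this ▸ i.2)
  -- the norms
  have hN1 : ∀ v : Pl L, 1 ≤ nrm (av v) ![x, 1] := fun v => by
    have := le_nrm (av v) ![x, 1] 1
    simpa using this
  have hN2 : ∀ v : Pl L, av v x ≤ nrm (av v) ![x, 1] := fun v => by
    have := le_nrm (av v) ![x, 1] 0
    simpa using this
  have hN3 : ∀ v : Pl L, nrm (av v) ![x, 1] ≤ 1 + av v x := fun v => by
    obtain ⟨j, hj⟩ := exists_nrm (av v) (n := 2) (by norm_num) ![x, 1]
    rw [← hj]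
    have h0 := (av v).nonneg x
    fin_cases j
    · show av v x ≤ _
      linarith
    · show av v 1 ≤ _
      rw [map_one]
      linarith
  have hloc : ∀ v : Pl L, ∃ P Q : Option {α // α ∈ A}, P ≠ Q ∧
      ∑ R, max 0 (Real.log (nrm (av v) ![x, 1]) -
        Real.log (el (f v) y (algebraMap L M x) R)) ≤
          (Real.log (nrm (av v) ![x, 1]) - Real.log (el (f v) y (algebraMap L M x) P)) +
          (Real.log (nrm (av v) ![x, 1]) - Real.log (el (f v) y (algebraMap L M x) Q)) +
            c v := fun v =>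
    hc v (algebraMap L M x) _ hxy (hN1 v) (by rw [(hf v).ext]; exact hN2 v)
      (by rw [(hf v).ext]; exact hN3 v)
  choose P Q hPQ hsum using hloc
  have hel : ∀ (v : Pl L) (R : Option {α // α ∈ A}),
      f v (dot (LL y R) (exv M ![x, 1])) = el (f v) y (algebraMap L M x) R := by
    intro v R
    rcases R with _ | i
    · rw [dot_none, map_one]
      rfl
    · rw [dot_some]
      rfl
  have h1 := hC ![x, 1] (fun h => by simpa using congrFun h 1) (by
    intro z hz h0
    rw [Fin.sum_univ_two] at h0
    simp only [Matrix.cons_val_zero, Matrix.cons_val_one, mul_one] at h0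
    by_cases hz0 : z 0 = 0
    · apply hZ0 z hz
      rw [hz0, zero_mul, zero_add] at h0
      funext j
      fin_cases j
      · exact hz0
      · exact h0
    · apply hxZ
      refine Finset.mem_image.2 ⟨z, hz, ?_⟩
      field_simp
      linear_combination -h0) (by
    intro l
    rcases l with _ | i
    · rw [dot_none]; exact one_ne_zero
    · rw [dot_some]; exact sub_ne_zero.2 (hxy i)) (fun v => ![P v, Q v])
      (fun v _ => det_ne y hy (P v) (Q v) (hPQ v))
  have h2 : ∀ v ∈ T, wt v * lam v A x ≤
      wt v * ∑ a, (Real.log (nrm (av v) ![x, 1]) -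
        Real.log (f v (dot (LL y ((![P v, Q v] : Fin 2 → Option {α // α ∈ A}) a))
          (exv M ![x, 1])))) + wt v * c v := by
    intro v _
    rw [← mul_add]
    refine mul_le_mul_of_nonneg_left ?_ (wt_nonneg v)
    rw [Fin.sum_univ_two]
    simp only [Matrix.cons_val_zero, Matrix.cons_val_one]
    rw [hel, hel]
    refine le_trans ?_ (hsum v)
    have h3 := lam_le v (f v) (fun x => (hf v).ext x) A x hxA _ (hN1 v) (hN2 v)
    rw [hydef]
    exact h3
  rw [logHeight₁_eq_logHeight]
  unfold prox
  calc ∑ v ∈ T, wt v * lam v A x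
      ≤ ∑ v ∈ T, (wt v * ∑ a, (Real.log (nrm (av v) ![x, 1]) -
        Real.log (f v (dot (LL y ((![P v, Q v] : Fin 2 → Option {α // α ∈ A}) a))
          (exv M ![x, 1])))) + wt v * c v) := Finset.sum_le_sum h2
    _ = (∑ v ∈ T, wt v * ∑ a, (Real.log (nrm (av v) ![x, 1]) -
        Real.log (f v (dot (LL y ((![P v, Q v] : Fin 2 → Option {α // α ∈ A}) a))
          (exv M ![x, 1]))))) + ∑ v ∈ T, wt v * c v := Finset.sum_add_distrib
    _ ≤ _ := by
      push_cast at h1
      linarith

end PROTH1

open PROTH1 in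
/-- **ROTH1** -/
theorem roth1 : S_ROTH1 := by
  classical
  intro L _ _ T A ε hε
  obtain ⟨C, hC0, E, hC⟩ := main L T (insert 0 A) (Finset.insert_nonempty _ _) ε hε
  refine ⟨C + ∑ x ∈ E, |prox T A x|, fun x => ?_⟩
  have hh : 0 ≤ logHeight₁ x := zero_le_logHeight₁ x
  have hS : 0 ≤ ∑ x ∈ E, |prox T A x| := Finset.sum_nonneg fun _ _ => abs_nonneg _
  by_cases hx : x ∈ E
  · have h1 : |prox T A x| ≤ ∑ x ∈ E, |prox T A x| :=
      Finset.single_le_sum (f := fun x => |prox T A x|) (fun _ _ => abs_nonneg _) hx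
    have h2 := le_abs_self (prox T A x)
    have h3 : 0 ≤ (2 + ε) * logHeight₁ x := by positivity
    linarith
  · have h1 := hC x hx
    have h2 : prox T A x ≤ prox T (insert 0 A) x := by
      unfold prox
      exact Finset.sum_le_sum fun p _ => mul_le_mul_of_nonneg_left
        (lam_mono p (Finset.subset_insert _ _) x) (wt_nonneg p)
    linarith

end Pool.Agent.H432.G1
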