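import Mathlib
import Pool.Agent.H432.G1.Stm
import Pool.Graph.R_seed8.H645R3.ABC3

set_option autoImplicit false

namespace Pool.Agent.H432.G1

open NumberField IsDedekindDomain Module

namespace PSEL

open H645.ABC

variable {L : Type} [Field L] [NumberField L]

theorem val_eq (v : HeightOneSpectrum (𝓞 L)) (u : Lˣ) :
    v.valuation L (u : L) = WithZero.exp (vl v u) := by
  rw [← HeightOneSpectrum.valuationOfNeZero_eq]
  rfl

theorem finite_ne_one (a : L) (ha : a ≠ 0) :
    {v : HeightOneSpectrum (𝓞 L) | v.valuation L a ≠ 1}.Finite := by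
  have h1 := HeightOneSpectrum.Support.finite (𝓞 L) (K := L) a
  have h2 := HeightOneSpectrum.Support.finite (𝓞 L) (K := L) a⁻¹
  refine (h1.union h2).subset ?_
  intro v hv
  change v.valuation L a ≠ 1 at hv
  rcases lt_or_gt_of_ne hv with h | h
  · right
    show 1 < v.valuation L a⁻¹
    rw [map_inv₀]
    have h0 : v.valuation L a ≠ 0 := by
      rw [Ne, map_eq_zero]; exact ha
    exact (one_lt_inv₀ (zero_lt_iff.2 h0)).2 h
  · left
    exact h

theorem par (X : Fin 3 → ℤ) (Y : ℤ) (hs : 2 * Y = X 0 + X 1 + X 2)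
    (h : (∃ k, ∀ j, X j = X k) ∨ ∀ i j, i ≠ j → X i = 0 ∨ X j = 0) : ∀ i, (2 : ℤ) ∣ X i := by
  intro i
  rcases h with ⟨k, hk⟩ | h
  · have h0 := hk 0
    have h1 := hk 1
    have h2 := hk 2
    have h3 := hk i
    omega
  · have h01 := h 0 1 (by decide)
    have h02 := h 0 2 (by decide)
    have h12 := h 1 2 (by decide)
    fin_cases i <;> simp only [Fin.zero_eta, Fin.mk_one, Fin.reduceFinMk] <;> omega

theorem even_val (e : Fin 3 → L) (v : HeightOneSpectrum (𝓞 L))
    (hv : ∀ i j, i ≠ j → v.valuation L (e i - e j) = 1) (x : L) (Y : Lˣ) (A : Fin 3 → Lˣ)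
    (hA : ∀ i, (A i : L) = x - e i) (hY : Y ^ 2 = A 0 * A 1 * A 2) (i : Fin 3) :
    ((2 : ℕ) : ℤ) ∣ vl v (A i) := by
  have hs : 2 * vl v Y = vl v (A 0) + vl v (A 1) + vl v (A 2) := by
    have := congrArg (vl v) hY
    rw [vl_mul, vl_mul, vl_pow] at this
    exact_mod_cast this
  refine par (fun i => vl v (A i)) (vl v Y) hs ?_ i
  by_cases h : ∃ k, 1 < v.valuation L (A k : L)
  · left
    obtain ⟨k, hk⟩ := h
    refine ⟨k, fun j => ?_⟩
    by_cases hjk : j = k
    · rw [hjk]
    · have e1 : (A j : L) = (A k : L) + (e k - e j) := by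
        rw [hA, hA]; ring
      have h1 : v.valuation L (e k - e j) = 1 := hv k j (Ne.symm hjk)
      have h2 : v.valuation L (A j : L) = v.valuation L (A k : L) := by
        rw [e1]
        exact Valuation.map_add_eq_of_lt_left _ (by rw [h1]; exact hk)
      rw [val_eq, val_eq] at h2
      exact WithZero.exp_injective h2
  · right
    push Not at h
    intro i j hij
    by_contra hcon
    push Not at hcon
    have hle : ∀ k, vl v (A k) ≤ 0 := by
      intro k
      have := h k
      rw [val_eq, ← WithZero.exp_zero, WithZero.exp_le_exp] at this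
      exact this
    have hlt : ∀ k, vl v (A k) ≠ 0 → v.valuation L (A k : L) < 1 := by
      intro k hk
      rw [val_eq, ← WithZero.exp_zero, WithZero.exp_lt_exp]
      exact lt_of_le_of_ne (hle k) hk
    have h1 := hlt i hcon.1
    have h2 := hlt j hcon.2
    have h3 : v.valuation L (e i - e j) < 1 := by
      have e1 : e i - e j = (A j : L) - (A i : L) := by
        rw [hA, hA]; ring
      rw [e1]
      exact lt_of_le_of_lt (Valuation.map_sub _ _ _) (max_lt h2 h1)
    rw [hv i j hij] at h3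
    exact lt_irrefl _ h3

/-- colouring of the elements with even valuations outside of a finite set -/
theorem colour (B : Set (HeightOneSpectrum (𝓞 L))) (hB : B.Finite) :
    ∃ (ι : Type) (_ : Finite ι) (c : Lˣ → ι),
    ∀ z z' : Lˣ, (∀ v ∉ B, ((2 : ℕ) : ℤ) ∣ vl v z) → (∀ v ∉ B, ((2 : ℕ) : ℤ) ∣ vl v z') →
      c z = c z' → ∃ w : Lˣ, z = z' * w ^ 2 := by
  classical
  obtain ⟨ι, hι, c, hc⟩ := selmer (K := L) 2 (by norm_num)
  have hBf : Finite B := hB
  let P : Lˣ → Set B := fun z => {v : B | ((2 : ℕ) : ℤ) ∣ vl v.1 z}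
  let good : Lˣ → Prop := fun z => ∀ v ∉ B, ((2 : ℕ) : ℤ) ∣ vl v z
  let rp : Set B → Lˣ := fun s => if h : ∃ z, good z ∧ P z = s then h.choose else 1
  have hrp : ∀ z, good z → good (rp (P z)) ∧ P (rp (P z)) = P z := by
    intro z hz
    have h : ∃ z', good z' ∧ P z' = P z := ⟨z, hz, rfl⟩
    have : rp (P z) = h.choose := dif_pos h
    rw [this]
    exact h.choose_spec
  have hev : ∀ z, good z → ∀ v, ((2 : ℕ) : ℤ) ∣ vl v (z / rp (P z)) := by
    intro z hz v
    rw [vl_div]
    obtain ⟨h1, h2⟩ := hrp z hz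
    by_cases hv : v ∈ B
    · have h3 : (⟨v, hv⟩ : B) ∈ P (rp (P z)) ↔ (⟨v, hv⟩ : B) ∈ P z := by rw [h2]
      have h4 : ((2 : ℕ) : ℤ) ∣ vl v (rp (P z)) ↔ ((2 : ℕ) : ℤ) ∣ vl v z := h3
      generalize vl v (rp (P z)) = a at h4 ⊢
      generalize vl v z = b at h4 ⊢
      push_cast at h4 ⊢
      omega
    · exact dvd_sub (hz v hv) (h1 v hv)
  refine ⟨Set B × ι, inferInstance, fun z => (P z, c (z / rp (P z))), ?_⟩
  intro z z' hz hz' h
  have h1 : P z = P z' := congrArg Prod.fst h
  have h2 : c (z / rp (P z)) = c (z' / rp (P z')) := congrArg Prod.snd h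
  obtain ⟨w, hw⟩ := hc _ _ (hev z hz) (hev z' hz') h2
  refine ⟨w, ?_⟩
  rw [h1, div_eq_iff_eq_mul] at hw
  rw [hw, mul_right_comm, div_mul_cancel]

/-- finitely many representatives -/
theorem reps (B : Set (HeightOneSpectrum (𝓞 L))) (hB : B.Finite) :
    ∃ S : Finset L, ∀ z : Lˣ, (∀ v ∉ B, ((2 : ℕ) : ℤ) ∣ vl v z) →
      ∃ s ∈ S, ∃ w : L, (z : L) = s * w ^ 2 := by
  classical
  obtain ⟨ι, hι, c, hc⟩ := colour (L := L) B hB
  have := Fintype.ofFinite ι
  let good : Lˣ → Prop := fun z => ∀ v ∉ B, ((2 : ℕ) : ℤ) ∣ vl v z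
  let rp : ι → Lˣ := fun s => if h : ∃ z, good z ∧ c z = s then h.choose else 1
  refine ⟨Finset.univ.image (fun s => (rp s : L)), fun z hz => ?_⟩
  have h : ∃ z', good z' ∧ c z' = c z := ⟨z, hz, rfl⟩
  have h1 : rp (c z) = h.choose := dif_pos h
  have h2 := h.choose_spec
  rw [← h1] at h2
  obtain ⟨w, hw⟩ := hc z (rp (c z)) hz h2.1 h2.2.symm
  refine ⟨rp (c z), Finset.mem_image.2 ⟨c z, Finset.mem_univ _, rfl⟩, w, ?_⟩
  have := congrArg (fun u : Lˣ => (u : L)) hw
  simpa using this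

end PSEL

open PSEL in
theorem sel : S_SEL := by
  intro L _ _ e he
  classical
  let B : Set (HeightOneSpectrum (𝓞 L)) :=
    ⋃ i : Fin 3, ⋃ j : Fin 3, {v | i ≠ j ∧ v.valuation L (e i - e j) ≠ 1}
  have hB : B.Finite := by
    refine Set.finite_iUnion fun i => Set.finite_iUnion fun j => ?_
    by_cases hij : i = j
    · simp [hij]
    · refine (finite_ne_one (e i - e j) (sub_ne_zero.2 fun h => hij (he h))).subset ?_
      intro v hv
      exact hv.2
  obtain ⟨S, hS⟩ := reps (L := L) B hB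
  let p : Polynomial L := ∏ s ∈ S, (Polynomial.X ^ 2 - Polynomial.C s)
  have hp : ∀ s : L, (Polynomial.X ^ 2 - Polynomial.C s : Polynomial L) ≠ 0 := fun s =>
    Polynomial.X_pow_sub_C_ne_zero (by norm_num) s
  have hp0 : p ≠ 0 := Finset.prod_ne_zero_iff.2 fun s _ => hp s
  have : Module.Finite L p.SplittingField := inferInstance
  have : NumberField p.SplittingField := NumberField.of_module_finite L p.SplittingField
  refine ⟨p.SplittingField, inferInstance, inferInstance, inferInstance, ?_⟩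
  have hsq : ∀ s ∈ S, ∃ r : p.SplittingField, r ^ 2 = algebraMap L _ s := by
    intro s hs
    have h1 := Polynomial.SplittingField.splits p
    have h2 : (Polynomial.X ^ 2 - Polynomial.C s : Polynomial L) ∣ p := Finset.dvd_prod_of_mem _ hs
    have h3 : ((Polynomial.X ^ 2 - Polynomial.C s : Polynomial L).map
        (algebraMap L p.SplittingField)).Splits :=
      h1.of_dvd ((Polynomial.map_ne_zero_iff (algebraMap L p.SplittingField).injective).2 hp0)
        (Polynomial.map_dvd _ h2)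
    obtain ⟨r, hr⟩ := h3.exists_eval_eq_zero (by
      rw [Polynomial.degree_map, Polynomial.degree_X_pow_sub_C (by norm_num)]
      norm_num)
    refine ⟨r, ?_⟩
    simpa [sub_eq_zero] using hr
  intro x y hy hxy i
  have hne : ∀ i, x - e i ≠ 0 := by
    intro i h0
    apply hy
    have : y ^ 2 = 0 := by
      rw [hxy]
      fin_cases i <;> simp_all
    exact pow_eq_zero_iff (two_ne_zero) |>.1 this
  let A : Fin 3 → Lˣ := fun i => Units.mk0 (x - e i) (hne i)
  have hA : ∀ i, (A i : L) = x - e i := fun i => rfl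
  have hY : (Units.mk0 y hy) ^ 2 = A 0 * A 1 * A 2 := by
    apply Units.ext
    simpa [A] using hxy
  have hev : ∀ v ∉ B, ((2 : ℕ) : ℤ) ∣ H645.ABC.vl v (A i) := by
    intro v hv
    refine even_val e v ?_ x (Units.mk0 y hy) A hA hY i
    intro i j hij
    by_contra hcon
    exact hv (Set.mem_iUnion.2 ⟨i, Set.mem_iUnion.2 ⟨j, hij, hcon⟩⟩)
  obtain ⟨s, hs, w, hw⟩ := hS (A i) hev
  obtain ⟨r, hr⟩ := hsq s hs
  refine ⟨r * algebraMap L _ w, ?_⟩
  rw [← hA i, hw, map_mul, map_pow, ← hr]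
  ring

end Pool.Agent.H432.G1
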