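import Mathlib
import Pool.Agent.H432.G1.Stm
import Pool.Agent.H432.TC.LineE

/-!
# Project G1 (helper432), task SIEG: Siegel's inequality (helper161)
-/

set_option autoImplicit false

namespace Pool.Agent.H432.G1

open NumberField Module Height
open Pool.Agent.W180.OP (Pl av wt wt_nonneg)

namespace PSIEG

/-- a number field in which given elements are squares -/
theorem exists_sq (E : Type) [Field E] [NumberField E] (S : Finset E) :
    ∃ (E' : Type) (_ : Field E') (_ : NumberField E') (_ : Algebra E E'),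
      ∀ s ∈ S, IsSquare (algebraMap E E' s) := by
  classical
  obtain ⟨P, hP⟩ : ∃ P : Polynomial E, P = ∏ s ∈ S, (Polynomial.X ^ 2 - Polynomial.C s) := ⟨_, rfl⟩
  have hP0 : P ≠ 0 := by
    rw [hP, Finset.prod_ne_zero_iff]
    intro s _
    exact Polynomial.X_pow_sub_C_ne_zero (by norm_num) s
  have : NumberField P.SplittingField := NumberField.of_module_finite E P.SplittingField
  refine ⟨P.SplittingField, inferInstance, inferInstance, inferInstance, fun s hs => ?_⟩
  have h1 : (Polynomial.X ^ 2 - Polynomial.C s) ∣ P := by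
    rw [hP]
    exact Finset.dvd_prod_of_mem _ hs
  have h2 := Polynomial.SplittingField.splits P
  have h3 : ((Polynomial.X ^ 2 - Polynomial.C s).map (algebraMap E P.SplittingField)).Splits :=
    h2.of_dvd (Polynomial.map_ne_zero hP0) (Polynomial.map_dvd _ h1)
  have h4 : ((Polynomial.X ^ 2 - Polynomial.C s).map (algebraMap E P.SplittingField)).degree ≠ 0 := by
    rw [Polynomial.degree_map, Polynomial.degree_X_pow_sub_C (by norm_num)]
    norm_num
  obtain ⟨r, hr⟩ := h3.exists_eval_eq_zero h4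
  rw [Polynomial.eval_map, Polynomial.eval₂_sub, Polynomial.eval₂_X_pow, Polynomial.eval₂_C,
    sub_eq_zero] at hr
  exact ⟨r, by rw [← hr]; ring⟩

/-- the induction step -/
theorem step (pext : S_PEXT) (half : S_HALF) (dupl : S_DUPL) (duph : S_DUPH) {κ : ℝ} (hκ : 0 ≤ κ)
    (ih : ∀ (L : Type) [Field L] [NumberField L] (e : Fin 3 → L), Function.Injective e →
      ∀ (T : Finset (Pl L)) (A : Finset L), ∃ C : ℝ, ∀ x y : L,
      y ^ 2 = (x - e 0) * (x - e 1) * (x - e 2) → prox T A x ≤ κ * logHeight₁ x + C)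
    (L : Type) [Field L] [NumberField L] (e : Fin 3 → L) (he : Function.Injective e)
    (T : Finset (Pl L)) (A : Finset L) : ∃ C : ℝ, ∀ x y : L,
      y ^ 2 = (x - e 0) * (x - e 1) * (x - e 2) → prox T A x ≤ κ / 2 * logHeight₁ x + C := by
  classical
  obtain ⟨E, _, _, _, hE⟩ := half L e he
  obtain ⟨S, hS⟩ : ∃ S : Finset E, S = (A ×ˢ (Finset.univ : Finset (Fin 3))).image
      (fun q => algebraMap L E (q.1 - e q.2)) := ⟨_, rfl⟩
  obtain ⟨E', _, _, _, hE'⟩ := exists_sq E S
  let _ : Algebra L E' := ((algebraMap E E').comp (algebraMap L E)).toAlgebra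
  have hmap : ∀ z : L, algebraMap L E' z = algebraMap E E' (algebraMap L E z) := fun _ => rfl
  obtain ⟨e', he'⟩ : ∃ e' : Fin 3 → E', e' = fun i => algebraMap L E' (e i) := ⟨_, rfl⟩
  have he'i : Function.Injective e' := by
    rw [he']
    exact (algebraMap L E').injective.comp he
  obtain ⟨A', hA'⟩ : ∃ A' : Finset E', A' = A.image (algebraMap L E') := ⟨_, rfl⟩
  have hsq : ∀ α ∈ A', ∀ i, IsSquare (α - e' i) := by
    intro α hα i
    rw [hA', Finset.mem_image] at hα
    obtain ⟨a, ha, rfl⟩ := hα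
    have h1 : algebraMap L E (a - e i) ∈ S := by
      rw [hS, Finset.mem_image]
      exact ⟨(a, i), Finset.mem_product.2 ⟨ha, Finset.mem_univ _⟩, rfl⟩
    have h2 := hE' _ h1
    rw [he']
    rw [← hmap, map_sub] at h2
    exact h2
  obtain ⟨B, hB⟩ := dupl E' e' he'i A' hsq
  obtain ⟨T', hT'⟩ := pext L E' T
  obtain ⟨C1, hC1⟩ := ih E' e' he'i T' B
  obtain ⟨C2, hC2⟩ := duph E' e' he'i
  choose Cp hCp using hB
  obtain ⟨C0, hC0⟩ : ∃ C0 : ℝ, C0 = ∑ p ∈ T', wt p * Cp p := ⟨_, rfl⟩
  have hfin : (0 : ℝ) < finrank L E' := by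
    have : Module.Finite L E' := Module.Finite.of_restrictScalars_finite ℚ L E'
    exact_mod_cast Module.finrank_pos
  obtain ⟨C3, hC3⟩ : ∃ C3 : ℝ, C3 = (κ / 2 * C2 + 2 * C1 + C0) / finrank L E' := ⟨_, rfl⟩
  have hgen : ∀ x y : L, y ≠ 0 → y ^ 2 = (x - e 0) * (x - e 1) * (x - e 2) →
      prox T A x ≤ κ / 2 * logHeight₁ x + C3 := by
    intro x y hy hxy
    obtain ⟨t₀, u₀, hu0, hu2, hux⟩ := hE x y hy hxy
    obtain ⟨t, ht⟩ : ∃ t : E', t = algebraMap E E' t₀ := ⟨_, rfl⟩
    obtain ⟨u, hu⟩ : ∃ u : E', u = algebraMap E E' u₀ := ⟨_, rfl⟩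
    have hD : Dup e' t u (algebraMap L E' x) := by
      refine ⟨?_, ?_, ?_⟩
      · rw [hu]
        exact (map_ne_zero _).2 hu0
      · have h1 := congrArg (algebraMap E E') hu2
        simp only [map_pow, map_mul, map_sub] at h1
        rw [hu, ht, he']
        exact h1
      · have h1 := congrArg (algebraMap E E') hux
        simp only [map_pow, map_mul, map_sub, map_ofNat] at h1
        rw [hu, ht, he']
        exact h1
    have a1 := hT' A A' (fun α hα => by
      rw [hA']
      exact Finset.mem_image_of_mem _ hα) x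
    have a2 : prox T' A' (algebraMap L E' x) ≤ 2 * prox T' B t + C0 := by
      unfold prox
      rw [hC0, Finset.mul_sum, ← Finset.sum_add_distrib]
      refine Finset.sum_le_sum fun p _ => ?_
      have := mul_le_mul_of_nonneg_left (hCp p t u _ hD) (wt_nonneg p)
      linarith
    have a3 := hC1 t u hD.2.1
    have a4 := hC2 t u _ hD
    have a5 : logHeight₁ (algebraMap L E' x) = finrank L E' * logHeight₁ x :=
      Pool.Agent.H432.TC.logHeight₁_ext x
    rw [a5] at a4
    have a6 := mul_le_mul_of_nonneg_left a4 (by positivity : 0 ≤ κ / 2)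
    have a7 : (finrank L E' : ℝ) * prox T A x ≤
        finrank L E' * (κ / 2 * logHeight₁ x + C3) := by
      have a8 : (finrank L E' : ℝ) * C3 = κ / 2 * C2 + 2 * C1 + C0 := by
        rw [hC3]
        field_simp
      rw [mul_add, a8]
      calc (finrank L E' : ℝ) * prox T A x ≤ 2 * prox T' B t + C0 := a1.trans a2
        _ ≤ 2 * (κ * logHeight₁ t + C1) + C0 := by linarith
        _ = κ / 2 * (4 * logHeight₁ t) + 2 * C1 + C0 := by ring
        _ ≤ κ / 2 * (finrank L E' * logHeight₁ x + C2) + 2 * C1 + C0 := by linarith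
        _ = _ := by ring
    exact le_of_mul_le_mul_left a7 hfin
  -- the points with `y = 0`
  refine ⟨|C3| + ∑ i, |prox T A (e i)|, fun x y hxy => ?_⟩
  have hh : 0 ≤ κ / 2 * logHeight₁ x := mul_nonneg (by linarith) (zero_le_logHeight₁ x)
  have hs0 : 0 ≤ ∑ i, |prox T A (e i)| := Finset.sum_nonneg fun i _ => abs_nonneg _
  by_cases hy : y = 0
  · have h1 : ∃ i, x = e i := by
      rw [hy, zero_pow (by norm_num)] at hxy
      rcases mul_eq_zero.1 hxy.symm with h | h
      · rcases mul_eq_zero.1 h with h | h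
        · exact ⟨0, sub_eq_zero.1 h⟩
        · exact ⟨1, sub_eq_zero.1 h⟩
      · exact ⟨2, sub_eq_zero.1 h⟩
    obtain ⟨i, hi⟩ := h1
    have h2 := Finset.single_le_sum (fun i _ => abs_nonneg (prox T A (e i))) (Finset.mem_univ i)
    have h3 := le_abs_self (prox T A (e i))
    have h4 := abs_nonneg C3
    rw [← hi] at h2 h3
    linarith
  · have h1 := hgen x y hy hxy
    have h2 := le_abs_self C3
    linarith

end PSIEG

theorem sieg (roth1 : S_ROTH1) (pext : S_PEXT) (half : S_HALF) (dupl : S_DUPL) (duph : S_DUPH) :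
    S_SIEG := by
  have key : ∀ n : ℕ, ∀ (L : Type) [Field L] [NumberField L] (e : Fin 3 → L),
      Function.Injective e → ∀ (T : Finset (Pl L)) (A : Finset L), ∃ C : ℝ, ∀ x y : L,
      y ^ 2 = (x - e 0) * (x - e 1) * (x - e 2) → prox T A x ≤ 3 / 2 ^ n * logHeight₁ x + C := by
    intro n
    induction n with
    | zero =>
      intro L _ _ e he T A
      obtain ⟨C, hC⟩ := roth1 L T A 1 one_pos
      refine ⟨C, fun x y _ => (hC x).trans (le_of_eq ?_)⟩
      norm_num
    | succ n ih =>
      intro L _ _ e he T A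
      obtain ⟨C, hC⟩ := PSIEG.step pext half dupl duph (κ := 3 / 2 ^ n) (by positivity) ih L e he T A
      refine ⟨C, fun x y hxy => (hC x y hxy).trans (le_of_eq ?_)⟩
      rw [pow_succ]
      congr 2
      field_simp
  intro L _ _ e he T A ε hε
  obtain ⟨n, hn⟩ := exists_pow_lt_of_lt_one (by positivity : 0 < ε / 3)
    (by norm_num : (1 / 2 : ℝ) < 1)
  obtain ⟨C, hC⟩ := key n L e he T A
  refine ⟨C, fun x y hxy => (hC x y hxy).trans ?_⟩
  have h1 : (3 : ℝ) / 2 ^ n ≤ ε := by
    have h2 : (3 : ℝ) / 2 ^ n = 3 * (1 / 2) ^ n := by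
      rw [one_div, inv_pow]
      ring
    rw [h2]
    linarith
  have h3 := mul_le_mul_of_nonneg_right h1 (zero_le_logHeight₁ x)
  linarith

end Pool.Agent.H432.G1
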