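import Mathlib
import Pool.Agent.H432.G1.Stm
import Pool.Agent.H432.TC.LineE

/-!
# SIEGW: Siegel's inequality for `y ^ 2 = x ^ 3 + a x + b` (helper825)
-/

set_option autoImplicit false

namespace Pool.Agent.H432.G1

open NumberField Module Height
open Pool.Agent.W180.OP (Pl av wt nrm)

namespace PSIEGW

/-- the roots of the cubic polynomial in a number field -/
theorem split {L : Type} [Field L] [NumberField L] (a b : L) (h : 4 * a ^ 3 + 27 * b ^ 2 ≠ 0) :
    ∃ (E : Type) (_ : Field E) (_ : NumberField E) (_ : Algebra L E) (e : Fin 3 → E),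
      Function.Injective e ∧ ∀ x : E, x ^ 3 + algebraMap L E a * x + algebraMap L E b =
        (x - e 0) * (x - e 1) * (x - e 2) := by
  set P : Cubic L := ⟨1, 0, a, b⟩ with hP
  have ha : P.a ≠ 0 := one_ne_zero
  have hsp : (P.toPoly.map (algebraMap L P.toPoly.SplittingField)).Splits :=
    Polynomial.SplittingField.splits _
  obtain ⟨x, y, z, h3⟩ := (Cubic.splits_iff_roots_eq_three ha).mp hsp
  have hd : P.discr ≠ 0 := by
    have h0 : P.discr = -(4 * a ^ 3 + 27 * b ^ 2) := by
      rw [hP]
      simp only [Cubic.discr]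
      ring
    rw [h0]
    exact neg_ne_zero.mpr h
  obtain ⟨hxy, hxz, hyz⟩ := (Cubic.discr_ne_zero_iff_roots_ne ha h3).mp hd
  have hb := Cubic.b_eq_three_roots ha h3
  have hc := Cubic.c_eq_three_roots ha h3
  have hdd := Cubic.d_eq_three_roots ha h3
  have pa : P.a = 1 := rfl
  have pb : P.b = 0 := rfl
  have pc : P.c = a := rfl
  have pd : P.d = b := rfl
  rw [pa, pb, map_one, map_zero, one_mul] at hb
  rw [pa, pc, map_one, one_mul] at hc
  rw [pa, pd, map_one, one_mul] at hdd
  have hfd : FiniteDimensional L P.toPoly.SplittingField := inferInstance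
  have hcz : CharZero P.toPoly.SplittingField :=
    charZero_of_injective_algebraMap (algebraMap L P.toPoly.SplittingField).injective
  have hnf : NumberField P.toPoly.SplittingField := by
    refine @NumberField.mk _ _ hcz ?_
    exact @FiniteDimensional.trans ℚ L P.toPoly.SplittingField _ _ _ _ _ _ _ _ _
  refine ⟨P.toPoly.SplittingField, inferInstance, hnf, inferInstance, ![x, y, z], ?_, ?_⟩
  · intro i j hij
    fin_cases i <;> fin_cases j <;> simp_all
  · intro t
    have e0 : (![x, y, z] : Fin 3 → P.toPoly.SplittingField) 0 = x := rfl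
    have e1 : (![x, y, z] : Fin 3 → P.toPoly.SplittingField) 1 = y := rfl
    have e2 : (![x, y, z] : Fin 3 → P.toPoly.SplittingField) 2 = z := rfl
    rw [e0, e1, e2, hc, hdd]
    linear_combination (t ^ 2) * hb

end PSIEGW

theorem siegw (pext : S_PEXT) (sieg : S_SIEG) : S_SIEGW := by
  intro L _ _ a b h T A ε hε
  obtain ⟨E, _, _, _, e, hinj, hf⟩ := PSIEGW.split a b h
  classical
  obtain ⟨T', hT'⟩ := pext L E T
  obtain ⟨C, hC⟩ := sieg E e hinj T' (A.image (algebraMap L E)) ε hε
  have hpos : (0 : ℝ) < finrank L E := by exact_mod_cast finrank_pos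
  refine ⟨C / finrank L E, fun x y hxy => ?_⟩
  have h1 := hT' A (A.image (algebraMap L E)) (fun α hα => Finset.mem_image_of_mem _ hα) x
  have h2 : (algebraMap L E y) ^ 2 = (algebraMap L E x - e 0) * (algebraMap L E x - e 1) *
      (algebraMap L E x - e 2) := by
    rw [← hf, ← map_pow, hxy, map_add, map_add, map_mul, map_pow]
  have h3 := hC _ _ h2
  rw [Pool.Agent.H432.TC.logHeight₁_ext] at h3
  have h4 : (finrank L E : ℝ) * prox T A x ≤ finrank L E * (ε * logHeight₁ x + C / finrank L E) := by
    have h5 : (finrank L E : ℝ) * (ε * logHeight₁ x + C / finrank L E) =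
        ε * (finrank L E * logHeight₁ x) + C := by
      field_simp
    rw [h5]
    exact h1.trans h3
  exact le_of_mul_le_mul_left h4 hpos

end Pool.Agent.H432.G1
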