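import Mathlib
import Pool.Agent.H432.AC.Main
import Pool.Agent.H432.G1.P_HALF
import Pool.Agent.H432.G1.P_SIEG
import Pool.Agent.H432.G1.P_SIEGW
import Pool.Agent.H432.G1.P_SEL
import Pool.Agent.H432.G1.P_DUPH
import Pool.Agent.H432.G1.P_ROTH1
import Pool.Agent.H432.G1.P_LOCW
import Pool.Agent.H432.G1.P_PROXE
import Pool.Agent.H432.G1.P_IRRW
import Pool.Agent.H432.G1.P_CERTK
import Pool.Agent.H432.G1.P_GEOE
import Pool.Agent.H432.G1.P_DESCE
import Pool.Agent.H432.G1.P_ARIK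

/-!
Vojta's inequality on the curves of genus one of bounded degree.
-/

set_option autoImplicit false
set_option linter.unusedVariables false
set_option linter.unusedSectionVars false

namespace Pool.Agent.H432.G1

open NumberField IsDedekindDomain Height Module MvPolynomial Pool.Agent.N750 Pool.Agent.H432.RC
open Pool.Agent.W180.OP (Pl av nrm le_nrm nrm_pos exists_nrm nrm_nonneg)
open Pool.Agent.H432.AC (pt eval_mp pt_mp onX LHS lhs_crude finz locb)

theorem map_wei {R S : Type} [CommRing R] [CommRing S] (h : R →+* S) (a b : R) :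
    MvPolynomial.map h (wei a b) = wei (h a) (h b) := by
  unfold wei
  simp only [map_sub, map_add, map_mul, map_pow, map_X, map_C]

/-- constant maps -/
theorem const_ht {L Ω : Type} [Field L] [NumberField L] [Field Ω] [Algebra L Ω] {M : ℕ}
    {P : MvPolynomial (Fin 2) L} {φ : Fin M → MvPolynomial (Fin 2) L}
    (hcst : ∀ l0 l1, ¬ P ∣ φ l1 → ∃ c0 : Ω, MvPolynomial.map (algebraMap L Ω) P ∣
      MvPolynomial.map (algebraMap L Ω) (φ l0) - C c0 * MvPolynomial.map (algebraMap L Ω) (φ l1)) :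
    ∃ C0 : ℝ, ∀ z : Fin 2 → L, eval z P = 0 → pt φ z ≠ 0 → logHeight (pt φ z) ≤ C0 := by
  classical
  by_cases hex : ∃ z0 : Fin 2 → L, eval z0 P = 0 ∧ pt φ z0 ≠ 0
  swap
  · exact ⟨0, fun z hz hx => absurd ⟨z, hz, hx⟩ hex⟩
  obtain ⟨z0, hz0, hx0⟩ := hex
  refine ⟨logHeight (pt φ z0), fun z hz hx => ?_⟩
  obtain ⟨l1, hl1⟩ := Function.ne_iff.1 hx0
  have hP1 : ¬ P ∣ φ l1 := by
    rintro ⟨R, hR⟩
    apply hl1
    show eval z0 (φ l1) = 0
    rw [hR, map_mul, hz0, zero_mul]
  choose c0 hc0 using fun l => hcst l l1 hP1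
  have hval : ∀ z : Fin 2 → L, eval z P = 0 → ∀ l, algebraMap L Ω (pt φ z l) =
      c0 l * algebraMap L Ω (pt φ z l1) := by
    intro z hz l
    obtain ⟨R, hR⟩ := hc0 l
    have h1 := congrArg (eval (fun i => algebraMap L Ω (z i))) hR
    rw [map_mul, eval_mp, hz, map_zero, zero_mul, map_sub, map_mul, eval_mp, eval_mp, eval_C] at h1
    exact sub_eq_zero.1 h1
  have hz1 : pt φ z l1 ≠ 0 := by
    intro h0
    apply hx
    funext l
    have h1 := hval z hz l
    rw [h0, map_zero, mul_zero] at h1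
    exact (map_eq_zero _).1 h1
  have hz01 : pt φ z0 l1 ≠ 0 := hl1
  set μ := pt φ z l1 / pt φ z0 l1 with hμ
  have hμ0 : μ ≠ 0 := div_ne_zero hz1 hz01
  have hxx : pt φ z = μ • pt φ z0 := by
    funext l
    apply (algebraMap L Ω).injective
    rw [hval z hz l, Pi.smul_apply, smul_eq_mul, map_mul, hval z0 hz0 l, hμ, map_div₀]
    have h1 : algebraMap L Ω (pt φ z0 l1) ≠ 0 := (map_ne_zero _).2 hz01
    field_simp
  rw [hxx]
  exact (logHeight_smul_eq_logHeight _ hμ0).le

/-- **Vojta's inequality on the images of elliptic curves** -/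
theorem main_g1 (pext : S_PEXT) (dupl : S_DUPL) (ellord : S_ELLORD)
    {k : Type} [Field k] [NumberField k] {M g q w n' : ℕ}
    (G : Fin g → MvPolynomial (Fin M) k) (e : Fin g → ℕ)
    (hG : ∀ i, (G i).IsHomogeneous (e i)) (hI : (Ideal.span (Set.range G)).IsPrime)
    (hsm : Sm (n' + 1) G) (F : Fin q → Fin w → MvPolynomial (Fin M) k) (δ : Fin q → ℕ)
    (hF : ∀ i j, (F i j).IsHomogeneous (δ i)) (N : ℕ) :
    ∃ (mΦ : ℕ) (Φ : MvPolynomial (Fin M) k), Φ.IsHomogeneous mΦ ∧
      Φ ∉ Ideal.span (Set.range G) ∧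
    ∀ (L : Type) [Field L] [NumberField L] [Algebra k L] (a b : L), 4 * a ^ 3 + 27 * b ^ 2 ≠ 0 →
    ∀ (φ : Fin M → MvPolynomial (Fin 2) L),
      (∀ l, (φ l).totalDegree ≤ N) → (∀ i, wei a b ∣ aeval φ (G i)) →
      ¬ wei a b ∣ aeval φ Φ → (∀ i, ∃ j, ¬ wei a b ∣ aeval φ (F i j)) →
    ∀ (T : Finset (Pl L)) (ε : ℝ), 0 < ε →
    ∃ C0 : ℝ, ∀ z : Fin 2 → L, eval z (wei a b) = 0 → pt φ z ≠ 0 →
      (∀ i, ∃ j, aeval (pt φ z) (F i j) ≠ 0) → ∀ A, IsTB (p := n' + 2) G (pt φ z) A →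
      prx T F δ (pt φ z) + (logHeight (mv A) - (n' + 2) * logHeight (pt φ z)) ≤
        ε * logHeight (pt φ z) + C0 := by
  classical
  have siegw : S_SIEGW := siegw pext (sieg roth1 pext (half sel) dupl duph)
  obtain ⟨mΦ, Φ, h1, h2, h3⟩ := geoe (certk irrw ellord) irrw k (AlgebraicClosure k) M g n' G e hG
    hI hsm N
  refine ⟨mΦ, Φ, h1, h2, ?_⟩
  intro L _ _ _ a b hab φ hφd hX hΦ hFne S ε hε
  let Ω := AlgebraicClosure k
  let _ : Algebra.IsAlgebraic k L := Algebra.IsAlgebraic.of_finite k L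
  let ι : L →ₐ[k] Ω := IsAlgClosed.lift
  let _ : Algebra L Ω := ι.toRingHom.toAlgebra
  have htow : IsScalarTower k L Ω := IsScalarTower.of_algebraMap_eq fun x => (ι.commutes x).symm
  have halg : Algebra.IsAlgebraic L Ω := Algebra.IsAlgebraic.tower_top (K := k) L
  have hPm : MvPolynomial.map (algebraMap L Ω) (wei a b) =
      wei (algebraMap L Ω a) (algebraMap L Ω b) := map_wei _ _ _
  have hPΩ : Irreducible (MvPolynomial.map (algebraMap L Ω) (wei a b)) := by
    rw [hPm]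
    exact irrw Ω _ _
  have hdeg : ∀ Q : MvPolynomial (Fin 2) L, (MvPolynomial.map (algebraMap L Ω) Q).totalDegree ≤
      Q.totalDegree := fun Q => Finset.sup_mono (MvPolynomial.support_map_subset _ _)
  obtain ⟨r, hr⟩ := AC.PDESC.exists_rt L Ω
  have hnd : ∀ Q : MvPolynomial (Fin 2) L, ¬ wei a b ∣ Q →
      ¬ MvPolynomial.map (algebraMap L Ω) (wei a b) ∣
      MvPolynomial.map (algebraMap L Ω) Q := fun Q hQ h => hQ (AC.PDESC.dvd_desc r hr h)
  obtain ⟨C3, hC3, htriv⟩ := prx_triv F δ hF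
  have hδ : 0 ≤ ∑ i, (δ i : ℝ) := Finset.sum_nonneg fun i _ => Nat.cast_nonneg _
  by_cases hnon : ∃ l0 l1, ¬ wei a b ∣ φ l1 ∧ ∀ c0 : Ω,
      ¬ MvPolynomial.map (algebraMap L Ω) (wei a b) ∣
      MvPolynomial.map (algebraMap L Ω) (φ l0) - C c0 * MvPolynomial.map (algebraMap L Ω) (φ l1)
  swap
  · push Not at hnon
    obtain ⟨C1, hC1⟩ := const_ht (Ω := Ω) hnon
    obtain ⟨C4, hC4, hcrude⟩ := crude G e hG hsm
    refine ⟨(∑ i, (δ i : ℝ)) * C1 + finrank k L * C3 + (C4 * C1 + finrank k L * C4), ?_⟩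
    intro z hz hx hxF A hA
    have g1 := htriv L S (pt φ z) hx hxF
    have g2 := hcrude L (pt φ z) hx (onX hX hz) A hA
    have g3 := hC1 z hz hx
    have g4 : 0 ≤ logHeight (pt φ z) := logHeight_nonneg _
    have g5 : (∑ i, (δ i : ℝ)) * logHeight (pt φ z) ≤ (∑ i, (δ i : ℝ)) * C1 :=
      mul_le_mul_of_nonneg_left g3 hδ
    have g6 : C4 * logHeight (pt φ z) ≤ C4 * C1 := mul_le_mul_of_nonneg_left g3 hC4
    have g7 : 0 ≤ ε * logHeight (pt φ z) := mul_nonneg hε.le g4
    have g8 : 0 ≤ ((n' : ℝ) + 2) * logHeight (pt φ z) := by positivity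
    linarith
  obtain ⟨l0, l1, hl1, hnon⟩ := hnon
  have hcert : CertE n' G (MvPolynomial.map (algebraMap L Ω) (wei a b))
      (fun l => MvPolynomial.map (algebraMap L Ω) (φ l)) := by
    have hab' : 4 * (algebraMap L Ω a) ^ 3 + 27 * (algebraMap L Ω b) ^ 2 ≠ 0 := by
      have h4 : 4 * (algebraMap L Ω a) ^ 3 + 27 * (algebraMap L Ω b) ^ 2 =
          algebraMap L Ω (4 * a ^ 3 + 27 * b ^ 2) := by
        simp only [map_add, map_mul, map_pow, map_ofNat]
      rw [h4]
      exact (map_ne_zero _).2 hab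
    rw [hPm] at hnon hnd ⊢
    refine h3 _ _ _ hab' (fun l => (hdeg _).trans (hφd l)) ⟨l0, l1, hnd _ hl1, hnon⟩ ?_ ?_
    · intro i
      rw [AC.PDESC.map_aeval', ← hPm]
      exact map_dvd _ (hX i)
    · rw [AC.PDESC.map_aeval']
      exact hnd _ hΦ
  obtain ⟨E, iE1, iE2, iE3, iE4, iE5, iE6, iE7, hcE⟩ := desce k L Ω M g n' G (wei a b) φ hcert
  have hPE : MvPolynomial.map (algebraMap L E) (wei a b) =
      wei (algebraMap L E a) (algebraMap L E b) := map_wei _ _ _
  rw [hPE] at hcE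
  obtain ⟨C2, hC2⟩ := arik irrw k E M g n' G e hG hsm _ _
    (fun l => MvPolynomial.map (algebraMap L E) (φ l)) (by
      intro i
      rw [AC.PDESC.map_aeval', ← hPE]
      exact map_dvd _ (hX i)) hcE
  obtain ⟨C1, T1, hC1, hT1, hht⟩ := (Pool.Agent.H432.AC.ht finz) L Ω M (wei a b) φ 0 l0 l1 hPΩ hl1 hnon
  obtain ⟨C5, hC5⟩ := proxe irrw pext siegw locw k L M q w F δ hF a b hab φ hFne S
    (ε / (C1 + 1)) (by positivity)
  have hf : (0 : ℝ) < finrank L E := by exact_mod_cast finrank_pos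
  have hH0 : ∀ x : L, 0 ≤ logHeight₁ x := fun x => zero_le_logHeight₁ x
  refine ⟨C5 + ε + ε / (C1 + 1) * (∑ z ∈ hT1.toFinset, logHeight₁ (z 0)) + C2 / finrank L E, ?_⟩
  intro z hz hx hxF A hA
  have hx0 : 0 ≤ logHeight (pt φ z) := logHeight_nonneg _
  -- the canonical height
  have e1 := hC2 (fun i => algebraMap L E (z i)) (by
    rw [← hPE, eval_mp, hz, map_zero]) (by
    have e0 : (fun l => eval (fun i => algebraMap L E (z i))
        (MvPolynomial.map (algebraMap L E) (φ l))) = fun l => algebraMap L E (pt φ z l) := pt_mp φ z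
    rw [e0]
    intro h
    apply hx
    funext l
    exact (map_eq_zero _).1 (congrFun h l)) (fun l c => algebraMap L E (A l c)) (by
    have e0 : (fun l => eval (fun i => algebraMap L E (z i))
        (MvPolynomial.map (algebraMap L E) (φ l))) = fun l => algebraMap L E (pt φ z l) := pt_mp φ z
    rw [e0]
    exact IsTB_map G _ A hA)
  have e0 : (fun l => eval (fun i => algebraMap L E (z i))
      (MvPolynomial.map (algebraMap L E) (φ l))) = fun l => algebraMap L E (pt φ z l) := pt_mp φ z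
  rw [e0] at e1
  have a1 : logHeight (mv (fun l c => algebraMap L E (A l c))) =
      finrank L E * logHeight (mv A) := by
    have : mv (fun l c => algebraMap L E (A l c)) = fun J => algebraMap L E (mv A J) := by
      funext J
      exact mv_map A J
    rw [this]
    exact Pool.Agent.Helper259.HtExt.logHeight_ext (K := L) (L := E) (mv A)
  have a2 : logHeight (fun l => algebraMap L E (pt φ z l)) = finrank L E * logHeight (pt φ z) :=
    Pool.Agent.Helper259.HtExt.logHeight_ext (K := L) (L := E) _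
  rw [a1, a2] at e1
  have e2 : logHeight (mv A) - (n' + 2) * logHeight (pt φ z) ≤ C2 / finrank L E := by
    rw [le_div_iff₀ hf]
    linarith
  -- the proximity function
  have e3 : prx S F δ (pt φ z) ≤ ε / (C1 + 1) * logHeight₁ (z 0) + C5 := hC5 z hz hx hxF
  have e4 : logHeight₁ (z 0) ≤ C1 * (logHeight (pt φ z) + 1) +
      ∑ z ∈ hT1.toFinset, logHeight₁ (z 0) := by
    have hs : 0 ≤ ∑ z ∈ hT1.toFinset, logHeight₁ (z 0) := Finset.sum_nonneg fun z _ => hH0 _
    by_cases hzT : z ∈ T1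
    · have h5 : logHeight₁ (z 0) ≤ ∑ z ∈ hT1.toFinset, logHeight₁ (z 0) :=
        Finset.single_le_sum (f := fun z : Fin 2 → L => logHeight₁ (z 0)) (fun z _ => hH0 _)
          (hT1.mem_toFinset.2 hzT)
      have : 0 ≤ C1 * (logHeight (pt φ z) + 1) := by positivity
      linarith
    · have h5 := hht z hz hzT hx
      have h6 : logHeight (![1, z 0] : Fin 2 → L) = logHeight₁ (z 0) := by
        rw [logHeight₁_eq_logHeight, Pool.Agent.H432.TC.swap_ht]
      rw [h6] at h5
      have h7 : logHeight (fun i => eval z (φ i)) = logHeight (pt φ z) := rfl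
      rw [h7] at h5
      linarith
  have e5 : ε / (C1 + 1) * logHeight₁ (z 0) ≤ ε * (logHeight (pt φ z) + 1) +
      ε / (C1 + 1) * ∑ z ∈ hT1.toFinset, logHeight₁ (z 0) := by
    have h8 : 0 ≤ ε / (C1 + 1) := by positivity
    have h9 := mul_le_mul_of_nonneg_left e4 h8
    rw [mul_add] at h9
    refine h9.trans (add_le_add ?_ le_rfl)
    have h10 : ε / (C1 + 1) * (C1 * (logHeight (pt φ z) + 1)) =
        ε * (logHeight (pt φ z) + 1) * (C1 / (C1 + 1)) := by
      field_simp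
    rw [h10]
    have h11 : C1 / (C1 + 1) ≤ 1 := by
      rw [div_le_one (by linarith)]
      linarith
    exact mul_le_of_le_one_right (by positivity) h11
  linarith

end Pool.Agent.H432.G1
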