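import Mathlib
import Pool.Agent.H432.G1.Stm
import Pool.Agent.H432.AC.Ari1
import Pool.Agent.H432.AC.P_FINZ
import Pool.Graph.R_pool_sql_team_seeded_63374d34.N750.HtC

/-!
# ARIK (helper34): the canonical height is bounded
-/

set_option autoImplicit false
set_option linter.unusedVariables false
set_option linter.unusedSectionVars false

namespace Pool.Agent.H432.G1

open NumberField IsDedekindDomain Height Module MvPolynomial Pool.Agent.N750
open Pool.Agent.H432.AC
open Pool.Agent.H432.TC (Bd bdc le_prod_bd)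
open Pool.Agent.W180.OP (Pl av nrm le_nrm nrm_pos exists_nrm nrm_nonneg)

namespace PARIK

/-- the second coordinate is not divisible by the equation of the curve -/
theorem ndvd_y {E : Type} [Field E] [CharZero E] (a b : E) :
    ¬ wei a b ∣ (X 1 : MvPolynomial (Fin 2) E) := by
  rintro ⟨R, hR⟩
  obtain ⟨x, hx⟩ : ∃ x : E, x ^ 3 + a * x + b ≠ 0 := by
    by_contra hcon
    push Not at hcon
    have h0 := hcon 0
    have h1 := hcon 1
    have h2 := hcon 2
    have h3 : (6 : E) = 0 := by linear_combination h2 - 2 * h1 + h0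
    exact absurd h3 (by norm_num)
  obtain ⟨y, hy⟩ := IsAlgClosed.exists_pow_nat_eq
    (algebraMap E (AlgebraicClosure E) (x ^ 3 + a * x + b)) (n := 2) (by norm_num)
  have hy0 : y ≠ 0 := by
    rintro rfl
    rw [zero_pow two_ne_zero] at hy
    exact hx ((map_eq_zero _).1 hy.symm)
  have h1 := congrArg (aeval (![algebraMap E (AlgebraicClosure E) x, y] :
    Fin 2 → AlgebraicClosure E)) hR
  rw [map_mul, aeval_X] at h1
  have h2 : aeval (![algebraMap E (AlgebraicClosure E) x, y] : Fin 2 → AlgebraicClosure E)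
      (wei a b) = 0 := by
    unfold wei
    simp only [map_sub, map_pow, map_add, map_mul, aeval_X, aeval_C]
    show y ^ 2 - (algebraMap E (AlgebraicClosure E) x ^ 3 +
      algebraMap E (AlgebraicClosure E) a * algebraMap E (AlgebraicClosure E) x +
      algebraMap E (AlgebraicClosure E) b) = 0
    rw [hy, map_add, map_add, map_pow, map_mul, sub_self]
  rw [h2, zero_mul] at h1
  exact hy0 h1

/-- the local bound -/
theorem keyK {E : Type} [Field E] [NumberField E] {M n' : ℕ}
    {P : MvPolynomial (Fin 2) E} {φ : Fin M → MvPolynomial (Fin 2) E}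
    {Q : MvPolynomial (Fin 2) E} {Γ : (Fin (n' + 2) → Fin M) → MvPolynomial (Fin 2) E}
    (hne : Nonempty (Fin M))
    (h : ∀ J, Rel P (fun l : Fin M => Q * φ l ^ (n' + 2)) (Γ J * X 1)) :
    ∃ gA : Pl E → ℝ, Bd gA ∧ ∀ z : Fin 2 → E, eval z P = 0 → ∀ (p : Pl E) J,
      av p (eval z (Γ J)) * av p (z 1) ≤
        gA p * (av p (eval z Q) * nrm (av p) (pt φ z) ^ (n' + 2)) := by
  classical
  choose CA hCA hA using fun J : Fin (n' + 2) → Fin M => rel_bd locb (h J)
  refine ⟨fun p => ∏ x, CA x p, Bd.prod _ _ fun x _ => hCA x, fun z hz p J => ?_⟩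
  obtain ⟨j, hj⟩ := hA J z hz p
  rw [map_mul, eval_X, map_mul, map_mul, map_pow, map_mul, map_pow] at hj
  refine hj.trans ?_
  have f0 : CA J p ≤ ∏ x, CA x p :=
    le_prod_bd Finset.univ (fun x => CA x p) (fun x _ => (hCA x).1 p) (Finset.mem_univ _)
  have f00 := (hCA J).1 p
  have f1 : av p (eval z (φ j)) ^ (n' + 2) ≤ nrm (av p) (pt φ z) ^ (n' + 2) :=
    pow_le_pow_left₀ ((av p).nonneg _) (le_nrm (av p) (pt φ z) j) _
  have f7 := (av p).nonneg (eval z Q)
  have f8 : 0 ≤ av p (eval z (φ j)) ^ (n' + 2) := pow_nonneg ((av p).nonneg _) _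
  exact mul_le_mul f0 (mul_le_mul_of_nonneg_left f1 f7) (mul_nonneg f7 f8) (by linarith)

/-- the inequality outside of finitely many points -/
theorem gen {k E : Type} [Field k] [Field E] [NumberField E] [Algebra k E]
    {M g n' : ℕ} {G : Fin g → MvPolynomial (Fin M) k} (hsm : Sm (n' + 1) G)
    {P : MvPolynomial (Fin 2) E} {φ : Fin M → MvPolynomial (Fin 2) E}
    (hX : ∀ i, P ∣ aeval φ (G i)) {Q : MvPolynomial (Fin 2) E}
    {Γ : (Fin (n' + 2) → Fin M) → MvPolynomial (Fin 2) E}
    (h7 : ∀ J (i j : Fin (n' + 2)), i ≠ j → P ∣ Γ (J ∘ Equiv.swap i j) + Γ J)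
    (h8 : ∀ i J, P ∣ ∑ l, aeval φ (pderiv l (G i)) * Γ (Function.update J 0 l))
    (h9 : ∀ J, Rel P (fun l : Fin M => Q * φ l ^ (n' + 2)) (Γ J * X 1)) :
    ∃ C0 : ℝ, ∀ z : Fin 2 → E, eval z P = 0 → pt φ z ≠ 0 → eval z Q ≠ 0 →
      (∃ J, eval z (Γ J) ≠ 0) → z 1 ≠ 0 → ∀ A, IsTB (p := n' + 2) G (pt φ z) A →
      logHeight (mv A) - (n' + 2) * logHeight (pt φ z) ≤ C0 := by
  classical
  by_cases hneM : Nonempty (Fin M)
  swap
  · refine ⟨0, fun z hz hx => ?_⟩
    exfalso
    obtain ⟨l, -⟩ := Function.ne_iff.1 hx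
    exact hneM ⟨l⟩
  obtain ⟨gA, bA, hA⟩ := keyK hneM h9
  refine ⟨bdc gA, ?_⟩
  intro z hz hx0 hQ0 hΓ0 hy0 A hTB
  set x := pt φ z with hx
  let eJ := Fintype.equivFin (Fin (n' + 2) → Fin M)
  set Γv : Fin (Fintype.card (Fin (n' + 2) → Fin M)) → E := fun i => eval z (Γ (eJ.symm i))
    with hΓv
  have hΓv0 : Γv ≠ 0 := by
    obtain ⟨J, hJ⟩ := hΓ0
    intro h
    apply hJ
    have h1 := congrFun h (eJ J)
    simp only [hΓv, Equiv.symm_apply_apply] at h1
    exact h1
  have hNJ : 0 < Fintype.card (Fin (n' + 2) → Fin M) := Fintype.card_pos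
  have haev : ∀ B : MvPolynomial (Fin M) k, eval z (aeval φ B) = aeval x B := fun B =>
    eval_aev φ z B
  -- the height of the vector of minors
  have hΓh : logHeight Γv = logHeight (mv A) := by
    have hxX : ∀ i, aeval x (G i) = 0 := by
      intro i
      obtain ⟨R, hR⟩ := hX i
      rw [← haev, hR, map_mul, hz, zero_mul]
    have hdim : finrank E (TS G x) = n' + 2 := hsm E x hx0 hxX
    obtain ⟨c0, hc0⟩ := alt_unique (L := E) A hTB.1
      (fun i l => aeval x (pderiv l (G i)))
      (fun v hv => span_TB hTB hdim v hv)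
      (fun J => eval z (Γ J)) (fun J i j hij => by
        obtain ⟨R, hR⟩ := h7 J i j hij
        have h1 := congrArg (eval z) hR
        rw [map_mul, hz, zero_mul, map_add] at h1
        exact eq_neg_of_add_eq_zero_left h1) (fun i J => by
        obtain ⟨R, hR⟩ := h8 i J
        have h1 := congrArg (eval z) hR
        rw [map_mul, hz, zero_mul, map_sum] at h1
        rw [← h1]
        refine Finset.sum_congr rfl fun l _ => ?_
        rw [map_mul, haev])
    have hc00 : c0 ≠ 0 := by
      rintro rfl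
      obtain ⟨J, hJ⟩ := hΓ0
      apply hJ
      have := hc0 J
      rw [zero_mul] at this
      exact this
    have e1 : Γv = c0 • (fun i => mv A (eJ.symm i)) := by
      funext i
      exact hc0 (eJ.symm i)
    rw [e1, logHeight_smul_eq_logHeight _ hc00]
    exact logHeight_comp_equiv eJ.symm (mv A)
  -- positivity
  have pX : ∀ p : Pl E, 0 < nrm (av p) x := fun p => nrm_pos (av p) hx0
  have pG : ∀ p : Pl E, 0 < nrm (av p) Γv := fun p => nrm_pos (av p) hΓv0
  have pT : ∀ p : Pl E, 0 < av p (z 1) := fun p => (av p).pos_iff.2 hy0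
  have pQ : ∀ p : Pl E, 0 < av p (eval z Q) := fun p => (av p).pos_iff.2 hQ0
  have hpt : ∀ p : Pl E, Real.log (nrm (av p) Γv) + Real.log (av p (z 1)) ≤
      Real.log (gA p) + Real.log (av p (eval z Q)) + (n' + 2) * Real.log (nrm (av p) x) := by
    intro p
    obtain ⟨i, hi⟩ := exists_nrm (av p) hNJ Γv
    have h1 : av p (Γv i) * av p (z 1) ≤
      gA p * (av p (eval z Q) * nrm (av p) x ^ (n' + 2)) := hA z hz p (eJ.symm i)
    rw [hi] at h1
    have q1 := pX p
    have q2 := pG p
    have q3 := pT p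
    have q4 := pQ p
    have q5 := bA.1 p
    have q6 : 0 < gA p := by linarith
    have h2 := Real.log_le_log (by positivity) h1
    rw [Real.log_mul (by positivity) (by positivity), Real.log_mul (by positivity)
      (by positivity), Real.log_mul (by positivity) (by positivity), Real.log_pow] at h2
    push_cast at h2
    linarith
  have s1 := (HF_nrm Γv hΓv0).add (HF_av (z 1) hy0)
  have s2 := ((HF_bd bA).add (HF_av (eval z Q) hQ0)).add ((HF_nrm x hx0).smul ((n' : ℝ) + 2))
  have s3 := s1.mono s2 hpt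
  rw [hΓh] at s3
  linarith

end PARIK

/-- **ARIK** -/
theorem arik (irrw : S_IRRW) : S_ARIK := by
  classical
  intro k E _ _ _ _ _ M g n' G e hG hsm a b φ hX hcert
  obtain ⟨Q, Γ, hQ, ⟨J0, hJ0⟩, h7, h8, h9⟩ := hcert
  obtain ⟨C0, hC0⟩ := PARIK.gen hsm hX h7 h8 h9
  obtain ⟨C4, hC4, hcrude⟩ := crude G e hG hsm
  have hP : Irreducible (wei a b) := irrw E a b
  have t1 := finz E (wei a b) Q hP hQ
  have t2 := finz E (wei a b) (Γ J0) hP hJ0
  have t3 := finz E (wei a b) (X 1) hP (PARIK.ndvd_y a b)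
  have hT := (t1.union t2).union t3
  obtain ⟨T, hTd⟩ : ∃ T, T = hT.toFinset := ⟨_, rfl⟩
  have hmem : ∀ z, z ∈ T ↔ ((eval z (wei a b) = 0 ∧ eval z Q = 0) ∨
      (eval z (wei a b) = 0 ∧ eval z (Γ J0) = 0)) ∨
      (eval z (wei a b) = 0 ∧ eval z (X 1 : MvPolynomial (Fin 2) E) = 0) := by
    intro z
    rw [hTd, Set.Finite.mem_toFinset]
    rfl
  have hpos : ∀ z : Fin 2 → E, 0 ≤ C4 * logHeight (fun l => eval z (φ l)) +
      finrank k E * C4 := by
    intro z
    have h1 : 0 ≤ logHeight (fun l => eval z (φ l)) := logHeight_nonneg _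
    positivity
  refine ⟨|C0| + ∑ z ∈ T, (C4 * logHeight (fun l => eval z (φ l)) + finrank k E * C4),
    fun z hz hx A hA => ?_⟩
  have h5 := le_abs_self C0
  have h6 := abs_nonneg C0
  have h7' : 0 ≤ ∑ z ∈ T, (C4 * logHeight (fun l => eval z (φ l)) + finrank k E * C4) :=
    Finset.sum_nonneg fun z _ => hpos z
  by_cases hzT : z ∈ T
  · have hxX : ∀ i, aeval (fun l => eval z (φ l)) (G i) = 0 := by
      intro i
      obtain ⟨R, hR⟩ := hX i
      rw [← eval_aev φ z (G i), hR, map_mul, hz, zero_mul]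
    have h1 := hcrude E (fun l => eval z (φ l)) hx hxX A hA
    have h2 : C4 * logHeight (fun l => eval z (φ l)) + finrank k E * C4 ≤
        ∑ z ∈ T, (C4 * logHeight (fun l => eval z (φ l)) + finrank k E * C4) :=
      Finset.single_le_sum (f := fun z => C4 * logHeight (fun l => eval z (φ l)) +
        finrank k E * C4) (fun z _ => hpos z) hzT
    have h3 : 0 ≤ ((n' : ℝ) + 2) * logHeight (fun l => eval z (φ l)) := by
      have : 0 ≤ logHeight (fun l => eval z (φ l)) := logHeight_nonneg _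
      positivity
    linarith
  · rw [hmem] at hzT
    push Not at hzT
    have h1 := hC0 z hz hx (hzT.1.1 hz) ⟨J0, hzT.1.2 hz⟩ (by
      have := hzT.2 hz
      rwa [eval_X] at this) A hA
    have h2 : logHeight (mv A) - (n' + 2) * logHeight (fun l => eval z (φ l)) ≤ C0 := h1
    linarith

end Pool.Agent.H432.G1
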