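import Mathlib
import Pool.Agent.H432.G1.Stm

/-! `S_DUPL` (project G1, helper432), proved by helper196. -/

set_option autoImplicit false

namespace Pool.Agent.H432.G1

open MvPolynomial NumberField IsDedekindDomain Module Height
open Pool.Agent.W180.OP (Pl av wt nrm)

namespace PDUPL

variable {E : Type} [Field E]

/-- the local height at one point -/
noncomputable def ph (f : AbsoluteValue E ℝ) (β t : E) : ℝ := Real.log (max 1 (f (t - β))⁻¹)

lemma ph_nonneg (f : AbsoluteValue E ℝ) (β t : E) : 0 ≤ ph f β t :=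
  Real.log_nonneg (le_max_left _ _)

lemma keyK (f : AbsoluteValue E ℝ) (β t : E) (h : t - β ≠ 0) :
    max 1 (f t) * (f (t - β))⁻¹ ≤ (1 + f β) * max 1 (f (t - β))⁻¹ := by
  have hpos : 0 < f (t - β) := f.pos h
  have h1 : f t ≤ f (t - β) + f β := by
    calc f t = f ((t - β) + β) := by rw [sub_add_cancel]
      _ ≤ _ := f.add_le _ _
  have h0 : 0 ≤ f β := f.nonneg _
  have h2 : max 1 (f t) ≤ (1 + f β) * max 1 (f (t - β)) := by
    have h3 : 1 ≤ max 1 (f (t - β)) := le_max_left _ _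
    have h4 : f (t - β) ≤ max 1 (f (t - β)) := le_max_right _ _
    apply max_le <;> nlinarith
  calc max 1 (f t) * (f (t - β))⁻¹
      ≤ ((1 + f β) * max 1 (f (t - β))) * (f (t - β))⁻¹ :=
        mul_le_mul_of_nonneg_right h2 (inv_nonneg.2 hpos.le)
    _ = (1 + f β) * (max 1 (f (t - β)) * (f (t - β))⁻¹) := by ring
    _ = (1 + f β) * max 1 (f (t - β))⁻¹ := by
        rw [max_mul_of_nonneg _ _ (inv_nonneg.2 hpos.le), one_mul, mul_inv_cancel₀ hpos.ne',
          max_comm]

lemma upK (f : AbsoluteValue E ℝ) (β t : E) : f (t - β) ≤ (1 + f β) * max 1 (f t) := by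
  have h1 : f (t - β) ≤ f t + f β := by
    calc f (t - β) = f (t + (-β)) := by rw [sub_eq_add_neg]
      _ ≤ f t + f (-β) := f.add_le _ _
      _ = f t + f β := by rw [f.map_neg]
  have h0 : 0 ≤ f β := f.nonneg _
  have h3 : 1 ≤ max 1 (f t) := le_max_left _ _
  have h4 : f t ≤ max 1 (f t) := le_max_right _ _
  nlinarith

lemma logmax {y K P : ℝ} (hP : 1 ≤ P) (h : y ≤ K * P) :
    Real.log (max 1 y) ≤ Real.log (max 1 K) + Real.log P := by
  have hK : 1 ≤ max 1 K := le_max_left _ _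
  have hK2 : K ≤ max 1 K := le_max_right _ _
  rw [← Real.log_mul (by linarith) (by linarith)]
  apply Real.log_le_log (lt_of_lt_of_le one_pos (le_max_left _ _))
  apply max_le
  · nlinarith
  · nlinarith

lemma log4 (a b c d : ℝ) : Real.log (max 1 a * max 1 b * max 1 c * max 1 d) =
    Real.log (max 1 a) + Real.log (max 1 b) + Real.log (max 1 c) + Real.log (max 1 d) := by
  have ha : 0 < max 1 a := lt_of_lt_of_le one_pos (le_max_left _ _)
  have hb : 0 < max 1 b := lt_of_lt_of_le one_pos (le_max_left _ _)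
  have hc : 0 < max 1 c := lt_of_lt_of_le one_pos (le_max_left _ _)
  have hd : 0 < max 1 d := lt_of_lt_of_le one_pos (le_max_left _ _)
  rw [Real.log_mul (by positivity) hd.ne', Real.log_mul (by positivity) hc.ne',
    Real.log_mul ha.ne' hb.ne']

lemma one_le4 (a b c d : ℝ) : 1 ≤ max 1 a * max 1 b * max 1 c * max 1 d := by
  have ha : 1 ≤ max 1 a := le_max_left _ _
  have hb : 1 ≤ max 1 b := le_max_left _ _
  have hc : 1 ≤ max 1 c := le_max_left _ _
  have hd : 1 ≤ max 1 d := le_max_left _ _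
  have h1 : 1 ≤ max 1 a * max 1 b := by nlinarith
  have h2 : 1 ≤ max 1 a * max 1 b * max 1 c := by nlinarith
  nlinarith

/-- the local bound at infinity -/
lemma locInf (f : AbsoluteValue E ℝ) (h4 : (4 : E) ≠ 0) (e0 e1 e2 t u x : E) (hu : u ≠ 0)
    (h1 : u ^ 2 = (t - e0) * (t - e1) * (t - e2))
    (h2 : 4 * u ^ 2 * (x - e0) = ((t - e0) ^ 2 - (e0 - e1) * (e0 - e2)) ^ 2) :
    Real.log (max 1 (f x)) ≤
      Real.log (max 1 (((1 + f e0) ^ 2 + f ((e0 - e1) * (e0 - e2))) ^ 2 * (f 4)⁻¹ *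
        ((1 + f e0) * (1 + f e1) * (1 + f e2)) + f e0)) +
      (Real.log (max 1 (f t)) + ph f e0 t + ph f e1 t + ph f e2 t) := by
  have hne : (t - e0) * (t - e1) * (t - e2) ≠ 0 := by
    rw [← h1]; exact pow_ne_zero 2 hu
  have hn0 : t - e0 ≠ 0 := fun h => hne (by rw [h]; ring)
  have hn1 : t - e1 ≠ 0 := fun h => hne (by rw [h]; ring)
  have hn2 : t - e2 ≠ 0 := fun h => hne (by rw [h]; ring)
  unfold ph
  rw [← log4]
  apply logmax (one_le4 _ _ _ _)
  have hM1 : 1 ≤ max 1 (f t) := le_max_left _ _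
  have hMpos : 0 < max 1 (f t) := lt_of_lt_of_le one_pos hM1
  have hf4 : 0 < f 4 := f.pos h4
  have hx : f (x - e0) = f ((t - e0) ^ 2 - (e0 - e1) * (e0 - e2)) ^ 2 * (f 4)⁻¹ *
      ((f (t - e0))⁻¹ * (f (t - e1))⁻¹ * (f (t - e2))⁻¹) := by
    have h3 := congrArg f h2
    rw [map_mul, map_mul, h1, map_mul, map_mul, map_pow] at h3
    have p0 : 0 < f (t - e0) := f.pos hn0
    have p1 : 0 < f (t - e1) := f.pos hn1
    have p2 : 0 < f (t - e2) := f.pos hn2
    field_simp
    linarith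
  have hD : f ((t - e0) ^ 2 - (e0 - e1) * (e0 - e2)) ≤
      ((1 + f e0) ^ 2 + f ((e0 - e1) * (e0 - e2))) * max 1 (f t) ^ 2 := by
    have h5 : f ((t - e0) ^ 2 - (e0 - e1) * (e0 - e2)) ≤
        f ((t - e0) ^ 2) + f ((e0 - e1) * (e0 - e2)) := by
      calc f ((t - e0) ^ 2 - (e0 - e1) * (e0 - e2))
          = f ((t - e0) ^ 2 + (-((e0 - e1) * (e0 - e2)))) := by rw [sub_eq_add_neg]
        _ ≤ f ((t - e0) ^ 2) + f (-((e0 - e1) * (e0 - e2))) := f.add_le _ _
        _ = _ := by rw [f.map_neg]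
    have h6 : f ((t - e0) ^ 2) ≤ (1 + f e0) ^ 2 * max 1 (f t) ^ 2 := by
      rw [map_pow, ← mul_pow]
      exact pow_le_pow_left₀ (f.nonneg _) (upK f e0 t) 2
    have h7 : f ((e0 - e1) * (e0 - e2)) ≤ f ((e0 - e1) * (e0 - e2)) * max 1 (f t) ^ 2 := by
      have : 1 ≤ max 1 (f t) ^ 2 := one_le_pow₀ hM1
      have h8 : 0 ≤ f ((e0 - e1) * (e0 - e2)) := f.nonneg _
      nlinarith
    linarith
  have hD2 : f ((t - e0) ^ 2 - (e0 - e1) * (e0 - e2)) ^ 2 ≤
      ((1 + f e0) ^ 2 + f ((e0 - e1) * (e0 - e2))) ^ 2 * max 1 (f t) ^ 4 := by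
    have h9 := pow_le_pow_left₀ (f.nonneg _) hD 2
    refine le_trans h9 (le_of_eq ?_)
    ring
  have k0 := keyK f e0 t hn0
  have k1 := keyK f e1 t hn1
  have k2 := keyK f e2 t hn2
  set D : ℝ := (1 + f e0) ^ 2 + f ((e0 - e1) * (e0 - e2)) with hDdef
  set i0 : ℝ := (f (t - e0))⁻¹ with hi0
  set i1 : ℝ := (f (t - e1))⁻¹ with hi1
  set i2 : ℝ := (f (t - e2))⁻¹ with hi2
  have q0 : 0 ≤ i0 := inv_nonneg.2 (f.nonneg _)
  have q1 : 0 ≤ i1 := inv_nonneg.2 (f.nonneg _)
  have q2 : 0 ≤ i2 := inv_nonneg.2 (f.nonneg _)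
  have r0 : 0 ≤ f e0 := f.nonneg _
  have r1 : 0 ≤ f e1 := f.nonneg _
  have r2 : 0 ≤ f e2 := f.nonneg _
  have hxe : f (x - e0) ≤ D ^ 2 * (f 4)⁻¹ * ((1 + f e0) * (1 + f e1) * (1 + f e2)) *
      (max 1 (f t) * max 1 i0 * max 1 i1 * max 1 i2) := by
    rw [hx]
    calc f ((t - e0) ^ 2 - (e0 - e1) * (e0 - e2)) ^ 2 * (f 4)⁻¹ * (i0 * i1 * i2)
        ≤ (D ^ 2 * max 1 (f t) ^ 4) * (f 4)⁻¹ * (i0 * i1 * i2) := by
          apply mul_le_mul_of_nonneg_right _ (by positivity)
          exact mul_le_mul_of_nonneg_right hD2 (by positivity)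
      _ = D ^ 2 * (f 4)⁻¹ * max 1 (f t) *
          ((max 1 (f t) * i0) * (max 1 (f t) * i1) * (max 1 (f t) * i2)) := by ring
      _ ≤ D ^ 2 * (f 4)⁻¹ * max 1 (f t) *
          (((1 + f e0) * max 1 i0) * ((1 + f e1) * max 1 i1) * ((1 + f e2) * max 1 i2)) := by
          apply mul_le_mul_of_nonneg_left _ (by positivity)
          apply mul_le_mul _ k2 (by positivity) (by positivity)
          exact mul_le_mul k0 k1 (by positivity) (by positivity)
      _ = _ := by ring
  have hone := one_le4 (f t) i0 i1 i2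
  calc f x = f ((x - e0) + e0) := by rw [sub_add_cancel]
    _ ≤ f (x - e0) + f e0 := f.add_le _ _
    _ ≤ D ^ 2 * (f 4)⁻¹ * ((1 + f e0) * (1 + f e1) * (1 + f e2)) *
      (max 1 (f t) * max 1 i0 * max 1 i1 * max 1 i2) +
      f e0 * (max 1 (f t) * max 1 i0 * max 1 i1 * max 1 i2) := by
        apply add_le_add hxe
        nlinarith
    _ = _ := by ring

/-- the local bound at a finite point -/
lemma locFin (f : AbsoluteValue E ℝ) (h4 : (4 : E) ≠ 0) (e0 e1 e2 t u x α a b c d : E)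
    (hu : u ≠ 0) (h1 : u ^ 2 = (t - e0) * (t - e1) * (t - e2))
    (h2 : 4 * u ^ 2 * (x - α) = (t - a) * (t - b) * (t - c) * (t - d)) :
    Real.log (max 1 (f (x - α))⁻¹) ≤
      Real.log (max 1 (f 4 * ((1 + f e0) * (1 + f e1) * (1 + f e2)) *
        ((1 + f a) * (1 + f b) * (1 + f c) * (1 + f d)))) +
      (ph f a t + ph f b t + ph f c t + ph f d t) := by
  by_cases hxα : x - α = 0
  · rw [hxα, map_zero, inv_zero]
    have h3 : Real.log (max 1 (0 : ℝ)) = 0 := by
      rw [max_eq_left zero_le_one, Real.log_one]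
    rw [h3]
    have h5 : 0 ≤ Real.log (max 1 (f 4 * ((1 + f e0) * (1 + f e1) * (1 + f e2)) *
        ((1 + f a) * (1 + f b) * (1 + f c) * (1 + f d)))) := Real.log_nonneg (le_max_left _ _)
    have := ph_nonneg f a t
    have := ph_nonneg f b t
    have := ph_nonneg f c t
    have := ph_nonneg f d t
    linarith
  have hne : (t - a) * (t - b) * (t - c) * (t - d) ≠ 0 := by
    rw [← h2]
    exact mul_ne_zero (mul_ne_zero h4 (pow_ne_zero 2 hu)) hxα
  have ha : t - a ≠ 0 := fun h => hne (by rw [h]; ring)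
  have hb : t - b ≠ 0 := fun h => hne (by rw [h]; ring)
  have hc : t - c ≠ 0 := fun h => hne (by rw [h]; ring)
  have hd : t - d ≠ 0 := fun h => hne (by rw [h]; ring)
  unfold ph
  rw [← log4]
  apply logmax (one_le4 _ _ _ _)
  have hM1 : 1 ≤ max 1 (f t) := le_max_left _ _
  have hMpos : 0 < max 1 (f t) := lt_of_lt_of_le one_pos hM1
  have hf4 : 0 < f 4 := f.pos h4
  have hx : (f (x - α))⁻¹ = f 4 * f (u ^ 2) *
      ((f (t - a))⁻¹ * (f (t - b))⁻¹ * (f (t - c))⁻¹ * (f (t - d))⁻¹) := by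
    have h3 := congrArg f h2
    rw [map_mul, map_mul, map_mul, map_mul, map_mul] at h3
    have pa : 0 < f (t - a) := f.pos ha
    have pb : 0 < f (t - b) := f.pos hb
    have pc : 0 < f (t - c) := f.pos hc
    have pd : 0 < f (t - d) := f.pos hd
    have px : 0 < f (x - α) := f.pos hxα
    field_simp
    linarith
  have hu2 : f (u ^ 2) ≤ ((1 + f e0) * (1 + f e1) * (1 + f e2)) * max 1 (f t) ^ 3 := by
    rw [h1, map_mul, map_mul]
    have r0 : 0 ≤ f e0 := f.nonneg _
    have r1 : 0 ≤ f e1 := f.nonneg _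
    have r2 : 0 ≤ f e2 := f.nonneg _
    calc f (t - e0) * f (t - e1) * f (t - e2)
        ≤ ((1 + f e0) * max 1 (f t)) * ((1 + f e1) * max 1 (f t)) *
          ((1 + f e2) * max 1 (f t)) := by
          apply mul_le_mul _ (upK f e2 t) (f.nonneg _) (by positivity)
          exact mul_le_mul (upK f e0 t) (upK f e1 t) (f.nonneg _) (by positivity)
      _ = _ := by ring
  have ka := keyK f a t ha
  have kb := keyK f b t hb
  have kc := keyK f c t hc
  have kd := keyK f d t hd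
  rw [hx]
  set ia : ℝ := (f (t - a))⁻¹ with hia
  set ib : ℝ := (f (t - b))⁻¹ with hib
  set ic : ℝ := (f (t - c))⁻¹ with hic
  set id' : ℝ := (f (t - d))⁻¹ with hid
  set P : ℝ := (1 + f e0) * (1 + f e1) * (1 + f e2) with hP
  have qa : 0 ≤ ia := inv_nonneg.2 (f.nonneg _)
  have qb : 0 ≤ ib := inv_nonneg.2 (f.nonneg _)
  have qc : 0 ≤ ic := inv_nonneg.2 (f.nonneg _)
  have qd : 0 ≤ id' := inv_nonneg.2 (f.nonneg _)
  have r0 : 0 ≤ f e0 := f.nonneg _
  have r1 : 0 ≤ f e1 := f.nonneg _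
  have r2 : 0 ≤ f e2 := f.nonneg _
  have ra : 0 ≤ f a := f.nonneg _
  have rb : 0 ≤ f b := f.nonneg _
  have rc : 0 ≤ f c := f.nonneg _
  have rd : 0 ≤ f d := f.nonneg _
  have hPpos : 0 ≤ P := by positivity
  have hM34 : max 1 (f t) ^ 3 ≤ max 1 (f t) ^ 4 := pow_le_pow_right₀ hM1 (by norm_num)
  calc f 4 * f (u ^ 2) * (ia * ib * ic * id')
      ≤ f 4 * (P * max 1 (f t) ^ 4) * (ia * ib * ic * id') := by
        apply mul_le_mul_of_nonneg_right _ (by positivity)
        apply mul_le_mul_of_nonneg_left _ hf4.le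
        exact le_trans hu2 (mul_le_mul_of_nonneg_left hM34 hPpos)
    _ = f 4 * P * ((max 1 (f t) * ia) * (max 1 (f t) * ib) * (max 1 (f t) * ic) *
        (max 1 (f t) * id')) := by ring
    _ ≤ f 4 * P * (((1 + f a) * max 1 ia) * ((1 + f b) * max 1 ib) * ((1 + f c) * max 1 ic) *
        ((1 + f d) * max 1 id')) := by
        apply mul_le_mul_of_nonneg_left _ (by positivity)
        apply mul_le_mul _ kd (by positivity) (by positivity)
        apply mul_le_mul _ kc (by positivity) (by positivity)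
        exact mul_le_mul ka kb (by positivity) (by positivity)
    _ = _ := by ring

/-- the four halves of a point -/
def t0 (α a b c : E) : E := α + (a * b + a * c + b * c)
def t1 (α a b c : E) : E := α + (-(a * b) - a * c + b * c)
def t2 (α a b c : E) : E := α + (-(a * b) + a * c - b * c)
def t3 (α a b c : E) : E := α + (a * b - a * c - b * c)

lemma ident (e0 e1 e2 α a b c t : E) (h0 : α - e0 = a * a) (h1 : α - e1 = b * b)
    (h2 : α - e2 = c * c) :
    ((t - e0) ^ 2 - (e0 - e1) * (e0 - e2)) ^ 2 -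
      4 * ((t - e0) * (t - e1) * (t - e2)) * (α - e0) =
    (t - t0 α a b c) * (t - t1 α a b c) * (t - t2 α a b c) * (t - t3 α a b c) := by
  obtain rfl : e0 = α - a * a := by rw [← h0]; ring
  obtain rfl : e1 = α - b * b := by rw [← h1]; ring
  obtain rfl : e2 = α - c * c := by rw [← h2]; ring
  unfold t0 t1 t2 t3
  ring

open Classical in
/-- the set of the halves -/
noncomputable def BB (α a b c : E) : Finset E :=
  {t0 α a b c, t1 α a b c, t2 α a b c, t3 α a b c}

lemma mem_BB (α a b c t : E) : t ∈ BB α a b c ↔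
    (t = t0 α a b c ∨ t = t1 α a b c ∨ t = t2 α a b c ∨ t = t3 α a b c) := by
  classical
  unfold BB
  simp only [Finset.mem_insert, Finset.mem_singleton]

lemma BB_root (e0 e1 e2 α a b c t : E) (h0 : α - e0 = a * a) (h1 : α - e1 = b * b)
    (h2 : α - e2 = c * c) (ht : t ∈ BB α a b c) :
    4 * ((t - e0) * (t - e1) * (t - e2)) * (α - e0) =
      ((t - e0) ^ 2 - (e0 - e1) * (e0 - e2)) ^ 2 := by
  have h := ident e0 e1 e2 α a b c t h0 h1 h2
  rw [mem_BB] at ht
  have h3 : (t - t0 α a b c) * (t - t1 α a b c) * (t - t2 α a b c) * (t - t3 α a b c) = 0 := by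
    rcases ht with ht | ht | ht | ht
    · rw [← ht]; ring
    · rw [← ht]; ring
    · rw [← ht]; ring
    · rw [← ht]; ring
  rw [h3] at h
  exact (sub_eq_zero.1 h).symm

lemma BB_ne (α a b c t : E) (hab : a * a ≠ b * b) (hac : a * a ≠ c * c) (hbc : b * b ≠ c * c)
    (ht : t ∈ BB α a b c) : t ≠ α - a * a ∧ t ≠ α - b * b ∧ t ≠ α - c * c := by
  have h1 : a + b ≠ 0 := fun h => hab (by linear_combination (a - b) * h)
  have h2 : a - b ≠ 0 := fun h => hab (by linear_combination (a + b) * h)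
  have h3 : a + c ≠ 0 := fun h => hac (by linear_combination (a - c) * h)
  have h4 : a - c ≠ 0 := fun h => hac (by linear_combination (a + c) * h)
  have h5 : b + c ≠ 0 := fun h => hbc (by linear_combination (b - c) * h)
  have h6 : b - c ≠ 0 := fun h => hbc (by linear_combination (b + c) * h)
  rw [mem_BB] at ht
  rcases ht with rfl | rfl | rfl | rfl
  · refine ⟨fun h => ?_, fun h => ?_, fun h => ?_⟩
    · exact mul_ne_zero h1 h3 (by unfold t0 at h; linear_combination h)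
    · exact mul_ne_zero h1 h5 (by unfold t0 at h; linear_combination h)
    · exact mul_ne_zero h3 h5 (by unfold t0 at h; linear_combination h)
  · refine ⟨fun h => ?_, fun h => ?_, fun h => ?_⟩
    · exact mul_ne_zero h2 h4 (by unfold t1 at h; linear_combination h)
    · exact mul_ne_zero h2 h5 (by unfold t1 at h; linear_combination (-1 : E) * h)
    · exact mul_ne_zero h4 h5 (by unfold t1 at h; linear_combination (-1 : E) * h)
  · refine ⟨fun h => ?_, fun h => ?_, fun h => ?_⟩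
    · exact mul_ne_zero h2 h3 (by unfold t2 at h; linear_combination h)
    · exact mul_ne_zero h2 h6 (by unfold t2 at h; linear_combination (-1 : E) * h)
    · exact mul_ne_zero h3 h6 (by unfold t2 at h; linear_combination (-1 : E) * h)
  · refine ⟨fun h => ?_, fun h => ?_, fun h => ?_⟩
    · exact mul_ne_zero h1 h4 (by unfold t3 at h; linear_combination h)
    · exact mul_ne_zero h1 h6 (by unfold t3 at h; linear_combination h)
    · exact mul_ne_zero h4 h6 (by unfold t3 at h; linear_combination h)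

omit [Field E] in
lemma pair_le (S : Finset E) (φ : E → ℝ) (hφ : ∀ β, 0 ≤ φ β) (x y : E) (hxy : x ≠ y)
    (hx : x ∈ S) (hy : y ∈ S) : φ x + φ y ≤ ∑ β ∈ S, φ β := by
  classical
  have h : ({x, y} : Finset E) ⊆ S := by
    intro z hz
    rw [Finset.mem_insert, Finset.mem_singleton] at hz
    rcases hz with rfl | rfl
    · exact hx
    · exact hy
  calc φ x + φ y = ∑ β ∈ ({x, y} : Finset E), φ β := (Finset.sum_pair hxy).symm
    _ ≤ _ := Finset.sum_le_sum_of_subset_of_nonneg h fun i _ _ => hφ i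

lemma BB_sum (h2 : (2 : E) ≠ 0) (α a b c : E) (hab : a * a ≠ b * b) (hac : a * a ≠ c * c)
    (hbc : b * b ≠ c * c) (φ : E → ℝ) (hφ : ∀ β, 0 ≤ φ β) :
    φ (t0 α a b c) + φ (t1 α a b c) + φ (t2 α a b c) + φ (t3 α a b c) ≤
      2 * ∑ β ∈ BB α a b c, φ β := by
  classical
  have m0 : t0 α a b c ∈ BB α a b c := (mem_BB _ _ _ _ _).2 (Or.inl rfl)
  have m1 : t1 α a b c ∈ BB α a b c := (mem_BB _ _ _ _ _).2 (Or.inr (Or.inl rfl))
  have m2 : t2 α a b c ∈ BB α a b c := (mem_BB _ _ _ _ _).2 (Or.inr (Or.inr (Or.inl rfl)))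
  have m3 : t3 α a b c ∈ BB α a b c := (mem_BB _ _ _ _ _).2 (Or.inr (Or.inr (Or.inr rfl)))
  by_cases ha : a = 0
  · have hb : b ≠ 0 := by rintro rfl; exact hab (by rw [ha])
    have hc : c ≠ 0 := by rintro rfl; exact hac (by rw [ha])
    have e1 : t1 α a b c = t0 α a b c := by rw [ha]; unfold t0 t1; ring
    have e3 : t3 α a b c = t2 α a b c := by rw [ha]; unfold t2 t3; ring
    have hne : t0 α a b c ≠ t2 α a b c := by
      intro h
      rw [ha] at h
      exact mul_ne_zero (mul_ne_zero h2 hb) hc (by unfold t0 t2 at h; linear_combination h)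
    have := pair_le (BB α a b c) φ hφ _ _ hne m0 m2
    rw [e1, e3]
    linarith
  by_cases hb : b = 0
  · have hc : c ≠ 0 := by rintro rfl; exact hbc (by rw [hb])
    have e2 : t2 α a b c = t0 α a b c := by rw [hb]; unfold t0 t2; ring
    have e3 : t3 α a b c = t1 α a b c := by rw [hb]; unfold t1 t3; ring
    have hne : t0 α a b c ≠ t1 α a b c := by
      intro h
      rw [hb] at h
      exact mul_ne_zero (mul_ne_zero h2 ha) hc (by unfold t0 t1 at h; linear_combination h)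
    have := pair_le (BB α a b c) φ hφ _ _ hne m0 m1
    rw [e2, e3]
    linarith
  by_cases hc : c = 0
  · have e3 : t3 α a b c = t0 α a b c := by rw [hc]; unfold t0 t3; ring
    have e2 : t2 α a b c = t1 α a b c := by rw [hc]; unfold t1 t2; ring
    have hne : t0 α a b c ≠ t1 α a b c := by
      intro h
      rw [hc] at h
      exact mul_ne_zero (mul_ne_zero h2 ha) hb (by unfold t0 t1 at h; linear_combination h)
    have := pair_le (BB α a b c) φ hφ _ _ hne m0 m1
    rw [e2, e3]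
    linarith
  have g1 : a + b ≠ 0 := fun h => hab (by linear_combination (a - b) * h)
  have g2 : a - b ≠ 0 := fun h => hab (by linear_combination (a + b) * h)
  have g3 : a + c ≠ 0 := fun h => hac (by linear_combination (a - c) * h)
  have g4 : a - c ≠ 0 := fun h => hac (by linear_combination (a + c) * h)
  have g5 : b + c ≠ 0 := fun h => hbc (by linear_combination (b - c) * h)
  have g6 : b - c ≠ 0 := fun h => hbc (by linear_combination (b + c) * h)
  have n01 : t0 α a b c ≠ t1 α a b c := fun h =>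
    mul_ne_zero (mul_ne_zero h2 ha) g5 (by unfold t0 t1 at h; linear_combination h)
  have n02 : t0 α a b c ≠ t2 α a b c := fun h =>
    mul_ne_zero (mul_ne_zero h2 hb) g3 (by unfold t0 t2 at h; linear_combination h)
  have n03 : t0 α a b c ≠ t3 α a b c := fun h =>
    mul_ne_zero (mul_ne_zero h2 hc) g1 (by unfold t0 t3 at h; linear_combination h)
  have n12 : t1 α a b c ≠ t2 α a b c := fun h =>
    mul_ne_zero (mul_ne_zero h2 hc) g2 (by unfold t1 t2 at h; linear_combination (-1 : E) * h)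
  have n13 : t1 α a b c ≠ t3 α a b c := fun h =>
    mul_ne_zero (mul_ne_zero h2 hb) g4 (by unfold t1 t3 at h; linear_combination (-1 : E) * h)
  have n23 : t2 α a b c ≠ t3 α a b c := fun h =>
    mul_ne_zero (mul_ne_zero h2 ha) g6 (by unfold t2 t3 at h; linear_combination (-1 : E) * h)
  have hsum : ∑ β ∈ BB α a b c, φ β =
      φ (t0 α a b c) + (φ (t1 α a b c) + (φ (t2 α a b c) + φ (t3 α a b c))) := by
    unfold BB
    rw [Finset.sum_insert, Finset.sum_insert, Finset.sum_pair n23]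
    · simp only [Finset.mem_insert, Finset.mem_singleton, not_or]
      exact ⟨n12, n13⟩
    · simp only [Finset.mem_insert, Finset.mem_singleton, not_or]
      exact ⟨n01, n02, n03⟩
  have h0 := hφ (t0 α a b c)
  have h1 := hφ (t1 α a b c)
  have h2' := hφ (t2 α a b c)
  have h3 := hφ (t3 α a b c)
  rw [hsum]
  linarith

end PDUPL

open PDUPL in
theorem dupl : S_DUPL := by
  classical
  intro E _ _ e he A hA
  have h4 : (4 : E) ≠ 0 := by norm_num
  have h2 : (2 : E) ≠ 0 := by norm_num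
  choose! s hs using hA
  -- the three square roots
  have hs' : ∀ α ∈ A, ∀ i, α - e i = s α i * s α i := hs
  have hne : ∀ α ∈ A, ∀ i j, i ≠ j → s α i * s α i ≠ s α j * s α j := by
    intro α hα i j hij h
    rw [← hs' α hα i, ← hs' α hα j] at h
    exact hij (he (sub_right_injective h))
  set Bf : E → Finset E := fun α => BB α (s α 0) (s α 1) (s α 2) with hBf
  have hdisj1 : ∀ α ∈ A, ∀ t ∈ Bf α, ∀ i, t ≠ e i := by
    intro α hα t ht i
    have h := BB_ne α (s α 0) (s α 1) (s α 2) t (hne α hα 0 1 (by decide))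
      (hne α hα 0 2 (by decide)) (hne α hα 1 2 (by decide)) ht
    have q0 : α - s α 0 * s α 0 = e 0 := by rw [← hs' α hα 0]; ring
    have q1 : α - s α 1 * s α 1 = e 1 := by rw [← hs' α hα 1]; ring
    have q2 : α - s α 2 * s α 2 = e 2 := by rw [← hs' α hα 2]; ring
    rw [q0, q1, q2] at h
    fin_cases i
    · exact h.1
    · exact h.2.1
    · exact h.2.2
  have hdisj2 : ∀ α ∈ A, ∀ α' ∈ A, α ≠ α' → Disjoint (Bf α) (Bf α') := by
    intro α hα α' hα' hαα'
    rw [Finset.disjoint_left]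
    intro t ht ht'
    apply hαα'
    have r1 := BB_root (e 0) (e 1) (e 2) α _ _ _ t (hs' α hα 0) (hs' α hα 1) (hs' α hα 2) ht
    have r2 := BB_root (e 0) (e 1) (e 2) α' _ _ _ t (hs' α' hα' 0) (hs' α' hα' 1)
      (hs' α' hα' 2) ht'
    have r3 : 4 * ((t - e 0) * (t - e 1) * (t - e 2)) * (α - e 0) =
      4 * ((t - e 0) * (t - e 1) * (t - e 2)) * (α' - e 0) := by rw [r1, r2]
    have r4 : 4 * ((t - e 0) * (t - e 1) * (t - e 2)) ≠ 0 :=
      mul_ne_zero h4 (mul_ne_zero (mul_ne_zero (sub_ne_zero.2 (hdisj1 α hα t ht 0))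
        (sub_ne_zero.2 (hdisj1 α hα t ht 1))) (sub_ne_zero.2 (hdisj1 α hα t ht 2)))
    exact sub_left_injective (mul_left_cancel₀ r4 r3)
  refine ⟨Finset.univ.image e ∪ A.biUnion Bf, fun p => ?_⟩
  set f : AbsoluteValue E ℝ := av p with hf
  set C0 : ℝ := Real.log (max 1 (((1 + f (e 0)) ^ 2 + f ((e 0 - e 1) * (e 0 - e 2))) ^ 2 *
    (f 4)⁻¹ * ((1 + f (e 0)) * (1 + f (e 1)) * (1 + f (e 2))) + f (e 0))) with hC0
  set C1 : E → ℝ := fun α => Real.log (max 1 (f 4 * ((1 + f (e 0)) * (1 + f (e 1)) *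
    (1 + f (e 2))) * ((1 + f (t0 α (s α 0) (s α 1) (s α 2))) *
      (1 + f (t1 α (s α 0) (s α 1) (s α 2))) * (1 + f (t2 α (s α 0) (s α 1) (s α 2))) *
      (1 + f (t3 α (s α 0) (s α 1) (s α 2)))))) with hC1
  refine ⟨C0 + ∑ α ∈ A, C1 α, ?_⟩
  intro t u x hD
  obtain ⟨hu, hu2, hux⟩ := hD
  have hinf := locInf f h4 (e 0) (e 1) (e 2) t u x hu hu2 hux
  have hfin : ∀ α ∈ A, Real.log (max 1 (f (x - α))⁻¹) ≤ C1 α + 2 * ∑ β ∈ Bf α, ph f β t := by
    intro α hα
    have hid := ident (e 0) (e 1) (e 2) α (s α 0) (s α 1) (s α 2) t (hs' α hα 0) (hs' α hα 1)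
      (hs' α hα 2)
    have hx : 4 * u ^ 2 * (x - α) = (t - t0 α (s α 0) (s α 1) (s α 2)) *
        (t - t1 α (s α 0) (s α 1) (s α 2)) * (t - t2 α (s α 0) (s α 1) (s α 2)) *
        (t - t3 α (s α 0) (s α 1) (s α 2)) := by
      rw [← hid, ← hux, ← hu2]
      ring
    have h3 := locFin f h4 (e 0) (e 1) (e 2) t u x α _ _ _ _ hu hu2 hx
    have h5 := BB_sum h2 α (s α 0) (s α 1) (s α 2) (hne α hα 0 1 (by decide))
      (hne α hα 0 2 (by decide)) (hne α hα 1 2 (by decide)) (fun β => ph f β t)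
      (fun β => ph_nonneg f β t)
    exact le_trans h3 (add_le_add le_rfl h5)
  have hsumA : ∑ α ∈ A, Real.log (max 1 (f (x - α))⁻¹) ≤
      ∑ α ∈ A, C1 α + 2 * ∑ β ∈ A.biUnion Bf, ph f β t := by
    rw [Finset.sum_biUnion (fun α hα α' hα' h => hdisj2 α hα α' hα' h), Finset.mul_sum,
      ← Finset.sum_add_distrib]
    exact Finset.sum_le_sum hfin
  have hE : ∑ β ∈ Finset.univ.image e, ph f β t = ph f (e 0) t + ph f (e 1) t + ph f (e 2) t := by
    rw [Finset.sum_image (fun i _ j _ h => he h), Fin.sum_univ_three]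
  have hB : ∑ β ∈ Finset.univ.image e ∪ A.biUnion Bf, ph f β t =
      ∑ β ∈ Finset.univ.image e, ph f β t + ∑ β ∈ A.biUnion Bf, ph f β t := by
    apply Finset.sum_union
    rw [Finset.disjoint_left]
    intro β hβ hβ'
    rw [Finset.mem_image] at hβ
    obtain ⟨i, _, rfl⟩ := hβ
    rw [Finset.mem_biUnion] at hβ'
    obtain ⟨α, hα, h⟩ := hβ'
    exact hdisj1 α hα _ h i rfl
  have hL : 0 ≤ Real.log (max 1 (f t)) := Real.log_nonneg (le_max_left _ _)
  have hE0 : 0 ≤ ∑ β ∈ Finset.univ.image e, ph f β t :=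
    Finset.sum_nonneg fun β _ => ph_nonneg f β t
  have hgoal : lam p (Finset.univ.image e ∪ A.biUnion Bf) t = Real.log (max 1 (f t)) +
      ∑ β ∈ Finset.univ.image e ∪ A.biUnion Bf, ph f β t := rfl
  have hgoal2 : lam p A x = Real.log (max 1 (f x)) +
      ∑ α ∈ A, Real.log (max 1 (f (x - α))⁻¹) := rfl
  rw [hgoal, hgoal2, hB]
  rw [← hC0] at hinf
  linarith

end Pool.Agent.H432.G1
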