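import Mathlib
import Pool.Agent.H432.G1.Stm

/-!
# ELLORD: the derivation `y d/dx` is regular at all places of the function field
-/

set_option autoImplicit false
set_option linter.all false

namespace Pool.Agent.H432.G1

namespace PELLORD

open Polynomial

section base

variable {K F : Type} [Field K] [Field F] [Algebra K F] (v : AddValuation F (WithTop ℤ))

/-- the order of a constant multiple -/
theorem v_C_mul (hc : ∀ c : K, c ≠ 0 → v (algebraMap K F c) = 0) {c : K} (h : c ≠ 0) (f : F) :
    v (algebraMap K F c * f) = v f := by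
  rw [v.map_mul, hc c h, zero_add]

theorem v_const_nonneg (hc : ∀ c : K, c ≠ 0 → v (algebraMap K F c) = 0) (c : K) :
    0 ≤ v (algebraMap K F c) := by
  by_cases h : c = 0
  · rw [h, map_zero, v.map_zero]
    exact le_top
  · rw [hc c h]

/-- polynomials are integral if `z` is -/
theorem v_poly_nonneg (hc : ∀ c : K, c ≠ 0 → v (algebraMap K F c) = 0) {z : F} (hz : 0 ≤ v z)
    (P : K[X]) : 0 ≤ v (aeval z P) := by
  induction P using Polynomial.induction_on' with
  | add p q hp hq =>
    rw [map_add]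
    exact v.map_le_add hp hq
  | monomial i c =>
    rw [aeval_monomial, v.map_mul, v.map_pow]
    exact add_nonneg (v_const_nonneg v hc c) (nsmul_nonneg hz i)

/-- a polynomial with `P(0) ≠ 0` has order zero -/
theorem v_poly_zero (hc : ∀ c : K, c ≠ 0 → v (algebraMap K F c) = 0) {z : F} (hz : 0 < v z)
    {P : K[X]} (hP : P.coeff 0 ≠ 0) : v (aeval z P) = 0 := by
  have h1 : aeval z P = z * aeval z P.divX + algebraMap K F (P.coeff 0) := by
    conv_lhs => rw [← P.X_mul_divX_add]
    rw [map_add, map_mul, aeval_X, aeval_C]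
  have h2 : 0 < v (z * aeval z P.divX) := by
    rw [v.map_mul]
    exact add_pos_of_pos_of_nonneg hz (v_poly_nonneg v hc hz.le _)
  rw [h1, v.map_add_eq_of_lt_right (by rw [hc _ hP]; exact h2), hc _ hP]

/-- the order of a polynomial in `z` is a multiple of the order of `z`, for positive order -/
theorem v_poly_pos (hc : ∀ c : K, c ≠ 0 → v (algebraMap K F c) = 0) {z : F} {n : ℤ} (hn : 0 < n)
    (hz : v z = (n : WithTop ℤ)) {P : K[X]} (hP : P ≠ 0) :
    ∃ k : ℤ, v (aeval z P) = ((n * k : ℤ) : WithTop ℤ) := by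
  obtain ⟨N, hN⟩ : ∃ N : ℕ, P.natDegree ≤ N := ⟨_, le_rfl⟩
  induction N generalizing P with
  | zero =>
    have h1 : P = C (P.coeff 0) := eq_C_of_natDegree_le_zero hN
    refine ⟨0, ?_⟩
    rw [h1, aeval_C, mul_zero, hc]
    · rfl
    · intro h0
      rw [h0, C_0] at h1
      exact hP h1
  | succ N ih =>
    have hz' : 0 < v z := by
      rw [hz]
      exact_mod_cast hn
    by_cases h0 : P.coeff 0 = 0
    · have h1 : P = X * P.divX := by
        conv_lhs => rw [← P.X_mul_divX_add, h0, C_0, add_zero]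
      have h2 : P.divX ≠ 0 := by
        intro h2
        rw [h2, mul_zero] at h1
        exact hP h1
      have h3 : P.divX.natDegree ≤ N := by
        rw [natDegree_divX_eq_natDegree_tsub_one]
        omega
      obtain ⟨k, hk⟩ := ih h2 h3
      refine ⟨k + 1, ?_⟩
      rw [h1, map_mul, aeval_X, v.map_mul, hz, hk, ← WithTop.coe_add]
      congr 1
      ring
    · refine ⟨0, ?_⟩
      rw [v_poly_zero v hc hz' h0, mul_zero]
      rfl

/-- the order of a polynomial in `z`, for negative order -/
theorem v_poly_neg (hc : ∀ c : K, c ≠ 0 → v (algebraMap K F c) = 0) {z : F} {n : ℤ} (hn : n < 0)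
    (hz : v z = (n : WithTop ℤ)) {P : K[X]} (hP : P ≠ 0) :
    v (aeval z P) = ((n * P.natDegree : ℤ) : WithTop ℤ) := by
  have hpow : ∀ i : ℕ, v (z ^ i) = ((n * i : ℤ) : WithTop ℤ) := by
    intro i
    induction i with
    | zero =>
      rw [pow_zero, v.map_one]
      simp
    | succ i ih =>
      rw [pow_succ, v.map_mul, ih, hz, ← WithTop.coe_add]
      congr 1
      push_cast
      ring
  have hle : ∀ (P : K[X]) (d : ℕ), P.natDegree ≤ d → ((n * d : ℤ) : WithTop ℤ) ≤ v (aeval z P) := by
    intro P d hd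
    rw [aeval_eq_sum_range' (n := d + 1) (by omega)]
    apply v.map_le_sum
    intro i hi
    rw [Finset.mem_range] at hi
    rw [Algebra.smul_def, v.map_mul, hpow]
    have h1 : ((n * d : ℤ) : WithTop ℤ) ≤ ((n * i : ℤ) : WithTop ℤ) := by
      rw [WithTop.coe_le_coe]
      have : (i : ℤ) ≤ d := by omega
      nlinarith
    calc ((n * d : ℤ) : WithTop ℤ) ≤ ((n * i : ℤ) : WithTop ℤ) := h1
      _ = 0 + ((n * i : ℤ) : WithTop ℤ) := (zero_add _).symm
      _ ≤ _ := add_le_add_left (v_const_nonneg v hc _) _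
  rcases Nat.eq_zero_or_pos P.natDegree with h0 | h0
  · have h1 : P = C (P.coeff 0) := eq_C_of_natDegree_le_zero (by omega)
    rw [h0, h1, aeval_C, hc]
    · simp
    · intro h2
      rw [h2, C_0] at h1
      exact hP h1
  · have h1 : P = P.eraseLead + C P.leadingCoeff * X ^ P.natDegree :=
      (eraseLead_add_C_mul_X_pow P).symm
    have h2 : v (aeval z (C P.leadingCoeff * X ^ P.natDegree)) =
        ((n * P.natDegree : ℤ) : WithTop ℤ) := by
      rw [map_mul, aeval_C, map_pow, aeval_X, v_C_mul v hc (leadingCoeff_ne_zero.2 hP), hpow]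
    have h3 : v (aeval z (C P.leadingCoeff * X ^ P.natDegree)) < v (aeval z P.eraseLead) := by
      rw [h2]
      refine lt_of_lt_of_le ?_ (hle P.eraseLead (P.natDegree - 1) (eraseLead_natDegree_le P))
      rw [WithTop.coe_lt_coe]
      have : ((P.natDegree - 1 : ℕ) : ℤ) = (P.natDegree : ℤ) - 1 := by omega
      rw [this]
      linarith
    conv_lhs => rw [h1]
    rw [map_add, v.map_add_eq_of_lt_right h3, h2]

/-- cases of odd order of `y` -/
theorem odd_case {z y : F} {m j : ℤ} (hm : m ≠ 0) (hj : ¬ 2 ∣ j)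
    (hP : ∀ P : K[X], P ≠ 0 → ∃ k : ℤ, v (aeval z P) = ((2 * m * k : ℤ) : WithTop ℤ))
    (hy : v y = ((j * m : ℤ) : WithTop ℤ)) (p q : K[X]) (h0 : aeval z p + aeval z q * y ≠ 0) :
    ∃ k : ℤ, v (aeval z p + aeval z q * y) = ((m * k : ℤ) : WithTop ℤ) := by
  by_cases hp : p = 0
  · by_cases hq : q = 0
    · exfalso
      apply h0
      rw [hp, hq, map_zero, zero_mul, add_zero]
    · obtain ⟨l, hl⟩ := hP q hq
      refine ⟨2 * l + j, ?_⟩
      rw [hp, map_zero, zero_add, v.map_mul, hl, hy, ← WithTop.coe_add]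
      congr 1
      ring
  · obtain ⟨k, hk⟩ := hP p hp
    by_cases hq : q = 0
    · refine ⟨2 * k, ?_⟩
      rw [hq, map_zero, zero_mul, add_zero, hk]
      congr 1
      ring
    · obtain ⟨l, hl⟩ := hP q hq
      have h1 : v (aeval z q * y) = ((m * (2 * l + j) : ℤ) : WithTop ℤ) := by
        rw [v.map_mul, hl, hy, ← WithTop.coe_add]
        congr 1
        ring
      have h2 : v (aeval z p) ≠ v (aeval z q * y) := by
        rw [hk, h1]
        intro h
        rw [WithTop.coe_inj] at h
        have h3 : m * (2 * k) = m * (2 * l + j) := by linarith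
        have h4 := mul_left_cancel₀ hm h3
        apply hj
        exact ⟨k - l, by linarith⟩
      rw [v.map_add_of_distinct_val h2, hk, h1]
      rcases min_choice (((2 * m * k : ℤ) : WithTop ℤ)) ((m * (2 * l + j) : ℤ) : WithTop ℤ) with h | h
      · refine ⟨2 * k, ?_⟩
        rw [h]
        congr 1
        ring
      · exact ⟨_, h⟩

/-- the unramified case, not both divisible by `z` -/
theorem unr_core (hc : ∀ c : K, c ≠ 0 → v (algebraMap K F c) = 0) (h2 : (2 : K) ≠ 0) {z y : F}
    {n : ℤ} (hn : 0 < n) (hz : v z = (n : WithTop ℤ)) (hy : v y = 0) (g : K[X])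
    (hg : y ^ 2 = aeval z g) (p q : K[X]) (h0 : aeval z p + aeval z q * y ≠ 0)
    (hpq : p.coeff 0 ≠ 0 ∨ q.coeff 0 ≠ 0) :
    ∃ k : ℤ, v (aeval z p + aeval z q * y) = ((n * k : ℤ) : WithTop ℤ) := by
  have hz' : 0 < v z := by
    rw [hz]
    exact_mod_cast hn
  have h3 : 0 ≤ v (aeval z p + aeval z q * y) := by
    apply v.map_le_add (v_poly_nonneg v hc hz'.le p)
    rw [v.map_mul, hy, add_zero]
    exact v_poly_nonneg v hc hz'.le q
  have h4 : 0 ≤ v (aeval z p - aeval z q * y) := by
    apply v.map_le_sub (v_poly_nonneg v hc hz'.le p)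
    rw [v.map_mul, hy, add_zero]
    exact v_poly_nonneg v hc hz'.le q
  rcases h3.eq_or_lt with h5 | h5
  · refine ⟨0, ?_⟩
    rw [← h5, mul_zero]
    rfl
  rcases h4.eq_or_lt with h6 | h6
  · have h7 : (aeval z p + aeval z q * y) * (aeval z p - aeval z q * y) =
        aeval z (p ^ 2 - q ^ 2 * g) := by
      rw [map_sub, map_mul, map_pow, map_pow, ← hg]
      ring
    have h8 : aeval z p - aeval z q * y ≠ 0 := by
      intro h8
      rw [h8, v.map_zero] at h6
      exact absurd h6 (by simp)
    have h9 : p ^ 2 - q ^ 2 * g ≠ 0 := by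
      intro h9
      rw [h9, map_zero] at h7
      exact mul_ne_zero h0 h8 h7
    obtain ⟨k, hk⟩ := v_poly_pos v hc hn hz h9
    refine ⟨k, ?_⟩
    rw [← hk, ← h7, v.map_mul, ← h6, add_zero]
  · exfalso
    have hv2 : v (algebraMap K F 2) = 0 := hc 2 h2
    have h7 : 0 < v (algebraMap K F 2 * aeval z p) := by
      have : algebraMap K F 2 * aeval z p =
          (aeval z p + aeval z q * y) + (aeval z p - aeval z q * y) := by
        rw [map_ofNat]
        ring
      rw [this]
      exact v.map_lt_add h5 h6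
    have h8 : 0 < v (algebraMap K F 2 * (aeval z q * y)) := by
      have : algebraMap K F 2 * (aeval z q * y) =
          (aeval z p + aeval z q * y) + (-(aeval z p - aeval z q * y)) := by
        rw [map_ofNat]
        ring
      rw [this]
      exact v.map_lt_add h5 (by rw [v.map_neg]; exact h6)
    rw [v.map_mul, hv2, zero_add] at h7
    rw [v.map_mul, hv2, zero_add, v.map_mul, hy, add_zero] at h8
    rcases hpq with h9 | h9
    · rw [v_poly_zero v hc hz' h9] at h7
      exact lt_irrefl _ h7
    · rw [v_poly_zero v hc hz' h9] at h8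
      exact lt_irrefl _ h8

/-- the unramified case -/
theorem unr_case (hc : ∀ c : K, c ≠ 0 → v (algebraMap K F c) = 0) (h2 : (2 : K) ≠ 0) {z y : F}
    {n : ℤ} (hn : 0 < n) (hz : v z = (n : WithTop ℤ)) (hy : v y = 0) (g : K[X])
    (hg : y ^ 2 = aeval z g) : ∀ (N : ℕ) (p q : K[X]), p.natDegree + q.natDegree ≤ N →
    aeval z p + aeval z q * y ≠ 0 →
    ∃ k : ℤ, v (aeval z p + aeval z q * y) = ((n * k : ℤ) : WithTop ℤ) := by
  intro N
  induction N with
  | zero =>
    intro p q hN h0
    apply unr_core v hc h2 hn hz hy g hg p q h0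
    by_contra hcon
    push Not at hcon
    apply h0
    have hp : p = C (p.coeff 0) := eq_C_of_natDegree_le_zero (by omega)
    have hq : q = C (q.coeff 0) := eq_C_of_natDegree_le_zero (by omega)
    rw [hp, hq, hcon.1, hcon.2, C_0, map_zero, zero_mul, add_zero]
  | succ N ih =>
    intro p q hN h0
    by_cases hpq : p.coeff 0 ≠ 0 ∨ q.coeff 0 ≠ 0
    · exact unr_core v hc h2 hn hz hy g hg p q h0 hpq
    · push Not at hpq
      have hp : p = X * p.divX := by
        conv_lhs => rw [← p.X_mul_divX_add, hpq.1, C_0, add_zero]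
      have hq : q = X * q.divX := by
        conv_lhs => rw [← q.X_mul_divX_add, hpq.2, C_0, add_zero]
      have h1 : aeval z p + aeval z q * y = z * (aeval z p.divX + aeval z q.divX * y) := by
        conv_lhs => rw [hp, hq]
        rw [map_mul, map_mul, aeval_X]
        ring
      have h3 : aeval z p.divX + aeval z q.divX * y ≠ 0 := by
        intro h3
        rw [h3, mul_zero] at h1
        exact h0 h1
      have h4 : p.divX.natDegree + q.divX.natDegree ≤ N := by
        rw [natDegree_divX_eq_natDegree_tsub_one, natDegree_divX_eq_natDegree_tsub_one]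
        by_contra hcon
        have h5 : p.natDegree = 0 := by omega
        have h6 : q.natDegree = 0 := by omega
        have hp' : p = C (p.coeff 0) := eq_C_of_natDegree_le_zero (by omega)
        have hq' : q = C (q.coeff 0) := eq_C_of_natDegree_le_zero (by omega)
        apply h0
        rw [hp', hq', hpq.1, hpq.2, C_0, map_zero, zero_mul, add_zero]
      obtain ⟨k, hk⟩ := ih _ _ h4 h3
      refine ⟨k + 1, ?_⟩
      rw [h1, v.map_mul, hz, hk, ← WithTop.coe_add]
      congr 1
      ring

/-- polynomials in `x`, `y` -/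
theorem red {z y : F} (β : K) (g : K[X]) (hg : y ^ 2 = aeval z g) (u : MvPolynomial (Fin 2) K) :
    ∃ p q : K[X], MvPolynomial.aeval ![z + algebraMap K F β, y] u = aeval z p + aeval z q * y := by
  induction u using MvPolynomial.induction_on with
  | C c =>
    refine ⟨C c, 0, ?_⟩
    rw [MvPolynomial.aeval_C, aeval_C, map_zero, zero_mul, add_zero]
  | add a b ha hb =>
    obtain ⟨p, q, h⟩ := ha
    obtain ⟨p', q', h'⟩ := hb
    refine ⟨p + p', q + q', ?_⟩
    rw [map_add, h, h', map_add, map_add]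
    ring
  | mul_X a i ha =>
    obtain ⟨p, q, h⟩ := ha
    fin_cases i
    · refine ⟨p * (X + C β), q * (X + C β), ?_⟩
      rw [map_mul, h, MvPolynomial.aeval_X, map_mul, map_mul, map_add, aeval_X, aeval_C]
      show _ * (z + algebraMap K F β) = _
      ring
    · refine ⟨q * g, p, ?_⟩
      rw [map_mul, h, MvPolynomial.aeval_X, map_mul, ← hg]
      show _ * y = _
      ring

/-- the conclusion from the divisibility of the orders -/
theorem fin_step {z y : F} {m : ℤ} (β : K) (g : K[X]) (hg : y ^ 2 = aeval z g)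
    (hd : ∀ p q : K[X], aeval z p + aeval z q * y ≠ 0 →
      ∃ k : ℤ, v (aeval z p + aeval z q * y) = ((m * k : ℤ) : WithTop ℤ))
    (hF : ∀ f : F, ∃ u w : MvPolynomial (Fin 2) K,
      MvPolynomial.aeval ![z + algebraMap K F β, y] w ≠ 0 ∧
      f = MvPolynomial.aeval ![z + algebraMap K F β, y] u /
        MvPolynomial.aeval ![z + algebraMap K F β, y] w)
    (π : F) (hπ : v π = 1) : m = 1 ∨ m = -1 := by
  obtain ⟨u, w, hw, hf⟩ := hF π
  obtain ⟨p, q, hu⟩ := red β g hg u
  obtain ⟨p', q', hw'⟩ := red β g hg w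
  have hπ0 : π ≠ 0 := by
    intro h0
    rw [h0, v.map_zero] at hπ
    exact absurd hπ (by simp)
  have h1 : MvPolynomial.aeval ![z + algebraMap K F β, y] u =
      π * MvPolynomial.aeval ![z + algebraMap K F β, y] w := by
    rw [hf]
    field_simp
  rw [hw'] at hw
  rw [hu, hw'] at h1
  obtain ⟨l, hl⟩ := hd p' q' hw
  obtain ⟨k, hk⟩ := hd p q (by rw [h1]; exact mul_ne_zero hπ0 hw)
  have h2 := congrArg v h1
  rw [v.map_mul, hπ, hk, hl] at h2
  have h3 : ((m * k : ℤ) : WithTop ℤ) = ((1 + m * l : ℤ) : WithTop ℤ) := by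
    rw [h2, WithTop.coe_add]
    rfl
  rw [WithTop.coe_inj] at h3
  have h4 : m * (k - l) = 1 := by linarith
  exact Int.isUnit_iff.1 (IsUnit.of_mul_eq_one _ h4)

theorem v_y {y : F} {k : ℤ} (h : v (y ^ 2) = (k : WithTop ℤ)) :
    ∃ w : ℤ, v y = (w : WithTop ℤ) ∧ 2 * w = k := by
  have hy : v y ≠ ⊤ := by
    intro hy
    rw [pow_two, v.map_mul, hy] at h
    exact absurd h (by simp)
  obtain ⟨w, hw⟩ := WithTop.ne_top_iff_exists.1 hy
  refine ⟨w, hw.symm, ?_⟩
  rw [pow_two, v.map_mul, ← hw, ← WithTop.coe_add, WithTop.coe_inj] at h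
  linarith

theorem main (hc : ∀ c : K, c ≠ 0 → v (algebraMap K F c) = 0) (h2 : (2 : K) ≠ 0) {z y : F}
    {n : ℤ} (hn : n ≠ 0) (hz : v z = (n : WithTop ℤ)) (β c0 c1 : K)
    (hy : y ^ 2 = aeval z (X ^ 3 + C (3 * β) * X ^ 2 + C c1 * X + C c0)) (hcc : c0 = 0 → c1 ≠ 0)
    (hF : ∀ f : F, ∃ u w : MvPolynomial (Fin 2) K,
      MvPolynomial.aeval ![z + algebraMap K F β, y] w ≠ 0 ∧
      f = MvPolynomial.aeval ![z + algebraMap K F β, y] u /
        MvPolynomial.aeval ![z + algebraMap K F β, y] w)
    (π : F) (hπ : v π = 1) : ((n - 1 : ℤ) : WithTop ℤ) ≤ v y := by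
  set g : K[X] := X ^ 3 + C (3 * β) * X ^ 2 + C c1 * X + C c0 with hg
  rcases lt_or_gt_of_ne hn with hn | hn
  · have hdeg : g.natDegree = 3 := by
      rw [hg]
      compute_degree!
    have hg0 : g ≠ 0 := by
      intro h
      rw [h, natDegree_zero] at hdeg
      omega
    have h3 := v_poly_neg v hc hn hz hg0
    rw [← hy, hdeg] at h3
    obtain ⟨w, hw, hw2⟩ := v_y v h3
    obtain ⟨m, hm⟩ : ∃ m : ℤ, n = 2 * m := ⟨w - n, by push_cast at hw2; linarith⟩
    have hw3 : w = 3 * m := by push_cast at hw2; linarith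
    have h4 : m = 1 ∨ m = -1 := by
      apply fin_step v β g hy (odd_case v (m := m) (j := 3) (by omega) (by decide) ?_ ?_) hF π hπ
      · intro P hP
        refine ⟨P.natDegree, ?_⟩
        rw [v_poly_neg v hc hn hz hP, hm]
      · rw [hw, hw3]
    rw [hw, WithTop.coe_le_coe]
    omega
  · have hn' : 0 < n := hn
    have hz' : 0 < v z := by
      rw [hz]
      exact_mod_cast hn'
    have hco : g.coeff 0 = c0 := by
      rw [hg]
      simp
    by_cases h0 : c0 = 0
    · have h1 : g = X * (X ^ 2 + C (3 * β) * X + C c1) := by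
        rw [hg, h0, C_0]
        ring
      have h3 : v (y ^ 2) = (n : WithTop ℤ) := by
        rw [hy, h1, map_mul, aeval_X, v.map_mul, hz, v_poly_zero v hc hz', add_zero]
        simpa using hcc h0
      obtain ⟨w, hw, hw2⟩ := v_y v h3
      have h4 : w = 1 ∨ w = -1 := by
        apply fin_step v β g hy (odd_case v (m := w) (j := 1) (by omega) (by decide) ?_ ?_) hF π hπ
        · intro P hP
          obtain ⟨k, hk⟩ := v_poly_pos v hc hn' hz hP
          refine ⟨k, ?_⟩
          rw [hk, hw2]
        · rw [hw, one_mul]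
      rw [hw, WithTop.coe_le_coe]
      omega
    · have h3 : v (y ^ 2) = ((0 : ℤ) : WithTop ℤ) := by
        rw [hy, v_poly_zero v hc hz']
        · rfl
        · rw [hco]
          exact h0
      obtain ⟨w, hw, hw2⟩ := v_y v h3
      have hw0 : w = 0 := by omega
      rw [hw0] at hw
      have h4 : n = 1 ∨ n = -1 := by
        apply fin_step v β g hy ?_ hF π hπ
        intro p q hpq
        exact unr_case v hc h2 hn' hz hw g hy _ p q le_rfl hpq
      rw [hw, WithTop.coe_le_coe]
      omega

end base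

end PELLORD

open PELLORD in
theorem ellord : S_ELLORD := by
  intro K F _ _ _ _ _ a b x y hab hxy _ hF ι hπ β n hn hx
  obtain ⟨π, hπ⟩ := hπ
  let v : AddValuation F (WithTop ℤ) := (HahnSeries.addVal ℤ K).comap (ι : F →+* LaurentSeries K)
  have hv : ∀ f : F, v f = (ι f).orderTop := fun f => rfl
  have hc : ∀ c : K, c ≠ 0 → v (algebraMap K F c) = 0 := by
    intro c hc
    rw [hv, AlgHom.commutes]
    have h1 : algebraMap K (LaurentSeries K) c = HahnSeries.C c := LaurentSeries.algebraMap_apply _ _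
    rw [h1]
    exact HahnSeries.orderTop_single hc
  set z : F := x - algebraMap K F β with hz
  have hxz : x = z + algebraMap K F β := by rw [hz]; ring
  have hy : y ^ 2 = Polynomial.aeval z (Polynomial.X ^ 3 + Polynomial.C (3 * β) * Polynomial.X ^ 2 +
      Polynomial.C (3 * β ^ 2 + a) * Polynomial.X + Polynomial.C (β ^ 3 + a * β + b)) := by
    rw [hxy, hxz]
    simp only [map_add, map_mul, map_pow, Polynomial.aeval_X, Polynomial.aeval_C, map_ofNat]
    ring
  have hcc : β ^ 3 + a * β + b = 0 → 3 * β ^ 2 + a ≠ 0 := by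
    intro h0 h1
    apply hab
    have ha : a = -3 * β ^ 2 := by linear_combination h1
    have hb : b = 2 * β ^ 3 := by linear_combination h0 - β * h1
    rw [ha, hb]
    ring
  rw [hxz] at hF
  have h := main v hc two_ne_zero hn hx β _ _ hy hcc hF π (by rw [hv]; exact hπ)
  exact h

end Pool.Agent.H432.G1

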