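import Mathlib
import Pool.Agent.H432.G1.Stm

/-!
Project G1 (helper432), task PEXT: proximity functions in extensions, by helper870.
-/

set_option autoImplicit false
set_option linter.unusedVariables false

namespace Pool.Agent.H432.G1.PPEXT

open NumberField IsDedekindDomain Module Height
open Pool.Agent.N750 (ab efn)
open Pool.Agent.W180.OP (Pl av wt nrm le_nrm exists_nrm wt_nonneg)

theorem nrm_pair {K : Type} [Field K] (f : AbsoluteValue K ℝ) (z : K) :
    nrm f ![1, z] = max 1 (f z) := by
  refine le_antisymm ?_ ?_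
  · obtain ⟨j, hj⟩ := exists_nrm f (by norm_num : 0 < 2) ![1, z]
    rw [← hj]
    fin_cases j
    · show f 1 ≤ _
      rw [map_one]
      exact le_max_left _ _
    · exact le_max_right _ _
  · refine max_le ?_ ?_
    · have h := le_nrm f ![1, z] 0
      have h1 : f ((![1, z] : Fin 2 → K) 0) = 1 := map_one f
      rwa [h1] at h
    · exact le_nrm f ![1, z] 1

variable {L E : Type} [Field L] [NumberField L] [Field E] [NumberField E] [Algebra L E]

theorem gsum (v : Pl L) (z : L) :
    ∑ w ∈ ab E v, wt w * Real.log (max 1 (av w (algebraMap L E z))) =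
      finrank L E * (wt v * Real.log (max 1 (av v z))) := by
  have h0 : (![1, z] : Fin 2 → L) ≠ 0 := by
    intro h
    have h1 : (1 : L) = 0 := congrFun h 0
    exact one_ne_zero h1
  have h := efn (L := E) v ![1, z] h0
  rw [nrm_pair] at h
  rw [← h]
  refine Finset.sum_congr rfl fun w _ => ?_
  rw [← nrm_pair]
  have h2 : (fun i => algebraMap L E ((![1, z] : Fin 2 → L) i)) = ![1, algebraMap L E z] := by
    funext i
    fin_cases i
    · exact map_one _
    · rfl
  rw [h2]

theorem log_nonneg' (t : ℝ) : 0 ≤ Real.log (max 1 t) := Real.log_nonneg (le_max_left _ _)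

theorem lam_sum (v : Pl L) (A : Finset L) (x : L) :
    ∑ w ∈ ab E v, wt w * (Real.log (max 1 (av w (algebraMap L E x))) +
      ∑ α ∈ A, Real.log (max 1 (av w (algebraMap L E x - algebraMap L E α))⁻¹)) =
      finrank L E * (wt v * lam v A x) := by
  unfold lam
  simp only [mul_add]
  rw [Finset.sum_add_distrib, gsum]
  congr 1
  simp only [Finset.mul_sum]
  rw [Finset.sum_comm]
  refine Finset.sum_congr rfl fun α _ => ?_
  have h1 := gsum (E := E) v (x - α)⁻¹
  have h2 : av v (x - α)⁻¹ = (av v (x - α))⁻¹ := map_inv₀ _ _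
  rw [h2] at h1
  rw [← h1]
  refine Finset.sum_congr rfl fun w _ => ?_
  have h3 : av w (algebraMap L E (x - α)⁻¹) =
      (av w (algebraMap L E x - algebraMap L E α))⁻¹ := by
    rw [map_inv₀, map_inv₀, map_sub]
  rw [h3]

end Pool.Agent.H432.G1.PPEXT

namespace Pool.Agent.H432.G1

open NumberField IsDedekindDomain Module Height
open Pool.Agent.N750 (ab ab_unique)
open Pool.Agent.W180.OP (Pl av wt nrm wt_nonneg)

theorem pext : S_PEXT := by
  classical
  intro L E _ _ _ _ _ T
  refine ⟨T.biUnion (ab E), fun A A' hA x => ?_⟩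
  have h1 : ∀ p : Pl E, Real.log (max 1 (av p (algebraMap L E x))) +
      ∑ α ∈ A, Real.log (max 1 (av p (algebraMap L E x - algebraMap L E α))⁻¹) ≤
      lam p A' (algebraMap L E x) := by
    intro p
    unfold lam
    refine add_le_add le_rfl ?_
    have h2 : ∑ α ∈ A, Real.log (max 1 (av p (algebraMap L E x - algebraMap L E α))⁻¹) =
        ∑ β ∈ A.image (algebraMap L E),
          Real.log (max 1 (av p (algebraMap L E x - β))⁻¹) := by
      rw [Finset.sum_image fun a _ b _ h => (algebraMap L E).injective h]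
    rw [h2]
    refine Finset.sum_le_sum_of_subset_of_nonneg ?_ fun β _ _ => PPEXT.log_nonneg' _
    intro β hβ
    obtain ⟨α, hα, rfl⟩ := Finset.mem_image.1 hβ
    exact hA α hα
  unfold prox
  rw [Pool.Agent.H432.RC.sum_ext, Finset.mul_sum]
  refine Finset.sum_le_sum fun v _ => ?_
  rw [← PPEXT.lam_sum]
  refine Finset.sum_le_sum fun w _ => ?_
  exact mul_le_mul_of_nonneg_left (h1 w) (wt_nonneg w)

end Pool.Agent.H432.G1
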